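import Pool.Agent.P.MP_7ffab6_lc.Cube

/-! Counting cliques among tuples whose weights do not feel the edges between them. -/

namespace Pool.Agent.P.MP_7ffab6_lc

open Finset

section Pattern

variable {ι : Type*} [Fintype ι] [DecidableEq ι]

lemma pattern (F : (ι → Bool) → ℝ) (R : Finset ι) :
    av (fun x => if ∀ e ∈ R, x e = true then F x else 0) ≤
      (1 / 2) ^ R.card * av F + (1 / 2) * ∑ e ∈ R, av (fun x => |F x - F (flip e x)|) := by
  induction R using Finset.induction_on with
  | empty => simp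
  | insert e R he ih =>
    rw [Finset.card_insert_of_notMem he, Finset.sum_insert he, pow_succ]
    set G : (ι → Bool) → ℝ := fun x => if ∀ e ∈ R, x e = true then F x else 0 with hG
    have h1 : ∀ x : ι → Bool, (if ∀ e' ∈ insert e R, x e' = true then F x else 0) =
        if x e = true then G x else 0 := by
      intro x
      simp only [Finset.forall_mem_insert, hG]
      by_cases h : x e = true <;> simp [h]
    simp only [h1]
    have h2 := av_flip e (fun x => if x e = true then G x else 0)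
    have h3 : ∀ x : ι → Bool, (if x e = true then G x else 0) +
        (if flip e x e = true then G (flip e x) else 0) ≤ G x + |F x - F (flip e x)| := by
      intro x
      have h4 : (∀ e' ∈ R, flip e x e' = true) ↔ ∀ e' ∈ R, x e' = true :=
        forall₂_congr fun e' he' => by rw [flip_ne (ne_of_mem_of_not_mem he' he)]
      rw [flip_self]
      have h5 := abs_nonneg (F x - F (flip e x))
      have h6 := neg_abs_le (F x - F (flip e x))
      cases hx : x e
      · simp only [hG, h4]
        split_ifs <;> simp_all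
      · simp [h5]
    have h4 := av_mono h3
    rw [av_add, av_add, h2] at h4
    have h5 : 0 ≤ ∑ e ∈ R, av (fun x => |F x - F (flip e x)|) :=
      Finset.sum_nonneg fun _ _ => av_nonneg fun _ => abs_nonneg _
    linarith

end Pattern

lemma abs_prod_sub_le {V : Type*} [DecidableEq V] (W : Finset V) (a b : V → ℝ)
    (ha0 : ∀ v, 0 ≤ a v) (ha1 : ∀ v, a v ≤ 1) (hb0 : ∀ v, 0 ≤ b v) (hb1 : ∀ v, b v ≤ 1) :
    |∏ v ∈ W, a v - ∏ v ∈ W, b v| ≤ ∑ v ∈ W, |a v - b v| := by
  induction W using Finset.induction_on with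
  | empty => simp
  | insert v W hv ih =>
    rw [Finset.prod_insert hv, Finset.prod_insert hv, Finset.sum_insert hv]
    have h1 : 0 ≤ ∏ v ∈ W, b v := Finset.prod_nonneg fun v _ => hb0 v
    have h2 : ∏ v ∈ W, b v ≤ 1 := Finset.prod_le_one (fun v _ => hb0 v) fun v _ => hb1 v
    have e : a v * ∏ v ∈ W, a v - b v * ∏ v ∈ W, b v =
        a v * (∏ v ∈ W, a v - ∏ v ∈ W, b v) + (a v - b v) * ∏ v ∈ W, b v := by ring
    rw [e]
    refine le_trans (abs_add_le _ _) ?_
    rw [abs_mul, abs_mul, abs_of_nonneg (ha0 v), abs_of_nonneg h1]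
    have h3 := mul_le_of_le_one_left (abs_nonneg (∏ v ∈ W, a v - ∏ v ∈ W, b v)) (ha1 v)
    have h4 := mul_le_of_le_one_right (abs_nonneg (a v - b v)) h2
    linarith

section Comb

variable {V : Type*} [DecidableEq V]

lemma card_sup_le (T U : Finset V) (s : ℕ) (τ : ℝ) (hτ : (T.card : ℝ) ≤ τ) (hU : U ⊆ T)
    (hs : U.card ≤ s) : (((T.powersetCard s).filter (U ⊆ ·)).card : ℝ) ≤ τ ^ (s - U.card) := by
  rw [Finset.card_filter_powersetCard_subset U T s hU hs]
  calc ((T.card - U.card).choose (s - U.card) : ℝ) ≤ ((T.card - U.card : ℕ) : ℝ) ^ (s - U.card) := by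
        exact_mod_cast Nat.choose_le_pow _ _
    _ ≤ τ ^ (s - U.card) := by
        refine pow_le_pow_left₀ (by positivity) (le_trans ?_ hτ) _
        exact_mod_cast Nat.sub_le _ _

omit [DecidableEq V] in
lemma sum_offDiag_swap (T : Finset V) (φ : Sym2 V → V → ℝ) :
    ∑ p ∈ T.offDiag, φ s(p.1, p.2) p.1 = ∑ p ∈ T.offDiag, φ s(p.1, p.2) p.2 := by
  refine Finset.sum_equiv (Equiv.prodComm V V) (fun p => ?_) (fun p _ => ?_)
  · simp only [Finset.mem_offDiag, Equiv.prodComm_apply, Prod.fst_swap, Prod.snd_swap]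
    tauto
  · simp only [Equiv.prodComm_apply, Prod.fst_swap, Prod.snd_swap]
    rw [Sym2.eq_swap]

lemma comb (T : Finset V) (s : ℕ) (hs : 3 ≤ s) (τ : ℝ) (hτ : (T.card : ℝ) ≤ τ)
    (φ : Sym2 V → V → ℝ) (hφ : ∀ e w, 0 ≤ φ e w) :
    ∑ W ∈ T.powersetCard s, ∑ p ∈ W.offDiag, ∑ w ∈ W, φ s(p.1, p.2) w ≤
      2 * τ ^ (s - 2) * ∑ p ∈ T.offDiag, φ s(p.1, p.2) p.2 +
        τ ^ (s - 3) * ∑ p ∈ T.offDiag, ∑ w ∈ T, φ s(p.1, p.2) w := by
  have hτ0 : 0 ≤ τ := le_trans (by positivity) hτ
  have h1 : ∀ W ∈ T.powersetCard s, ∑ p ∈ W.offDiag, ∑ w ∈ W, φ s(p.1, p.2) w =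
      ∑ p ∈ T.offDiag, ∑ w ∈ T,
        if ({p.1, p.2, w} : Finset V) ⊆ W then φ s(p.1, p.2) w else 0 := by
    intro W hW
    have hWT : W ⊆ T := (Finset.mem_powersetCard.1 hW).1
    symm
    rw [← Finset.sum_subset (Finset.offDiag_mono hWT)]
    · refine Finset.sum_congr rfl fun p hp => ?_
      rw [← Finset.sum_subset hWT]
      · refine Finset.sum_congr rfl fun w hw => ?_
        rw [if_pos]
        have := Finset.mem_offDiag.1 hp
        simp [Finset.insert_subset_iff, this.1, this.2.1, hw]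
      · intro w _ hw
        rw [if_neg]
        simp [Finset.insert_subset_iff, hw]
    · intro p hp hp'
      refine Finset.sum_eq_zero fun w _ => ?_
      rw [if_neg]
      intro h
      apply hp'
      simp only [Finset.insert_subset_iff] at h
      exact Finset.mem_offDiag.2 ⟨h.1, h.2.1, (Finset.mem_offDiag.1 hp).2.2⟩
  rw [Finset.sum_congr rfl h1, Finset.sum_comm]
  have h2 : ∀ p ∈ T.offDiag, ∑ W ∈ T.powersetCard s, ∑ w ∈ T,
      (if ({p.1, p.2, w} : Finset V) ⊆ W then φ s(p.1, p.2) w else 0) ≤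
      τ ^ (s - 2) * (φ s(p.1, p.2) p.1 + φ s(p.1, p.2) p.2) +
        τ ^ (s - 3) * ∑ w ∈ T, φ s(p.1, p.2) w := by
    intro p hp
    obtain ⟨hp1, hp2, hp12⟩ := Finset.mem_offDiag.1 hp
    rw [Finset.sum_comm]
    have h3 : ∀ w ∈ T, ∑ W ∈ T.powersetCard s,
        (if ({p.1, p.2, w} : Finset V) ⊆ W then φ s(p.1, p.2) w else 0) ≤
        (if w = p.1 then τ ^ (s - 2) * φ s(p.1, p.2) w else 0) +
        (if w = p.2 then τ ^ (s - 2) * φ s(p.1, p.2) w else 0) +
          τ ^ (s - 3) * φ s(p.1, p.2) w := by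
      intro w hw
      rw [← Finset.sum_filter, Finset.sum_const, nsmul_eq_mul]
      have hsub : ({p.1, p.2, w} : Finset V) ⊆ T := by
        simp [Finset.insert_subset_iff, hp1, hp2, hw]
      have h4 := card_sup_le T {p.1, p.2, w} s τ hτ hsub
        (le_trans Finset.card_le_three hs)
      have h5 := mul_le_mul_of_nonneg_right h4 (hφ s(p.1, p.2) w)
      have h6 : 0 ≤ τ ^ (s - 3) * φ s(p.1, p.2) w := mul_nonneg (by positivity) (hφ _ _)
      have h7 : 0 ≤ τ ^ (s - 2) * φ s(p.1, p.2) w := mul_nonneg (by positivity) (hφ _ _)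
      by_cases hw1 : w = p.1
      · have : ({p.1, p.2, w} : Finset V).card = 2 := by
          rw [hw1, Finset.insert_eq_of_mem (by simp), Finset.card_pair hp12.symm]
        rw [this] at h5
        rw [if_pos hw1]
        split_ifs <;> linarith
      · by_cases hw2 : w = p.2
        · have : ({p.1, p.2, w} : Finset V).card = 2 := by
            rw [hw2, Finset.insert_eq_of_mem (s := {p.2}) (by simp), Finset.card_pair hp12]
          rw [this] at h5
          rw [if_neg hw1, if_pos hw2]
          linarith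
        · have : ({p.1, p.2, w} : Finset V).card = 3 :=
            Finset.card_eq_three.2 ⟨p.1, p.2, w, hp12, Ne.symm hw1, Ne.symm hw2, rfl⟩
          rw [this] at h5
          rw [if_neg hw1, if_neg hw2]
          linarith
    refine le_trans (Finset.sum_le_sum h3) ?_
    rw [Finset.sum_add_distrib, Finset.sum_add_distrib, Finset.sum_ite_eq', Finset.sum_ite_eq',
      if_pos hp1, if_pos hp2, ← Finset.mul_sum]
    exact le_of_eq (by ring)
  refine le_trans (Finset.sum_le_sum h2) ?_
  rw [Finset.sum_add_distrib, ← Finset.mul_sum, ← Finset.mul_sum, Finset.sum_add_distrib,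
    sum_offDiag_swap]
  exact le_of_eq (by ring)

end Comb

/-- all pairs of `K` are edges -/
def IsCl {V : Type*} (x : Sym2 V → Bool) (K : Finset V) : Prop :=
  ∀ v ∈ K, ∀ z ∈ K, v ≠ z → x s(v, z) = true

section Count

variable {V : Type*} [Fintype V] [DecidableEq V]

/-- support of a weight vector -/
noncomputable def supp (a : V → (Sym2 V → Bool) → ℝ) (x : Sym2 V → Bool) : Finset V :=
  Finset.univ.filter fun v => 0 < a v x

omit [DecidableEq V] in
lemma prod_eq_zero_of_not_sub (a : V → (Sym2 V → Bool) → ℝ) (ha0 : ∀ v x, 0 ≤ a v x)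
    (W : Finset V) (x : Sym2 V → Bool) (h : ¬ W ⊆ supp a x) : ∏ v ∈ W, a v x = 0 := by
  obtain ⟨v, hv, hv'⟩ := Finset.not_subset.1 h
  refine Finset.prod_eq_zero hv ?_
  simp only [supp, Finset.mem_filter, Finset.mem_univ, true_and, not_lt] at hv'
  exact le_antisymm hv' (ha0 v x)

lemma sum_filter_sub (T : Finset V) (s : ℕ) (g : Finset V → ℝ) :
    ∑ W ∈ (Finset.univ : Finset V).powersetCard s, (if W ⊆ T then g W else 0) =
      ∑ W ∈ T.powersetCard s, g W := by
  rw [← Finset.sum_filter]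
  refine Finset.sum_congr ?_ fun _ _ => rfl
  ext W
  simp only [Finset.mem_filter, Finset.mem_powersetCard, Finset.subset_univ, true_and]
  tauto

theorem count (a : V → (Sym2 V → Bool) → ℝ) (ha0 : ∀ v x, 0 ≤ a v x) (ha1 : ∀ v x, a v x ≤ 1)
    (τ : ℝ) (hτ : ∀ x, ((supp a x).card : ℝ) ≤ τ) (s k : ℕ) (hs : 3 ≤ s)
    (Γ : (Sym2 V → Bool) → ℝ) (hΓ1 : ∀ x, Γ x ≤ 1)
    (hΓ : ∀ x, 0 < Γ x → ∃ K : Finset V, k ≤ K.card ∧ IsCl x K ∧ ∀ v ∈ K, a v x = 1) :
    av Γ * k.choose s ≤ (1 / 2) ^ (s.choose 2) * τ ^ s +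
      2 * τ ^ (s - 2) * av (fun x => ∑ p ∈ (supp a x).offDiag,
        |a p.2 x - a p.2 (flip s(p.1, p.2) x)|) +
      τ ^ (s - 3) * av (fun x => ∑ p ∈ (supp a x).offDiag, ∑ w ∈ supp a x,
        |a w x - a w (flip s(p.1, p.2) x)|) := by
  set P : Finset (Finset V) := (Finset.univ : Finset V).powersetCard s with hP
  set R : Finset V → Finset (Sym2 V) := fun W => W.offDiag.image Sym2.mk.uncurry with hR
  set F : Finset V → (Sym2 V → Bool) → ℝ := fun W x => ∏ v ∈ W, a v x with hF
  have hF0 : ∀ W x, 0 ≤ F W x := fun W x => Finset.prod_nonneg fun v _ => ha0 v x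
  have h1 : ∀ x, Γ x * k.choose s ≤ ∑ W ∈ P, if ∀ e ∈ R W, x e = true then F W x else 0 := by
    intro x
    have hnn : ∀ W, 0 ≤ (if ∀ e ∈ R W, x e = true then F W x else 0) := fun W => by
      split_ifs
      · exact hF0 W x
      · exact le_rfl
    by_cases hx : 0 < Γ x
    · obtain ⟨K, hK, hcl, hKa⟩ := hΓ x hx
      calc Γ x * k.choose s ≤ (K.card.choose s : ℝ) := by
            refine le_trans (mul_le_of_le_one_left (by positivity) (hΓ1 x)) ?_
            exact_mod_cast Nat.choose_le_choose s hK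
        _ = ∑ W ∈ K.powersetCard s, (1 : ℝ) := by simp
        _ = ∑ W ∈ K.powersetCard s, if ∀ e ∈ R W, x e = true then F W x else 0 := by
            refine Finset.sum_congr rfl fun W hW => ?_
            have hWK : W ⊆ K := (Finset.mem_powersetCard.1 hW).1
            rw [if_pos]
            · exact (Finset.prod_eq_one fun v hv => hKa v (hWK hv)).symm
            · intro e he
              obtain ⟨p, hp, rfl⟩ := Finset.mem_image.1 he
              obtain ⟨hp1, hp2, hp12⟩ := Finset.mem_offDiag.1 hp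
              exact hcl _ (hWK hp1) _ (hWK hp2) hp12
        _ ≤ _ := Finset.sum_le_sum_of_subset_of_nonneg
            (Finset.powersetCard_mono (Finset.subset_univ K)) fun W _ _ => hnn W
    · push Not at hx
      exact le_trans (mul_nonpos_of_nonpos_of_nonneg hx (by positivity))
        (Finset.sum_nonneg fun W _ => hnn W)
  have h2 := av_mono h1
  rw [av_mul_right, av_sum] at h2
  refine le_trans h2 ?_
  have h3 : ∀ W ∈ P, av (fun x => if ∀ e ∈ R W, x e = true then F W x else 0) ≤
      (1 / 2) ^ (s.choose 2) * av (F W) + av (fun x => if W ⊆ supp a x then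
        ∑ p ∈ W.offDiag, ∑ w ∈ W, |a w x - a w (flip s(p.1, p.2) x)| else 0) := by
    intro W hW
    have hc : (R W).card = s.choose 2 := by
      rw [hR, Sym2.card_image_offDiag, (Finset.mem_powersetCard.1 hW).2]
    refine le_trans (pattern (F W) (R W)) ?_
    rw [hc]
    gcongr
    have h4 : ∀ e, av (fun x => |F W x - F W (flip e x)|) ≤
        2 * av (fun x => if W ⊆ supp a x then ∑ w ∈ W, |a w x - a w (flip e x)| else 0) := by
      intro e
      have h5 := av_flip e
        (fun x => if W ⊆ supp a x then ∑ w ∈ W, |a w x - a w (flip e x)| else 0)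
      rw [two_mul]
      nth_rewrite 2 [← h5]
      rw [← av_add]
      refine av_mono fun x => ?_
      have h6 := abs_prod_sub_le W (fun v => a v x) (fun v => a v (flip e x)) (fun v => ha0 v _)
        (fun v => ha1 v _) (fun v => ha0 v _) (fun v => ha1 v _)
      have h7 : ∑ w ∈ W, |a w (flip e x) - a w (flip e (flip e x))| =
          ∑ w ∈ W, |a w x - a w (flip e x)| :=
        Finset.sum_congr rfl fun w _ => by rw [flip_flip, abs_sub_comm]
      rw [h7]
      have h8 : 0 ≤ ∑ w ∈ W, |a w x - a w (flip e x)| := Finset.sum_nonneg fun _ _ => abs_nonneg _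
      split_ifs with c1 c2 c2
      · linarith
      · linarith
      · linarith
      · simp only [hF]
        rw [prod_eq_zero_of_not_sub a ha0 W x c1, prod_eq_zero_of_not_sub a ha0 W _ c2]
        simp
    have h9 : ∑ e ∈ R W, av (fun x => |F W x - F W (flip e x)|) ≤
        ∑ p ∈ W.offDiag, av (fun x => |F W x - F W (flip s(p.1, p.2) x)|) :=
      Finset.sum_image_le_of_nonneg (fun e _ => av_nonneg fun _ => abs_nonneg _)
    have h10 : av (fun x => if W ⊆ supp a x then
        ∑ p ∈ W.offDiag, ∑ w ∈ W, |a w x - a w (flip s(p.1, p.2) x)| else 0) =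
        ∑ p ∈ W.offDiag, av (fun x => if W ⊆ supp a x then
          ∑ w ∈ W, |a w x - a w (flip s(p.1, p.2) x)| else 0) := by
      rw [← av_sum]
      refine av_congr fun x => ?_
      split_ifs <;> simp
    rw [h10]
    have h11 := Finset.sum_le_sum fun (p : V × V) (_ : p ∈ W.offDiag) => h4 s(p.1, p.2)
    rw [← Finset.mul_sum] at h11
    linarith
  refine le_trans (Finset.sum_le_sum h3) ?_
  rw [Finset.sum_add_distrib, ← Finset.mul_sum, ← av_sum, ← av_sum]
  have h12 : av (fun x => ∑ W ∈ P, F W x) ≤ τ ^ s := by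
    rw [← av_const (Ω := Sym2 V → Bool) (τ ^ s)]
    refine av_mono fun x => ?_
    calc ∑ W ∈ P, F W x ≤ ∑ W ∈ P, if W ⊆ supp a x then 1 else 0 := by
          refine Finset.sum_le_sum fun W _ => ?_
          split_ifs with c
          · exact Finset.prod_le_one (fun v _ => ha0 v x) fun v _ => ha1 v x
          · exact (prod_eq_zero_of_not_sub a ha0 W x c).le
      _ = ((supp a x).card.choose s : ℝ) := by
          rw [hP, sum_filter_sub]; simp
      _ ≤ ((supp a x).card : ℝ) ^ s := by exact_mod_cast Nat.choose_le_pow _ _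
      _ ≤ τ ^ s := pow_le_pow_left₀ (by positivity) (hτ x) s
  have h13 : av (fun x => ∑ W ∈ P, if W ⊆ supp a x then
        ∑ p ∈ W.offDiag, ∑ w ∈ W, |a w x - a w (flip s(p.1, p.2) x)| else 0) ≤
      av (fun x => 2 * τ ^ (s - 2) * (∑ p ∈ (supp a x).offDiag,
        |a p.2 x - a p.2 (flip s(p.1, p.2) x)|) +
        τ ^ (s - 3) * ∑ p ∈ (supp a x).offDiag, ∑ w ∈ supp a x,
        |a w x - a w (flip s(p.1, p.2) x)|) := by
    refine av_mono fun x => ?_
    rw [hP, sum_filter_sub]
    exact comb (supp a x) s hs τ (hτ x) (fun e w => |a w x - a w (flip e x)|)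
      fun _ _ => abs_nonneg _
  rw [av_add, av_mul_left, av_mul_left] at h13
  have h14 := mul_le_mul_of_nonneg_left h12 (show (0 : ℝ) ≤ (1 / 2) ^ (s.choose 2) by positivity)
  linarith

end Count

end Pool.Agent.P.MP_7ffab6_lc
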