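import Mathlib

/-! Fourier analysis on the Boolean cube: Parseval, energy, Bonami lemma, small sets. -/

namespace Pool.Agent.P.MP_7ffab6_lc

open Finset

section Av

variable {Ω : Type*} [Fintype Ω]

/-- uniform average -/
noncomputable def av (F : Ω → ℝ) : ℝ := (∑ x, F x) / Fintype.card Ω

lemma av_add (F G : Ω → ℝ) : av (fun x => F x + G x) = av F + av G := by
  simp only [av, Finset.sum_add_distrib, add_div]

lemma av_sub (F G : Ω → ℝ) : av (fun x => F x - G x) = av F - av G := by
  simp only [av, Finset.sum_sub_distrib, sub_div]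

lemma av_mul_left (c : ℝ) (F : Ω → ℝ) : av (fun x => c * F x) = c * av F := by
  simp only [av, ← Finset.mul_sum, mul_div_assoc]

lemma av_mul_right (c : ℝ) (F : Ω → ℝ) : av (fun x => F x * c) = av F * c := by
  simp only [av, ← Finset.sum_mul]; ring

lemma av_div (c : ℝ) (F : Ω → ℝ) : av (fun x => F x / c) = av F / c := by
  simp only [div_eq_mul_inv (F _) c, av_mul_right]; rfl

lemma av_sum {α : Type*} (s : Finset α) (F : α → Ω → ℝ) :
    av (fun x => ∑ a ∈ s, F a x) = ∑ a ∈ s, av (F a) := by
  simp only [av]; rw [Finset.sum_comm, Finset.sum_div]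

lemma av_mono {F G : Ω → ℝ} (h : ∀ x, F x ≤ G x) : av F ≤ av G :=
  div_le_div_of_nonneg_right (Finset.sum_le_sum fun x _ => h x) (by positivity)

lemma av_nonneg {F : Ω → ℝ} (h : ∀ x, 0 ≤ F x) : 0 ≤ av F :=
  div_nonneg (Finset.sum_nonneg fun x _ => h x) (by positivity)

lemma av_const [Nonempty Ω] (c : ℝ) : av (fun _ : Ω => c) = c := by
  have : (Fintype.card Ω : ℝ) ≠ 0 := by exact_mod_cast Fintype.card_ne_zero
  simp only [av, Finset.sum_const, Finset.card_univ, nsmul_eq_mul]; field_simp

lemma av_zero : av (fun _ : Ω => (0 : ℝ)) = 0 := by simp [av]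

lemma av_equiv (e : Ω ≃ Ω) (F : Ω → ℝ) : av (fun x => F (e x)) = av F := by
  simp only [av]; rw [e.sum_comp F]

lemma av_comm {Ω' : Type*} [Fintype Ω'] (F : Ω → Ω' → ℝ) :
    av (fun x => av (fun y => F x y)) = av (fun y => av (fun x => F x y)) := by
  simp only [av, ← Finset.sum_div]; rw [Finset.sum_comm]; ring

lemma av_prod {Ω' : Type*} [Fintype Ω'] (F : Ω × Ω' → ℝ) :
    av F = av (fun x => av (fun y => F (x, y))) := by
  simp only [av, ← Finset.sum_div, Fintype.sum_prod_type, Fintype.card_prod]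
  push_cast
  rw [div_div, mul_comm]

lemma av_mul_sq_le (F G : Ω → ℝ) :
    av (fun x => F x * G x) ^ 2 ≤ av (fun x => F x ^ 2) * av (fun x => G x ^ 2) := by
  simp only [av, div_pow, div_mul_div_comm, ← sq]
  exact div_le_div_of_nonneg_right (Finset.sum_mul_sq_le_sq_mul_sq _ _ _) (by positivity)

lemma av_congr {F G : Ω → ℝ} (h : ∀ x, F x = G x) : av F = av G := by
  rw [show F = G from funext h]

end Av

section Cube

variable {ι : Type*} [Fintype ι] [DecidableEq ι]

/-- flip one coordinate -/
def flip (e : ι) (x : ι → Bool) : ι → Bool := Function.update x e (!x e)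

omit [Fintype ι] in
lemma flip_flip (e : ι) (x : ι → Bool) : flip e (flip e x) = x := by
  simp [flip]

omit [Fintype ι] in
lemma flip_self (e : ι) (x : ι → Bool) : flip e x e = !x e := by simp [flip]

omit [Fintype ι] in
lemma flip_ne {e e' : ι} (h : e' ≠ e) (x : ι → Bool) : flip e x e' = x e' := by
  simp [flip, Function.update_of_ne h]

/-- flip as an equivalence -/
def flipE (e : ι) : (ι → Bool) ≃ (ι → Bool) := ⟨flip e, flip e, flip_flip e, flip_flip e⟩

lemma av_flip (e : ι) (F : (ι → Bool) → ℝ) : av (fun x => F (flip e x)) = av F :=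
  av_equiv (flipE e) F

/-- sign of a bit -/
def sg (b : Bool) : ℝ := if b then -1 else 1

lemma sg_not (b : Bool) : sg (!b) = - sg b := by cases b <;> simp [sg]
lemma sg_sq (b : Bool) : sg b * sg b = 1 := by cases b <;> simp [sg]

/-- Walsh character -/
def chi (S : Finset ι) (x : ι → Bool) : ℝ := ∏ e ∈ S, sg (x e)

omit [Fintype ι] in
lemma chi_flip_of_notMem {S : Finset ι} {e : ι} (h : e ∉ S) (x : ι → Bool) :
    chi S (flip e x) = chi S x :=
  Finset.prod_congr rfl fun a ha => by rw [flip_ne (ne_of_mem_of_not_mem ha h)]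

omit [Fintype ι] in
lemma chi_insert {S : Finset ι} {e : ι} (h : e ∉ S) (x : ι → Bool) :
    chi (insert e S) x = sg (x e) * chi S x := Finset.prod_insert h

omit [Fintype ι] in
lemma chi_flip_of_mem {S : Finset ι} {e : ι} (h : e ∈ S) (x : ι → Bool) :
    chi S (flip e x) = - chi S x := by
  rw [← Finset.insert_erase h, chi_insert (Finset.notMem_erase e S),
    chi_insert (Finset.notMem_erase e S), chi_flip_of_notMem (Finset.notMem_erase e S), flip_self,
    sg_not]
  ring

omit [Fintype ι] [DecidableEq ι] in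
lemma chi_sq (S : Finset ι) (x : ι → Bool) : chi S x * chi S x = 1 := by
  unfold chi
  rw [← Finset.prod_mul_distrib]
  exact Finset.prod_eq_one fun e _ => sg_sq _

lemma av_eq_zero_of_odd (e : ι) (F : (ι → Bool) → ℝ) (h : ∀ x, F (flip e x) = - F x) :
    av F = 0 := by
  have h1 := av_flip e F
  have h2 : av (fun x => F (flip e x)) = (-1) * av F := by
    rw [← av_mul_left]; exact av_congr fun x => by rw [h]; ring
  linarith

lemma chi_orth (S T : Finset ι) : av (fun x => chi S x * chi T x) = if S = T then 1 else 0 := by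
  split_ifs with h
  · subst h
    simp only [chi_sq]; exact av_const 1
  · by_cases h1 : ∃ e ∈ S, e ∉ T
    · obtain ⟨e, he, he'⟩ := h1
      exact av_eq_zero_of_odd e _ fun x => by
        rw [chi_flip_of_mem he, chi_flip_of_notMem he']; ring
    · push Not at h1
      have : ∃ e ∈ T, e ∉ S := by
        by_contra h2
        push Not at h2
        exact h (Finset.Subset.antisymm h1 h2)
      obtain ⟨e, he, he'⟩ := this
      exact av_eq_zero_of_odd e _ fun x => by
        rw [chi_flip_of_mem he, chi_flip_of_notMem he']; ring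

/-- Fourier coefficient -/
noncomputable def fc (h : (ι → Bool) → ℝ) (S : Finset ι) : ℝ := av fun x => h x * chi S x

lemma sum_chi_chi (x y : ι → Bool) :
    ∑ S : Finset ι, chi S x * chi S y = if x = y then (Fintype.card (ι → Bool) : ℝ) else 0 := by
  have : ∑ S : Finset ι, chi S x * chi S y = ∏ e, (1 + sg (x e) * sg (y e)) := by
    rw [Finset.prod_one_add, Finset.powerset_univ]
    refine Finset.sum_congr rfl fun S _ => ?_
    unfold chi
    rw [Finset.prod_mul_distrib]
  rw [this]
  split_ifs with h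
  · subst h
    simp only [sg_sq]
    simp; norm_num
  · obtain ⟨e, he⟩ := Function.ne_iff.1 h
    refine Finset.prod_eq_zero (Finset.mem_univ e) ?_
    revert he
    cases x e <;> cases y e <;> simp [sg]

lemma inversion (h : (ι → Bool) → ℝ) (x : ι → Bool) : h x = ∑ S : Finset ι, fc h S * chi S x := by
  have hc : (Fintype.card (ι → Bool) : ℝ) ≠ 0 := by exact_mod_cast Fintype.card_ne_zero
  have : ∑ S : Finset ι, fc h S * chi S x =
      av (fun y => h y * ∑ S : Finset ι, chi S y * chi S x) := by
    simp only [Finset.mul_sum]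
    rw [av_sum]
    refine Finset.sum_congr rfl fun S _ => ?_
    rw [fc, ← av_mul_right]
    exact av_congr fun y => by ring
  rw [this]
  simp only [sum_chi_chi, av, mul_ite, mul_zero, Finset.sum_ite_eq', Finset.mem_univ, if_true]
  field_simp

lemma av_sq_sum (s : Finset (Finset ι)) (a : Finset ι → ℝ) :
    av (fun x => (∑ S ∈ s, a S * chi S x) ^ 2) = ∑ S ∈ s, a S ^ 2 := by
  have : ∀ x, (∑ S ∈ s, a S * chi S x) ^ 2 =
      ∑ S ∈ s, ∑ T ∈ s, (a S * a T) * (chi S x * chi T x) := by
    intro x
    rw [sq, Finset.sum_mul_sum]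
    exact Finset.sum_congr rfl fun S _ => Finset.sum_congr rfl fun T _ => by ring
  simp only [this, av_sum, av_mul_left, chi_orth, mul_ite, mul_one, mul_zero]
  refine Finset.sum_congr rfl fun S hS => ?_
  rw [Finset.sum_ite_eq, if_pos hS, sq]

lemma parseval (h : (ι → Bool) → ℝ) : av (fun x => h x ^ 2) = ∑ S : Finset ι, fc h S ^ 2 := by
  rw [← av_sq_sum]
  exact av_congr fun x => by rw [← inversion]

lemma fc_diff (h : (ι → Bool) → ℝ) (e : ι) (S : Finset ι) :
    fc (fun x => h x - h (flip e x)) S = if e ∈ S then 2 * fc h S else 0 := by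
  have h1 : av (fun x => h (flip e x) * chi S x) = av (fun x => h x * chi S (flip e x)) := by
    rw [← av_flip e (fun x => h x * chi S (flip e x))]
    simp only [flip_flip]
  unfold fc
  simp only [sub_mul]
  rw [av_sub, h1]
  split_ifs with he
  · simp only [chi_flip_of_mem he]
    have : av (fun x => h x * -chi S x) = (-1) * av (fun x => h x * chi S x) := by
      rw [← av_mul_left]; exact av_congr fun x => by ring
    rw [this]; ring
  · simp only [chi_flip_of_notMem he, sub_self]

/-- Dirichlet energy -/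
noncomputable def energy (h : (ι → Bool) → ℝ) : ℝ :=
  ∑ e, av fun x => (h x - h (flip e x)) ^ 2

lemma energy_nonneg (h : (ι → Bool) → ℝ) : 0 ≤ energy h :=
  Finset.sum_nonneg fun _ _ => av_nonneg fun _ => sq_nonneg _

lemma energy_eq (h : (ι → Bool) → ℝ) :
    energy h = ∑ S : Finset ι, 4 * S.card * fc h S ^ 2 := by
  unfold energy
  simp only [parseval, fc_diff]
  rw [Finset.sum_comm]
  refine Finset.sum_congr rfl fun S _ => ?_
  have : ∀ e, (if e ∈ S then 2 * fc h S else 0) ^ 2 = if e ∈ S then 4 * fc h S ^ 2 else 0 := by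
    intro e; split_ifs <;> ring
  simp only [this]
  rw [Finset.sum_ite_mem, Finset.univ_inter, Finset.sum_const, nsmul_eq_mul]; ring

lemma energy_le_of_deg (h : (ι → Bool) → ℝ) (D : ℝ)
    (hD : ∀ S : Finset ι, D < S.card → fc h S = 0) :
    energy h ≤ 4 * D * av (fun x => h x ^ 2) := by
  rw [energy_eq, parseval, Finset.mul_sum]
  refine Finset.sum_le_sum fun S _ => ?_
  by_cases hS : D < S.card
  · rw [hD S hS]; simp
  · push Not at hS
    have := sq_nonneg (fc h S)
    nlinarith

lemma fc_eval_eq_zero (p : MvPolynomial ι ℝ) (S : Finset ι) (hS : p.totalDegree < S.card) :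
    fc (fun x => MvPolynomial.eval (fun e => if x e then (1 : ℝ) else 0) p) S = 0 := by
  unfold fc
  simp only [MvPolynomial.eval_eq, Finset.sum_mul]
  rw [av_sum]
  refine Finset.sum_eq_zero fun m hm => ?_
  have h1 : m.support.card ≤ p.totalDegree := by
    refine le_trans ?_ (MvPolynomial.le_totalDegree hm)
    rw [Finsupp.sum, Finset.card_eq_sum_ones]
    exact Finset.sum_le_sum fun i hi => Nat.one_le_iff_ne_zero.2 (Finsupp.mem_support_iff.1 hi)
  obtain ⟨e, he, he'⟩ : ∃ e ∈ S, e ∉ m.support := by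
    by_contra h2
    push Not at h2
    have := Finset.card_le_card (show S ⊆ m.support from h2)
    omega
  refine av_eq_zero_of_odd e _ fun x => ?_
  rw [chi_flip_of_mem he]
  have : ∏ i ∈ m.support, (if flip e x i = true then (1 : ℝ) else 0) ^ m i =
      ∏ i ∈ m.support, (if x i = true then (1 : ℝ) else 0) ^ m i :=
    Finset.prod_congr rfl fun i hi => by rw [flip_ne (ne_of_mem_of_not_mem hi he')]
  rw [this]; ring

lemma bonami (J : Finset ι) : ∀ a : Finset ι → ℝ,
    av (fun x => (∑ S ∈ J.powerset, a S * chi S x) ^ 4) ≤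
      (∑ S ∈ J.powerset, 3 ^ S.card * a S ^ 2) ^ 2 := by
  induction J using Finset.induction_on with
  | empty =>
    intro a
    simp only [Finset.powerset_empty, Finset.sum_singleton, chi, Finset.prod_empty, mul_one,
      Finset.card_empty, pow_zero, one_mul]
    rw [av_const]; exact le_of_eq (by ring)
  | insert e J he ih =>
    intro a
    simp only [Finset.sum_powerset_insert he]
    set P : (ι → Bool) → ℝ := fun x => ∑ S ∈ J.powerset, a S * chi S x with hP
    set Q : (ι → Bool) → ℝ := fun x => ∑ S ∈ J.powerset, a (insert e S) * chi S x with hQ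
    have hnot : ∀ S ∈ J.powerset, e ∉ S := fun S hS h => he (Finset.mem_powerset.1 hS h)
    have hPf : ∀ x, P (flip e x) = P x := fun x =>
      Finset.sum_congr rfl fun S hS => by rw [chi_flip_of_notMem (hnot S hS)]
    have hQf : ∀ x, Q (flip e x) = Q x := fun x =>
      Finset.sum_congr rfl fun S hS => by rw [chi_flip_of_notMem (hnot S hS)]
    have h1 : ∀ x, ∑ S ∈ J.powerset, a (insert e S) * chi (insert e S) x = sg (x e) * Q x := by
      intro x
      rw [hQ, Finset.mul_sum]
      exact Finset.sum_congr rfl fun S hS => by rw [chi_insert (hnot S hS)]; ring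
    have h2 : ∑ S ∈ J.powerset, (3 : ℝ) ^ (insert e S).card * a (insert e S) ^ 2 =
        3 * ∑ S ∈ J.powerset, 3 ^ S.card * a (insert e S) ^ 2 := by
      rw [Finset.mul_sum]
      exact Finset.sum_congr rfl fun S hS => by
        rw [Finset.card_insert_of_notMem (hnot S hS), pow_succ]; ring
    simp only [h1, h2]
    have ihP := ih a
    have ihQ := ih fun S => a (insert e S)
    set p := ∑ S ∈ J.powerset, (3 : ℝ) ^ S.card * a S ^ 2 with hp
    set q := ∑ S ∈ J.powerset, (3 : ℝ) ^ S.card * a (insert e S) ^ 2 with hq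
    have hp0 : 0 ≤ p := Finset.sum_nonneg fun _ _ => by positivity
    have hq0 : 0 ≤ q := Finset.sum_nonneg fun _ _ => by positivity
    have h3 : ∀ x, (P x + sg (x e) * Q x) ^ 4 = (P x ^ 4 + 6 * (P x ^ 2 * Q x ^ 2) + Q x ^ 4) +
        sg (x e) * (4 * P x ^ 3 * Q x + 4 * P x * Q x ^ 3) := by
      intro x
      cases x e <;> simp [sg] <;> ring
    have h4 : av (fun x => sg (x e) * (4 * P x ^ 3 * Q x + 4 * P x * Q x ^ 3)) = 0 :=
      av_eq_zero_of_odd e _ fun x => by rw [hPf, hQf, flip_self, sg_not]; ring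
    have h5 : av (fun x => P x ^ 2 * Q x ^ 2) ≤ p * q := by
      have := av_mul_sq_le (fun x => P x ^ 2) (fun x => Q x ^ 2)
      simp only [← pow_mul] at this
      have h6 : av (fun x => P x ^ 4) * av (fun x => Q x ^ 4) ≤ p ^ 2 * q ^ 2 :=
        mul_le_mul ihP ihQ (av_nonneg fun x => by positivity) (by positivity)
      exact (pow_le_pow_iff_left₀ (av_nonneg fun x => by positivity) (by positivity)
        two_ne_zero).1 (by rw [mul_pow]; exact le_trans this h6)
    show av (fun x => (P x + sg (x e) * Q x) ^ 4) ≤ _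
    simp only [h3]
    rw [av_add, av_add, av_add, av_mul_left, h4]
    have h7 : av (fun x => P x ^ 4) ≤ p ^ 2 := ihP
    have h8 : av (fun x => Q x ^ 4) ≤ q ^ 2 := ihQ
    nlinarith [sq_nonneg q]

lemma small_set_aux (d : ℕ) (hd : 0 < d) (η : ℝ) (hη : 0 ≤ η) (h : (ι → Bool) → ℝ)
    (A : (ι → Bool) → ℝ) (hA0 : ∀ x, 0 ≤ A x) (hA1 : ∀ x, A x ≤ 1) (hA : av A ≤ η ^ 2) :
    av (fun x => A x * (h x - av h) ^ 2) ≤ (η * 3 ^ d / 2 + 1 / (2 * d)) * energy h := by
  set a : Finset ι → ℝ := fun S => if 1 ≤ S.card ∧ S.card ≤ d then fc h S else 0 with ha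
  set b : Finset ι → ℝ := fun S => if d < S.card then fc h S else 0 with hb
  set L : (ι → Bool) → ℝ := fun x => ∑ S, a S * chi S x with hL
  set H : (ι → Bool) → ℝ := fun x => ∑ S, b S * chi S x with hH
  have hdec : ∀ x, h x - av h = L x + H x := by
    intro x
    have h0 : av h = ∑ S : Finset ι, (if S = ∅ then fc h S else 0) * chi S x := by
      simp [fc, chi]
    rw [h0, hL, hH]
    conv_lhs => rw [inversion h x]
    rw [← Finset.sum_sub_distrib, ← Finset.sum_add_distrib]
    refine Finset.sum_congr rfl fun S _ => ?_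
    simp only [ha, hb]
    by_cases h1 : S = ∅
    · simp [h1]
    · have h2 : 1 ≤ S.card := Finset.card_pos.2 (Finset.nonempty_iff_ne_empty.2 h1)
      by_cases h3 : S.card ≤ d
      · simp [h1, h2, h3, not_lt.2 h3]
      · simp [h1, h3, not_le.1 h3]
  have hE := energy_eq h
  have hE0 := energy_nonneg h
  have hHs : av (fun x => H x ^ 2) ≤ energy h / (4 * d) := by
    rw [hH, av_sq_sum, le_div_iff₀ (by positivity), hE, Finset.sum_mul]
    refine Finset.sum_le_sum fun S _ => ?_
    simp only [hb]
    split_ifs with h1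
    · have : (d : ℝ) ≤ S.card := by exact_mod_cast h1.le
      have := sq_nonneg (fc h S)
      nlinarith
    · simp; positivity
  have hL4 : av (fun x => L x ^ 4) ≤ (3 ^ d * energy h / 4) ^ 2 := by
    have := bonami (Finset.univ : Finset ι) a
    rw [Finset.powerset_univ] at this
    refine le_trans this (pow_le_pow_left₀ (Finset.sum_nonneg fun _ _ => by positivity) ?_ 2)
    rw [le_div_iff₀ (by norm_num), hE, Finset.mul_sum, Finset.sum_mul]
    refine Finset.sum_le_sum fun S _ => ?_
    simp only [ha]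
    split_ifs with h1
    · have h2 : (1 : ℝ) ≤ S.card := by exact_mod_cast h1.1
      have h3 : (3 : ℝ) ^ S.card ≤ 3 ^ d := pow_le_pow_right₀ (by norm_num) h1.2
      have h4 := sq_nonneg (fc h S)
      calc (3 : ℝ) ^ S.card * fc h S ^ 2 * 4 ≤ 3 ^ d * fc h S ^ 2 * 4 := by gcongr
        _ = 3 ^ d * (4 * 1 * fc h S ^ 2) := by ring
        _ ≤ 3 ^ d * (4 * S.card * fc h S ^ 2) := by gcongr
    · simp; positivity
  have hAL : av (fun x => A x * L x ^ 2) ≤ η * (3 ^ d * energy h / 4) := by
    have h1 := av_mul_sq_le A (fun x => L x ^ 2)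
    simp only [← pow_mul] at h1
    have h2 : av (fun x => A x ^ 2) ≤ η ^ 2 :=
      le_trans (av_mono fun x => by nlinarith [hA0 x, hA1 x]) hA
    have h3 : av (fun x => A x ^ 2) * av (fun x => L x ^ 4) ≤
        η ^ 2 * (3 ^ d * energy h / 4) ^ 2 :=
      mul_le_mul h2 hL4 (av_nonneg fun x => by positivity) (by positivity)
    exact (pow_le_pow_iff_left₀ (av_nonneg fun x => mul_nonneg (hA0 x) (sq_nonneg _))
      (by positivity) two_ne_zero).1 (by rw [mul_pow]; exact le_trans h1 h3)
  calc av (fun x => A x * (h x - av h) ^ 2)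
      ≤ av (fun x => 2 * (A x * L x ^ 2) + 2 * H x ^ 2) := by
        refine av_mono fun x => ?_
        rw [hdec]
        have h1 : (L x + H x) ^ 2 ≤ 2 * L x ^ 2 + 2 * H x ^ 2 := by
          nlinarith [sq_nonneg (L x - H x)]
        have h2 := mul_le_mul_of_nonneg_left h1 (hA0 x)
        have h3 : A x * H x ^ 2 ≤ H x ^ 2 := mul_le_of_le_one_left (sq_nonneg _) (hA1 x)
        nlinarith
    _ = 2 * av (fun x => A x * L x ^ 2) + 2 * av (fun x => H x ^ 2) := by
        rw [av_add, av_mul_left, av_mul_left]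
    _ ≤ 2 * (η * (3 ^ d * energy h / 4)) + 2 * (energy h / (4 * d)) := by gcongr
    _ = (η * 3 ^ d / 2 + 1 / (2 * d)) * energy h := by
        have : (d : ℝ) ≠ 0 := by positivity
        field_simp; ring

end Cube

/-- on a small set, a single discrete derivative carries a small part of the energy -/
theorem small_set (ε : ℝ) (hε : 0 < ε) : ∃ β : ℝ, 0 < β ∧ ∀ (ι : Type) [Fintype ι] [DecidableEq ι]
    (h A : (ι → Bool) → ℝ) (e : ι), (∀ x, 0 ≤ A x) → (∀ x, A x ≤ 1) → av A ≤ β →
    av (fun x => A x * (h x - h (flip e x)) ^ 2) ≤ ε * energy h := by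
  obtain ⟨d, hd⟩ := exists_nat_gt (4 / ε)
  have hd0 : (0 : ℝ) < d := lt_trans (by positivity) hd
  have hd1 : 0 < d := by exact_mod_cast hd0
  refine ⟨(ε / (4 * 3 ^ d)) ^ 2, by positivity, fun ι _ _ h A e hA0 hA1 hA => ?_⟩
  have h1 := small_set_aux d hd1 (ε / (4 * 3 ^ d)) (by positivity) h A hA0 hA1 hA
  have h2 := small_set_aux d hd1 (ε / (4 * 3 ^ d)) (by positivity) h (fun x => A (flip e x))
    (fun x => hA0 _) (fun x => hA1 _) (by rw [av_flip e A]; exact hA)
  have h3 : av (fun x => A (flip e x) * (h x - av h) ^ 2) =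
      av (fun x => A x * (h (flip e x) - av h) ^ 2) := by
    rw [← av_flip e (fun x => A x * (h (flip e x) - av h) ^ 2)]
    simp only [flip_flip]
  rw [h3] at h2
  have h4 : ε / (4 * 3 ^ d) * 3 ^ d / 2 + 1 / (2 * d) ≤ ε / 4 := by
    have e1 : ε / (4 * 3 ^ d) * 3 ^ d / 2 = ε / 8 := by field_simp; ring
    have e2 : 1 / (2 * (d : ℝ)) ≤ ε / 8 := by
      rw [div_lt_iff₀ hε] at hd
      rw [div_le_div_iff₀ (by positivity) (by norm_num)]
      nlinarith
    linarith
  have hE := energy_nonneg h
  have h5 := mul_le_mul_of_nonneg_right h4 hE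
  calc av (fun x => A x * (h x - h (flip e x)) ^ 2)
      ≤ av (fun x => 2 * (A x * (h x - av h) ^ 2) + 2 * (A x * (h (flip e x) - av h) ^ 2)) := by
        refine av_mono fun x => ?_
        have h1 : (h x - h (flip e x)) ^ 2 ≤ 2 * (h x - av h) ^ 2 + 2 * (h (flip e x) - av h) ^ 2 := by
          nlinarith [sq_nonneg (h x + h (flip e x) - 2 * av h)]
        have h2 := mul_le_mul_of_nonneg_left h1 (hA0 x)
        nlinarith
    _ = 2 * av (fun x => A x * (h x - av h) ^ 2) +
        2 * av (fun x => A x * (h (flip e x) - av h) ^ 2) := by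
        rw [av_add, av_mul_left, av_mul_left]
    _ ≤ ε * energy h := by linarith

end Pool.Agent.P.MP_7ffab6_lc
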