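import Mathlib

namespace Pool.Agent.P.MP_7ffab6_lc

/-- the possible edges on `Fin n` -/
abbrev Edge (n : ℕ) : Type := {e : Sym2 (Fin n) // ¬ e.IsDiag}

/-- the graph whose edge-indicator vector is `x` -/
def graphOf {n : ℕ} (x : Edge n → Bool) : SimpleGraph (Fin n) :=
  SimpleGraph.fromEdgeSet {e | ∃ h : ¬ e.IsDiag, x ⟨e, h⟩ = true}

/-- value of a polynomial at the 0/1 vector `x` -/
noncomputable def value {n : ℕ} (p : MvPolynomial (Edge n) ℝ) (x : Edge n → Bool) : ℝ :=
  MvPolynomial.eval (fun e => if x e = true then (1 : ℝ) else 0) p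

/-- the output set `S_f` -/
def output {n : ℕ} (f : Fin n → MvPolynomial (Edge n) ℝ) (x : Edge n → Bool) : Set (Fin n) :=
  {i | 1 / 2 ≤ value (f i) x}

end Pool.Agent.P.MP_7ffab6_lc
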