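import Pool.Agent.P.MP_7ffab6_lc.Main
import Pool.Agent.P.MP_7ffab6_lc.Defs

namespace Pool.Agent.P.MP_7ffab6_lc

open Finset

/-- forget the diagonal coordinates -/
def res {n : ℕ} (y : Sym2 (Fin n) → Bool) : Edge n → Bool := fun e => y e.1

lemma av_res {n : ℕ} (Φ : (Edge n → Bool) → ℝ) : av (fun y => Φ (res y)) = av Φ := by
  classical
  let E := Equiv.piEquivPiSubtypeProd (fun e : Sym2 (Fin n) => ¬ e.IsDiag) (fun _ => Bool)
  have h1 : av (fun y : Sym2 (Fin n) → Bool => Φ (res y)) = av (fun p : (Edge n → Bool) ×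
      ({e : Sym2 (Fin n) // ¬¬ e.IsDiag} → Bool) => Φ p.1) := by
    unfold av
    rw [Fintype.card_congr E]
    congr 1
    exact Fintype.sum_equiv E _ _ fun y => rfl
  rw [h1, av_prod]
  simp only [av_const]

lemma value_res {n : ℕ} (p : MvPolynomial (Edge n) ℝ) (y : Sym2 (Fin n) → Bool) :
    value p (res y) = MvPolynomial.eval (fun e => if y e then (1 : ℝ) else 0)
      (MvPolynomial.rename Subtype.val p) := by
  rw [MvPolynomial.eval_rename]; rfl

lemma energy_value {n : ℕ} (p : MvPolynomial (Edge n) ℝ) (D : ℝ) (hD : (p.totalDegree : ℝ) ≤ D) :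
    energy (fun y => value p (res y)) ≤ 4 * D * av (fun y => value p (res y) ^ 2) := by
  refine energy_le_of_deg _ D fun S hS => ?_
  simp only [value_res]
  refine fc_eval_eq_zero _ S (lt_of_le_of_lt (MvPolynomial.totalDegree_rename_le _ _) ?_)
  exact_mod_cast lt_of_le_of_lt hD hS

theorem final (C γ α c : ℝ) (hα : 0 < α) (hc : 0 < c) :
    ∀ᶠ n : ℕ in Filter.atTop, ∀ f : Fin n → MvPolynomial (Edge n) ℝ,
      (∀ i, ((f i).totalDegree : ℝ) ≤ C * Real.logb 2 n) →
      (∑ x : Edge n → Bool, ∑ i, value (f i) x ^ 2) / Fintype.card (Edge n → Bool) ≤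
        γ * Real.logb 2 n →
      (Set.ncard {x : Edge n → Bool | ∃ K : Finset (Fin n), (K : Set (Fin n)) ⊆ output f x ∧
          (graphOf x).IsClique (K : Set (Fin n)) ∧ α * Real.logb 2 n ≤ K.card} : ℝ) /
        Fintype.card (Edge n → Bool) < c := by
  classical
  set C1 : ℝ := 4 * (|C| + 1) / α with hC1
  set γ1 : ℝ := 4 * (|γ| + 1) / α with hγ1
  have hC10 : 0 < C1 := by positivity
  have hγ10 : 0 < γ1 := by positivity
  obtain ⟨k0, hk0⟩ := main_stable γ1 (4 * C1 * γ1) c hγ10 (by positivity) hc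
  have hlog : Filter.Tendsto (fun n : ℕ => α * Real.logb 2 n) Filter.atTop Filter.atTop :=
    Filter.Tendsto.const_mul_atTop hα
      ((Real.tendsto_logb_atTop one_lt_two).comp tendsto_natCast_atTop_atTop)
  filter_upwards [hlog.eventually_ge_atTop (2 * k0 + 4)] with n hn f hdeg hnorm
  set L := Real.logb 2 n with hL
  have hk00 : (0 : ℝ) ≤ k0 := by positivity
  have hαL : 0 < α * L := by linarith
  have hL0 : 0 < L := pos_of_mul_pos_right hαL hα.le
  set k := ⌊α * L / 2⌋₊ with hk
  have hk1 : (k : ℝ) ≤ α * L / 2 := Nat.floor_le (by positivity)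
  have hk2 : α * L / 2 < k + 1 := Nat.lt_floor_add_one _
  have hkk0 : k ≥ k0 := by
    have : (k0 : ℝ) ≤ k := by linarith
    exact_mod_cast this
  have hLk : L ≤ 4 * k / α := by
    rw [le_div_iff₀ hα]; linarith
  have hbound : ∀ t : ℝ, t * L ≤ 4 * (|t| + 1) / α * k := by
    intro t
    calc t * L ≤ (|t| + 1) * L := by
          refine mul_le_mul_of_nonneg_right ?_ hL0.le
          linarith [le_abs_self t]
      _ ≤ (|t| + 1) * (4 * k / α) := mul_le_mul_of_nonneg_left hLk (by positivity)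
      _ = 4 * (|t| + 1) / α * k := by ring
  set P : (Edge n → Bool) → Prop := fun x => ∃ K : Finset (Fin n), (K : Set (Fin n)) ⊆ output f x ∧
    (graphOf x).IsClique (K : Set (Fin n)) ∧ α * L ≤ K.card with hP
  have hnorm' : av (fun y : Sym2 (Fin n) → Bool => ∑ i, value (f i) (res y) ^ 2) ≤ γ1 * k := by
    rw [av_res (fun x => ∑ i, value (f i) x ^ 2)]
    exact le_trans hnorm (hbound γ)
  have hmain := hk0 k hkk0 (Fin n) (fun i y => value (f i) (res y))
    (fun y => if P (res y) then 1 else 0) (fun y => by split_ifs <;> norm_num)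
    (fun y => by split_ifs <;> norm_num)
    (fun y hy => by
      split_ifs at hy with h
      · obtain ⟨K, hK1, hK2, hK3⟩ := h
        refine ⟨K, ?_, fun v hv z hz hvz => ?_, fun v hv => hK1 (Finset.mem_coe.2 hv)⟩
        · have : ((2 * k : ℕ) : ℝ) ≤ K.card := by push_cast; linarith
          exact_mod_cast this
        · have := hK2 (Finset.mem_coe.2 hv) (Finset.mem_coe.2 hz) hvz
          rw [graphOf, SimpleGraph.fromEdgeSet_adj] at this
          obtain ⟨⟨_, h⟩, -⟩ := this
          exact h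
      · exact absurd hy (lt_irrefl _))
    hnorm'
    (by
      calc ∑ i, energy (fun y => value (f i) (res y))
          ≤ ∑ i, 4 * (C1 * k) * av (fun y => value (f i) (res y) ^ 2) :=
            Finset.sum_le_sum fun i _ => energy_value _ _ (le_trans (hdeg i) (hbound C))
        _ = 4 * (C1 * k) * av (fun y : Sym2 (Fin n) → Bool => ∑ i, value (f i) (res y) ^ 2) := by
            rw [av_sum, Finset.mul_sum]
        _ ≤ 4 * (C1 * k) * (γ1 * k) := mul_le_mul_of_nonneg_left hnorm' (by positivity)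
        _ = 4 * C1 * γ1 * k ^ 2 := by ring)
  rw [av_res (fun x => if P x then 1 else 0)] at hmain
  refine lt_of_eq_of_lt ?_ hmain
  unfold av
  congr 1
  rw [Finset.sum_boole, ← Set.ncard_coe_finset]
  congr 2
  ext x
  simp [hP]

end Pool.Agent.P.MP_7ffab6_lc
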