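import Pool.Agent.P.MP_7ffab6_lc.Opt5

/-! The greedy algorithm with a budget, and its truncated inclusion-exclusion polynomial. -/

namespace Pool.Agent.P.MP_7ffab6_lc.Gr

open Finset

section Split

variable {ι : Type*} [Fintype ι] [DecidableEq ι]

lemma av_all_eq (W : Finset ι) :
    av (fun y : ι → Bool => if ∀ e ∈ W, y e = true then (1 : ℝ) else 0) = (1 / 2) ^ W.card := by
  induction W using Finset.induction_on with
  | empty => simp [av_const]
  | insert e W he ih =>
    rw [Finset.card_insert_of_notMem he, pow_succ, ← ih]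
    set G : (ι → Bool) → ℝ := fun y => if ∀ e' ∈ W, y e' = true then (1 : ℝ) else 0 with hG
    have h1 : ∀ y : ι → Bool, (if ∀ e' ∈ insert e W, y e' = true then (1 : ℝ) else 0) =
        if y e = true then G y else 0 := by
      intro y
      simp only [Finset.forall_mem_insert, hG]
      by_cases h : y e = true <;> simp [h]
    simp only [h1]
    have h2 := av_flip e (fun y => if y e = true then G y else 0)
    have h3 : ∀ y : ι → Bool, (if y e = true then G y else 0) +
        (if flip e y e = true then G (flip e y) else 0) = G y := by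
      intro y
      have h4 : G (flip e y) = G y := by
        have : (∀ e' ∈ W, flip e y e' = true) ↔ ∀ e' ∈ W, y e' = true :=
          forall₂_congr fun e' he' => by rw [flip_ne (ne_of_mem_of_not_mem he' he)]
        simp only [hG, this]
      rw [flip_self, h4]
      cases y e <;> simp
    have h4 := av_congr h3
    rw [av_add, h2] at h4
    linarith

lemma av_split (J : Finset ι) (G1 G0 : (ι → Bool) → ℝ)
    (h1 : ∀ y x, G1 (J.piecewise y x) = G1 x) (h0 : ∀ y x, G0 (J.piecewise y x) = G0 x) :
    av (fun x : ι → Bool => if ∀ e ∈ J, x e = true then G1 x else G0 x) =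
      (1 / 2) ^ J.card * av G1 + (1 - (1 / 2) ^ J.card) * av G0 := by
  rw [← av_pw J, ← av_mul_left, ← av_mul_left, ← av_add]
  refine av_congr fun x => ?_
  have h2 : ∀ y : ι → Bool, (if ∀ e ∈ J, J.piecewise y x e = true then G1 (J.piecewise y x)
      else G0 (J.piecewise y x)) =
      (if ∀ e ∈ J, y e = true then (1 : ℝ) else 0) * (G1 x - G0 x) + G0 x := by
    intro y
    have : (∀ e ∈ J, J.piecewise y x e = true) ↔ ∀ e ∈ J, y e = true :=
      forall₂_congr fun e he => by rw [Finset.piecewise_eq_of_mem _ _ _ he]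
    simp only [this, h1, h0]
    split_ifs <;> ring
  simp only [h2]
  rw [av_add, av_mul_right, av_all_eq, av_const]
  ring

end Split

variable {n : ℕ}

/-- the pairs joining `v` to `C` -/
def JJ (v : Fin n) (C : Finset (Fin n)) : Finset (Edge n) :=
  Finset.univ.filter fun e => ∃ w ∈ C, e.1 = s(v, w)

lemma card_JJ {v : Fin n} {C : Finset (Fin n)} (hv : v ∉ C) : (JJ v C).card = C.card := by
  symm
  refine Finset.card_bij (fun w hw => ⟨s(v, w), by
    simpa using fun h : v = w => hv (h ▸ hw)⟩) (fun w hw => ?_) (fun w _ w' _ h => ?_)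
    fun e he => ?_
  · exact Finset.mem_filter.2 ⟨Finset.mem_univ _, w, hw, rfl⟩
  · exact Sym2.congr_right.1 (congrArg Subtype.val h)
  · obtain ⟨w, hw, h⟩ := (Finset.mem_filter.1 he).2
    exact ⟨w, hw, Subtype.ext h.symm⟩

/-- greedy scan of the list with current clique `C` and budget `b`; empty on failure -/
def gd (K : ℕ) (x : Edge n → Bool) : List (Fin n) → Finset (Fin n) → ℕ → Finset (Fin n)
  | [], C, _ => if C.card = K then C else ∅
  | v :: l, C, b => if C.card = K then C else if b < 2 ^ (K - C.card) then ∅ else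
      if ∀ e ∈ JJ v C, x e = true then gd K x l (insert v C) (b - 2 ^ (K - C.card))
      else gd K x l C (b - 2 ^ (K - C.card))

/-- the polynomial following the scan with at most `R` correction factors -/
noncomputable def gp (K : ℕ) (u : Fin n) :
    List (Fin n) → Finset (Fin n) → ℕ → ℕ → MvPolynomial (Edge n) ℝ
  | [], C, _, _ => if C.card = K ∧ u ∈ C then 1 else 0
  | v :: l, C, b, R => if C.card = K then (if u ∈ C then 1 else 0) else
      if b < 2 ^ (K - C.card) then 0 else
        gp K u l C (b - 2 ^ (K - C.card)) R + (∏ e ∈ JJ v C, MvPolynomial.X e) *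
          (gp K u l (insert v C) (b - 2 ^ (K - C.card)) R -
            if R = 0 then 0 else gp K u l C (b - 2 ^ (K - C.card)) (R - 1))

lemma value_cons (K : ℕ) (u v : Fin n) (l : List (Fin n)) (C : Finset (Fin n)) (b R : ℕ)
    (x : Edge n → Bool) (h1 : C.card ≠ K) (h2 : ¬ b < 2 ^ (K - C.card)) :
    value (gp K u (v :: l) C b R) x = if ∀ e ∈ JJ v C, x e = true then
      value (gp K u l C (b - 2 ^ (K - C.card)) R) x +
        value (gp K u l (insert v C) (b - 2 ^ (K - C.card)) R) x -
          (if R = 0 then 0 else value (gp K u l C (b - 2 ^ (K - C.card)) (R - 1)) x)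
      else value (gp K u l C (b - 2 ^ (K - C.card)) R) x := by
  rw [gp, if_neg h1, if_neg h2]
  unfold value
  rw [map_add, map_mul, map_sub, map_prod]
  simp only [MvPolynomial.eval_X]
  rw [Finset.prod_boole]
  by_cases hR : R = 0
  · simp only [hR, if_true, map_zero]
    split_ifs <;> ring
  · simp only [hR, if_false]
    split_ifs <;> ring

lemma deg_gp (K : ℕ) (u : Fin n) (l : List (Fin n)) : ∀ (C : Finset (Fin n)) (b R : ℕ),
    l.Nodup → (∀ v ∈ l, v ∉ C) → C.card ≤ K →
    (gp K u l C b R).totalDegree ≤ K * (R + (K - C.card)) := by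
  induction l with
  | nil => intro C b R _ _ _; rw [gp]; split_ifs <;> simp
  | cons v l ih =>
    intro C b R hl hC hK
    obtain ⟨hvl, hl'⟩ := List.nodup_cons.1 hl
    have hvC : v ∉ C := hC v List.mem_cons_self
    have hC' : ∀ w ∈ l, w ∉ C := fun w hw => hC w (List.mem_cons_of_mem _ hw)
    rw [gp]
    by_cases h1 : C.card = K
    · rw [if_pos h1]; split_ifs <;> simp
    rw [if_neg h1]
    by_cases h2 : b < 2 ^ (K - C.card)
    · rw [if_pos h2]; simp
    rw [if_neg h2]
    refine le_trans (MvPolynomial.totalDegree_add _ _) (max_le (ih C _ R hl' hC' hK) ?_)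
    refine le_trans (MvPolynomial.totalDegree_mul _ _) ?_
    have h3 : (∏ e ∈ JJ v C, (MvPolynomial.X e : MvPolynomial (Edge n) ℝ)).totalDegree ≤ K := by
      refine le_trans (MvPolynomial.totalDegree_finsetProd _ _) ?_
      simp only [MvPolynomial.totalDegree_X, Finset.sum_const, smul_eq_mul, mul_one]
      rw [card_JJ hvC]; exact hK
    have h4 := ih (insert v C) (b - 2 ^ (K - C.card)) R hl' (fun w hw h => by
      rcases Finset.mem_insert.1 h with h | h
      · exact hvl (h ▸ hw)
      · exact hC' w hw h) (by rw [Finset.card_insert_of_notMem hvC]; omega)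
    rw [Finset.card_insert_of_notMem hvC] at h4
    obtain ⟨j, hj⟩ : ∃ j, K - C.card = j + 1 := ⟨K - C.card - 1, by omega⟩
    have h5 : (gp K u l (insert v C) (b - 2 ^ (K - C.card)) R -
        if R = 0 then 0 else gp K u l C (b - 2 ^ (K - C.card)) (R - 1)).totalDegree ≤
        K * (R + j) := by
      refine le_trans (MvPolynomial.totalDegree_sub _ _) (max_le ?_ ?_)
      · rwa [show K - (C.card + 1) = j by omega] at h4
      · split_ifs with hR
        · simp
        · have := ih C (b - 2 ^ (K - C.card)) (R - 1) hl' hC' hK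
          rwa [show R - 1 + (K - C.card) = R + j by omega] at this
    rw [show R + (K - C.card) = R + j + 1 by omega, mul_add K (R + j) 1, mul_one]
    omega

lemma gd_dep (K : ℕ) (x y : Edge n → Bool) (l : List (Fin n)) :
    (∀ e : Edge n, (∃ v ∈ l, v ∈ e.1) → x e = y e) →
    ∀ (C : Finset (Fin n)) (b : ℕ), gd K x l C b = gd K y l C b := by
  induction l with
  | nil => intro _ C b; rfl
  | cons v l ih =>
    intro h C b
    have ih' := ih fun e ⟨w, hw, he⟩ => h e ⟨w, List.mem_cons_of_mem _ hw, he⟩
    have h1 : (∀ e ∈ JJ v C, x e = true) ↔ ∀ e ∈ JJ v C, y e = true :=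
      forall₂_congr fun e he => by
        obtain ⟨w, -, hw⟩ := (Finset.mem_filter.1 he).2
        rw [h e ⟨v, List.mem_cons_self, by rw [hw]; simp⟩]
    simp only [gd, h1, ih']

lemma gp_dep (K : ℕ) (u : Fin n) (x y : Edge n → Bool) (l : List (Fin n)) :
    (∀ e : Edge n, (∃ v ∈ l, v ∈ e.1) → x e = y e) →
    ∀ (C : Finset (Fin n)) (b R : ℕ), value (gp K u l C b R) x = value (gp K u l C b R) y := by
  induction l with
  | nil => intro _ C b R; rw [gp]; split_ifs <;> simp [value]
  | cons v l ih =>
    intro h C b R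
    have ih' := ih fun e ⟨w, hw, he⟩ => h e ⟨w, List.mem_cons_of_mem _ hw, he⟩
    have h1 : (∀ e ∈ JJ v C, x e = true) ↔ ∀ e ∈ JJ v C, y e = true :=
      forall₂_congr fun e he => by
        obtain ⟨w, -, hw⟩ := (Finset.mem_filter.1 he).2
        rw [h e ⟨v, List.mem_cons_self, by rw [hw]; simp⟩]
    by_cases h2 : C.card = K
    · rw [gp, if_pos h2]; split_ifs <;> simp [value]
    by_cases h3 : b < 2 ^ (K - C.card)
    · rw [gp, if_neg h2, if_pos h3]; simp [value]
    rw [value_cons K u v l C b R x h2 h3, value_cons K u v l C b R y h2 h3]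
    simp only [h1, ih']

lemma pw_agree {v : Fin n} {l : List (Fin n)} {C : Finset (Fin n)} (hvl : v ∉ l)
    (hC : ∀ w ∈ l, w ∉ C) (y x : Edge n → Bool) (e : Edge n) (he : ∃ w ∈ l, w ∈ e.1) :
    (JJ v C).piecewise y x e = x e := by
  refine Finset.piecewise_eq_of_notMem _ _ _ fun h => ?_
  obtain ⟨w, hw, h1⟩ := (Finset.mem_filter.1 h).2
  obtain ⟨z, hz, h2⟩ := he
  rw [h1] at h2
  rcases Sym2.mem_iff.1 h2 with h3 | h3
  · exact hvl (h3 ▸ hz)
  · exact hC z hz (h3 ▸ hw)

lemma gd_spec (K : ℕ) (x : Edge n → Bool) (l : List (Fin n)) : ∀ (C : Finset (Fin n)) (b : ℕ),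
    l.Nodup → (∀ v ∈ l, v ∉ C) → (graphOf x).IsClique (C : Set (Fin n)) →
    gd K x l C b = ∅ ∨
      ((gd K x l C b).card = K ∧ (graphOf x).IsClique (gd K x l C b : Set (Fin n))) := by
  induction l with
  | nil =>
    intro C b _ _ hc
    rw [gd]
    split_ifs with h
    exacts [Or.inr ⟨h, hc⟩, Or.inl rfl]
  | cons v l ih =>
    intro C b hl hC hc
    obtain ⟨hvl, hl'⟩ := List.nodup_cons.1 hl
    have hvC : v ∉ C := hC v List.mem_cons_self
    have hC' : ∀ w ∈ l, w ∉ C := fun w hw => hC w (List.mem_cons_of_mem _ hw)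
    rw [gd]
    split_ifs with h1 h2 h3
    · exact Or.inr ⟨h1, hc⟩
    · exact Or.inl rfl
    · refine ih _ _ hl' (fun w hw h => ?_) ?_
      · rcases Finset.mem_insert.1 h with h | h
        · exact hvl (h ▸ hw)
        · exact hC' w hw h
      · rw [Finset.coe_insert]
        refine hc.insert fun w hw hvw => ?_
        rw [graphOf, SimpleGraph.fromEdgeSet_adj]
        have hd : ¬ (s(v, w) : Sym2 (Fin n)).IsDiag := by simpa using hvw
        exact ⟨⟨hd, h3 ⟨s(v, w), hd⟩
          (Finset.mem_filter.2 ⟨Finset.mem_univ _, w, Finset.mem_coe.1 hw, rfl⟩)⟩, hvw⟩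
    · exact ih _ _ hl' hC' hc

lemma card_gd (K : ℕ) (x : Edge n → Bool) (l : List (Fin n)) : ∀ (C : Finset (Fin n)) (b : ℕ),
    (gd K x l C b).card ≤ K := by
  induction l with
  | nil => intro C b; rw [gd]; split_ifs with h <;> simp [h]
  | cons v l ih =>
    intro C b
    rw [gd]
    split_ifs with h1
    · exact h1.le
    · simp
    · exact ih _ _
    · exact ih _ _

end Pool.Agent.P.MP_7ffab6_lc.Gr
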