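import Pool.Agent.P.MP_7ffab6_lc.Gr1

/-! Mean square error and failure probability of the greedy polynomial. -/

namespace Pool.Agent.P.MP_7ffab6_lc.Gr

open Finset

variable {n : ℕ}

/-- indicator of the greedy output -/
def dd (K : ℕ) (x : Edge n → Bool) (l : List (Fin n)) (C : Finset (Fin n)) (b : ℕ) (u : Fin n) :
    ℝ := if u ∈ gd K x l C b then 1 else 0

/-- squared distance of the polynomial from the greedy output -/
noncomputable def er (K : ℕ) (l : List (Fin n)) (C : Finset (Fin n)) (b R : ℕ)
    (x : Edge n → Bool) : ℝ := ∑ u, (value (gp K u l C b R) x - dd K x l C b u) ^ 2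

lemma sum_dd (K : ℕ) (x : Edge n → Bool) (l : List (Fin n)) (C : Finset (Fin n)) (b : ℕ) :
    ∑ u, dd K x l C b u ^ 2 ≤ K := by
  have h1 : ∀ u, dd K x l C b u ^ 2 = if u ∈ gd K x l C b then (1 : ℝ) else 0 := by
    intro u; unfold dd; split_ifs <;> simp
  simp only [h1]
  rw [Finset.sum_boole]
  simpa using card_gd K x l C b

lemma er_dep (K : ℕ) (x y : Edge n → Bool) (l : List (Fin n))
    (h : ∀ e : Edge n, (∃ v ∈ l, v ∈ e.1) → x e = y e) (C : Finset (Fin n)) (b R : ℕ) :
    er K l C b R x = er K l C b R y := by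
  unfold er dd
  simp only [gd_dep K x y l h, gp_dep K _ x y l h]

lemma er_bound (K : ℕ) (l : List (Fin n)) : ∀ (C : Finset (Fin n)) (b R : ℕ),
    l.Nodup → (∀ v ∈ l, v ∉ C) → C.card ≤ K →
    av (er K l C b R) ≤ K * (1 / 4) ^ R * Real.exp (16 * b / 2 ^ K) := by
  induction l with
  | nil =>
    intro C b R _ _ _
    have : ∀ x, er K ([] : List (Fin n)) C b R x = 0 := by
      intro x
      refine Finset.sum_eq_zero fun u _ => ?_
      unfold dd
      rw [gp, gd]
      by_cases h : C.card = K <;> by_cases h' : u ∈ C <;> simp [h, h', value]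
    rw [av_congr this, av_zero]; positivity
  | cons v l ih =>
    intro C b R hl hC hK
    obtain ⟨hvl, hl'⟩ := List.nodup_cons.1 hl
    have hvC : v ∉ C := hC v List.mem_cons_self
    have hC' : ∀ w ∈ l, w ∉ C := fun w hw => hC w (List.mem_cons_of_mem _ hw)
    by_cases h1 : C.card = K
    · have : ∀ x, er K (v :: l) C b R x = 0 := by
        intro x
        refine Finset.sum_eq_zero fun u _ => ?_
        unfold dd
        rw [gp, gd, if_pos h1, if_pos h1]
        by_cases h' : u ∈ C <;> simp [h', value]
      rw [av_congr this, av_zero]; positivity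
    by_cases h2 : b < 2 ^ (K - C.card)
    · have : ∀ x, er K (v :: l) C b R x = 0 := by
        intro x
        refine Finset.sum_eq_zero fun u _ => ?_
        unfold dd
        rw [gp, gd, if_neg h1, if_neg h1, if_pos h2, if_pos h2]
        simp [value]
      rw [av_congr this, av_zero]; positivity
    set b' := b - 2 ^ (K - C.card) with hb'
    set B : ℝ := K * (1 / 4) ^ R * Real.exp (16 * b' / 2 ^ K) with hB
    set E2 : (Edge n → Bool) → ℝ := fun x => ∑ u,
      ((if R = 0 then 0 else value (gp K u l C b' (R - 1)) x) - dd K x l C b' u) ^ 2 with hE2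
    have hCi : ∀ w ∈ l, w ∉ insert v C := fun w hw h => by
      rcases Finset.mem_insert.1 h with h | h
      · exact hvl (h ▸ hw)
      · exact hC' w hw h
    have i1 := ih C b' R hl' hC' hK
    have i3 := ih (insert v C) b' R hl' hCi (by rw [Finset.card_insert_of_notMem hvC]; omega)
    have i2 : av E2 ≤ 4 * B := by
      by_cases hR : R = 0
      · have h3 : av E2 ≤ av fun _ : Edge n → Bool => (K : ℝ) := av_mono fun x => by
          simp only [hE2, hR, if_true, zero_sub, neg_sq]; exact sum_dd K x l C b'
        rw [av_const] at h3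
        have h4 : 1 ≤ Real.exp (16 * b' / 2 ^ K) := Real.one_le_exp (by positivity)
        have h5 : (0 : ℝ) ≤ K := by positivity
        rw [hB, hR]; nlinarith
      · have h3 := ih C b' (R - 1) hl' hC' hK
        have h4 : E2 = er K l C b' (R - 1) := by
          funext x; simp only [hE2, hR, if_false, er]
        rw [h4]
        refine le_trans h3 (le_of_eq ?_)
        obtain ⟨r, rfl⟩ : ∃ r, R = r + 1 := ⟨R - 1, by omega⟩
        rw [hB, Nat.add_sub_cancel, pow_succ]; ring
    have key : ∀ x, er K (v :: l) C b R x ≤ if ∀ e ∈ JJ v C, x e = true then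
        4 * er K l C b' R x + 4 * er K l (insert v C) b' R x + 2 * E2 x else er K l C b' R x := by
      intro x
      split_ifs with h3
      · simp only [er, hE2, Finset.mul_sum, ← Finset.sum_add_distrib]
        refine Finset.sum_le_sum fun u _ => ?_
        have h4 : dd K x (v :: l) C b u = dd K x l (insert v C) b' u := by
          unfold dd; rw [gd, if_neg h1, if_neg h2, if_pos h3]
        rw [value_cons K u v l C b R x h1 h2, if_pos h3, h4]
        set a1 := value (gp K u l C b' R) x
        set a3 := value (gp K u l (insert v C) b' R) x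
        set a2 := (if R = 0 then 0 else value (gp K u l C b' (R - 1)) x)
        set d1 := dd K x l C b' u
        set d3 := dd K x l (insert v C) b' u
        nlinarith [sq_nonneg ((a1 - d1) - (a3 - d3)), sq_nonneg (2 * (a1 - d1) + (a2 - d1)),
          sq_nonneg (2 * (a3 - d3) + (a2 - d1))]
      · refine le_of_eq (Finset.sum_congr rfl fun u _ => ?_)
        have h4 : dd K x (v :: l) C b u = dd K x l C b' u := by
          unfold dd; rw [gd, if_neg h1, if_neg h2, if_neg h3]
        rw [value_cons K u v l C b R x h1 h2, if_neg h3, h4]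
    refine le_trans (av_mono key) ?_
    rw [av_split _ _ _ (fun y x => by
      have h := pw_agree hvl hC' y x
      simp only [er_dep K _ x l h, hE2, dd, gd_dep K _ x l h, gp_dep K _ _ x l h])
      (fun y x => er_dep K _ x l (pw_agree hvl hC' y x) _ _ _),
      av_add, av_add, av_mul_left, av_mul_left, av_mul_left, card_JJ hvC]
    set p : ℝ := (1 / 2) ^ C.card with hp
    have hp0 : 0 ≤ p := by positivity
    have hp1 : p ≤ 1 := pow_le_one₀ (by norm_num) (by norm_num)
    have hB0 : 0 ≤ B := by positivity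
    have hbb : (16 * b / 2 ^ K : ℝ) = 16 * b' / 2 ^ K + 16 * p := by
      have h5 : (b : ℝ) = b' + 2 ^ (K - C.card) := by
        rw [hb', Nat.cast_sub (not_lt.1 h2)]; push_cast; ring
      have h6 : (2 : ℝ) ^ K = 2 ^ (K - C.card) * 2 ^ C.card := by
        rw [← pow_add, Nat.sub_add_cancel hK]
      rw [h5, hp, one_div_pow, mul_add, add_div, h6]; congr 1; field_simp
    rw [hbb, Real.exp_add, ← mul_assoc, ← hB]
    have h7 := Real.add_one_le_exp (16 * p)
    have h8 : p * (4 * av (er K l C b' R) + 4 * av (er K l (insert v C) b' R) + 2 * av E2) ≤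
        p * (16 * B) := mul_le_mul_of_nonneg_left (by linarith) hp0
    have h9 : (1 - p) * av (er K l C b' R) ≤ (1 - p) * B :=
      mul_le_mul_of_nonneg_left i1 (by linarith)
    nlinarith [mul_le_mul_of_nonneg_left h7 hB0, mul_nonneg hp0 hB0]

lemma fail_bound (K : ℕ) (hK0 : 0 < K) (l : List (Fin n)) : ∀ (C : Finset (Fin n)) (b : ℕ),
    l.Nodup → (∀ v ∈ l, v ∉ C) → C.card ≤ K → b ≤ 2 * l.length →
    av (fun x => if gd K x l C b = ∅ then (1 : ℝ) else 0) ≤
      Real.exp ((K : ℝ) - C.card - b / (2 * 2 ^ K)) := by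
  have hle : ∀ (l : List (Fin n)) (C : Finset (Fin n)) (b : ℕ),
      av (fun x => if gd K x l C b = ∅ then (1 : ℝ) else 0) ≤ 1 := fun l C b => by
    refine le_trans (av_mono fun x => ?_) (av_const (1 : ℝ)).le
    split_ifs <;> norm_num
  have hne : ∀ C : Finset (Fin n), C.card = K → C ≠ ∅ := fun C h h' => by
    rw [h'] at h; simp at h; omega
  induction l with
  | nil =>
    intro C b _ _ hK hb
    have hb0 : b = 0 := by simpa using hb
    refine le_trans (hle _ _ _) (Real.one_le_exp ?_)
    have : (C.card : ℝ) ≤ K := by exact_mod_cast hK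
    rw [hb0]; simpa using this
  | cons v l ih =>
    intro C b hl hC hK hb
    obtain ⟨hvl, hl'⟩ := List.nodup_cons.1 hl
    have hvC : v ∉ C := hC v List.mem_cons_self
    have hC' : ∀ w ∈ l, w ∉ C := fun w hw => hC w (List.mem_cons_of_mem _ hw)
    by_cases h1 : C.card = K
    · have : ∀ x, (if gd K x (v :: l) C b = ∅ then (1 : ℝ) else 0) = 0 := by
        intro x; rw [gd, if_pos h1, if_neg (hne C h1)]
      rw [av_congr this, av_zero]; positivity
    have h6 : (2 : ℝ) ^ K = 2 ^ (K - C.card) * 2 ^ C.card := by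
      rw [← pow_add, Nat.sub_add_cancel hK]
    by_cases h2 : b < 2 ^ (K - C.card)
    · refine le_trans (hle _ _ _) (Real.one_le_exp ?_)
      have h3 : (C.card : ℝ) + 1 ≤ K := by exact_mod_cast (show C.card + 1 ≤ K by omega)
      have h4 : (b : ℝ) ≤ 2 ^ K := by
        exact_mod_cast le_trans h2.le (Nat.pow_le_pow_right two_pos (Nat.sub_le _ _))
      have h5 : (b : ℝ) / (2 * 2 ^ K) ≤ 1 := by
        rw [div_le_one (by positivity)]; linarith [show (0 : ℝ) < 2 ^ K by positivity]
      linarith
    set b' := b - 2 ^ (K - C.card) with hb'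
    have hb2 : b' ≤ 2 * l.length := by
      have : 2 ^ 1 ≤ 2 ^ (K - C.card) := Nat.pow_le_pow_right two_pos (by omega)
      rw [List.length_cons] at hb; omega
    have hCi : ∀ w ∈ l, w ∉ insert v C := fun w hw h => by
      rcases Finset.mem_insert.1 h with h | h
      · exact hvl (h ▸ hw)
      · exact hC' w hw h
    have i1 := ih C b' hl' hC' hK hb2
    have i3 := ih (insert v C) b' hl' hCi (by rw [Finset.card_insert_of_notMem hvC]; omega) hb2
    have key : ∀ x, (if gd K x (v :: l) C b = ∅ then (1 : ℝ) else 0) =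
        if ∀ e ∈ JJ v C, x e = true then (if gd K x l (insert v C) b' = ∅ then (1 : ℝ) else 0)
        else (if gd K x l C b' = ∅ then (1 : ℝ) else 0) := by
      intro x
      rw [gd, if_neg h1, if_neg h2]
      by_cases h3 : ∀ e ∈ JJ v C, x e = true
      · rw [if_pos h3, if_pos h3]
      · rw [if_neg h3, if_neg h3]
    rw [av_congr key, av_split _ _ _
      (fun y x => by rw [gd_dep K _ x l (pw_agree hvl hC' y x)])
      (fun y x => by rw [gd_dep K _ x l (pw_agree hvl hC' y x)]), card_JJ hvC]
    set p : ℝ := (1 / 2) ^ C.card with hp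
    have hp0 : 0 ≤ p := by positivity
    have hp1 : p ≤ 1 := pow_le_one₀ (by norm_num) (by norm_num)
    set A : ℝ := (K : ℝ) - C.card - b' / (2 * 2 ^ K) with hA
    have hbb : (K : ℝ) - C.card - b / (2 * 2 ^ K) = A + -(p / 2) := by
      have h5 : (b : ℝ) = b' + 2 ^ (K - C.card) := by
        rw [hb', Nat.cast_sub (not_lt.1 h2)]; push_cast; ring
      rw [h5, hA, hp, one_div_pow, add_div, sub_add_eq_sub_sub, sub_eq_add_neg _ (_ / _)]
      congr 2
      rw [h6]; field_simp
    have h7 : (K : ℝ) - ((insert v C).card : ℕ) - b' / (2 * 2 ^ K) = A + -1 := by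
      rw [Finset.card_insert_of_notMem hvC, hA]; push_cast; ring
    rw [h7, Real.exp_add] at i3
    rw [hbb, Real.exp_add]
    have h8 := Real.add_one_le_exp (-(p / 2))
    have h9 : Real.exp (-1) ≤ 1 / 2 := by
      have := Real.add_one_le_exp 1
      rw [Real.exp_neg, ← one_div]
      exact one_div_le_one_div_of_le two_pos (by linarith)
    have hA0 := Real.exp_pos A
    have h10 := mul_le_mul_of_nonneg_left (le_trans i3 (mul_le_mul_of_nonneg_left h9 hA0.le)) hp0
    have h11 := mul_le_mul_of_nonneg_left i1 (show 0 ≤ 1 - p by linarith)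
    nlinarith [mul_le_mul_of_nonneg_left h8 hA0.le]

end Pool.Agent.P.MP_7ffab6_lc.Gr
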