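import Pool.Agent.P.MP_7ffab6_lc.Gr2

/-! The greedy clique as the output of a polynomial map of degree `68 K ^ 2`. -/

namespace Pool.Agent.P.MP_7ffab6_lc.Gr

open Finset

lemma num_bound (K : ℕ) (hK : 0 < K) :
    (K : ℝ) * (1 / 4) ^ (67 * K) * Real.exp (16 * ((4 * K * 2 ^ K : ℕ) : ℝ) / 2 ^ K) ≤
      Real.exp (-K) / 4 := by
  have h1 : (16 * ((4 * K * 2 ^ K : ℕ) : ℝ) / 2 ^ K : ℝ) = -K + (65 * K : ℕ) * 1 := by
    push_cast; field_simp; ring
  have h2 : Real.exp 1 ≤ 4 := le_trans Real.exp_one_lt_d9.le (by norm_num)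
  have h3 : Real.exp ((65 * K : ℕ) * 1) ≤ 4 ^ (65 * K) := by
    rw [Real.exp_nat_mul]; exact pow_le_pow_left₀ (Real.exp_pos 1).le h2 _
  have h4 : (4 : ℝ) * K ≤ 4 ^ (2 * K) := by
    have h5 : K < 4 ^ K := Nat.lt_pow_self (by norm_num)
    have h6 : 4 ^ 1 ≤ 4 ^ K := Nat.pow_le_pow_right (by norm_num) hK
    have h7 : 4 * K ≤ 4 ^ (2 * K) := by rw [two_mul, pow_add]; nlinarith
    exact_mod_cast h7
  rw [h1, Real.exp_add, one_div_pow, show 67 * K = 2 * K + 65 * K by ring, pow_add]
  have h8 := Real.exp_pos (-K : ℝ)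
  have h9 : (0 : ℝ) < 4 ^ (2 * K) := by positivity
  have h10 : (0 : ℝ) < 4 ^ (65 * K) := by positivity
  calc (K : ℝ) * (1 / (4 ^ (2 * K) * 4 ^ (65 * K))) *
        (Real.exp (-K) * Real.exp ((65 * K : ℕ) * 1))
      ≤ (4 ^ (2 * K) / 4) * (1 / (4 ^ (2 * K) * 4 ^ (65 * K))) * (Real.exp (-K) * 4 ^ (65 * K)) := by
        gcongr; linarith
    _ = Real.exp (-K) / 4 := by field_simp

theorem upper (K n : ℕ) (hK : 0 < K) (hn : 2 * K * 2 ^ K ≤ n) :
    ∃ f : Fin n → MvPolynomial (Edge n) ℝ, (∀ i, (f i).totalDegree ≤ 68 * K ^ 2) ∧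
      (∑ x : Edge n → Bool, ∑ i, value (f i) x ^ 2) / Fintype.card (Edge n → Bool) ≤ 4 * K ∧
      1 - 2 * Real.exp (-K) ≤ (Set.ncard {x : Edge n → Bool | (graphOf x).IsClique (output f x) ∧
        (output f x).ncard = K} : ℝ) / Fintype.card (Edge n → Bool) := by
  classical
  set l := List.finRange n with hl
  have hnd : l.Nodup := List.nodup_finRange n
  have hC : ∀ v ∈ l, v ∉ (∅ : Finset (Fin n)) := fun v _ => Finset.notMem_empty v
  have hc0 : (∅ : Finset (Fin n)).card ≤ K := by simp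
  set b := 4 * K * 2 ^ K with hb
  set f : Fin n → MvPolynomial (Edge n) ℝ := fun u => gp K u l ∅ b (67 * K) with hf
  have her := le_trans (er_bound K l ∅ b (67 * K) hnd hC hc0) (num_bound K hK)
  have hfail := fail_bound K hK l ∅ b hnd hC hc0 (by rw [hl, List.length_finRange, hb]; linarith)
  have h1 : (K : ℝ) - ((∅ : Finset (Fin n)).card : ℕ) - (b : ℕ) / (2 * 2 ^ K) = -K := by
    rw [hb]; push_cast; simp only [Finset.card_empty, Nat.cast_zero]; field_simp; ring
  rw [h1] at hfail
  have hK1 : (1 : ℝ) ≤ K := by exact_mod_cast hK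
  have hexp : Real.exp (-K) ≤ 1 := Real.exp_le_one_iff.2 (by linarith)
  refine ⟨f, fun u => ?_, ?_, ?_⟩
  · refine le_trans (deg_gp K u l ∅ b (67 * K) hnd hC hc0) (le_of_eq ?_)
    simp only [Finset.card_empty, Nat.sub_zero]; ring
  · have h2 : ∀ x, ∑ i, value (f i) x ^ 2 ≤ 2 * er K l ∅ b (67 * K) x + 2 * K := by
      intro x
      have h3 := sum_dd K x l ∅ b
      have h4 : ∑ i, value (f i) x ^ 2 ≤
          2 * er K l ∅ b (67 * K) x + 2 * ∑ u, dd K x l ∅ b u ^ 2 := by
        simp only [er, Finset.mul_sum, ← Finset.sum_add_distrib]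
        exact Finset.sum_le_sum fun u _ => by
          nlinarith [sq_nonneg (value (f u) x - 2 * dd K x l ∅ b u)]
      linarith
    have h5 := av_mono h2
    rw [av_add, av_mul_left, av_const] at h5
    change av (fun x => ∑ i, value (f i) x ^ 2) ≤ _
    linarith
  · set P : (Edge n → Bool) → Prop := fun x => (graphOf x).IsClique (output f x) ∧
      (output f x).ncard = K with hP
    have h2 : ∀ x, 1 - 4 * er K l ∅ b (67 * K) x - (if gd K x l ∅ b = ∅ then (1 : ℝ) else 0) ≤
        if P x then 1 else 0 := by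
      intro x
      have h0 : 0 ≤ er K l ∅ b (67 * K) x := Finset.sum_nonneg fun u _ => sq_nonneg _
      by_cases h3 : er K l ∅ b (67 * K) x < 1 / 4
      · by_cases h4 : gd K x l ∅ b = ∅
        · rw [if_pos h4]; split_ifs <;> linarith
        have h5 : output f x = (gd K x l ∅ b : Set (Fin n)) := by
          ext u
          have h6 : (value (f u) x - dd K x l ∅ b u) ^ 2 < 1 / 4 :=
            lt_of_le_of_lt (Finset.single_le_sum
              (f := fun u => (value (gp K u l ∅ b (67 * K)) x - dd K x l ∅ b u) ^ 2)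
              (fun u _ => sq_nonneg _) (Finset.mem_univ u)) h3
          simp only [output, Set.mem_setOf_eq, Finset.mem_coe]
          unfold dd at h6
          by_cases h7 : u ∈ gd K x l ∅ b
          · rw [if_pos h7] at h6
            exact iff_of_true (by nlinarith) h7
          · rw [if_neg h7] at h6
            exact iff_of_false (fun h => by nlinarith) h7
        obtain ⟨h6, h7⟩ := (gd_spec K x l ∅ b hnd hC (by simp)).resolve_left h4
        rw [if_neg h4, if_pos (show P x from ⟨h5 ▸ h7, by rw [h5, Set.ncard_coe_finset, h6]⟩)]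
        linarith
      · split_ifs <;> linarith
    have h3 := av_mono h2
    rw [av_sub, av_sub, av_mul_left, av_const] at h3
    refine le_trans (by linarith) (le_trans h3 (le_of_eq ?_))
    unfold av
    congr 1
    rw [Finset.sum_boole, ← Set.ncard_coe_finset]
    congr 2
    ext x
    simp [hP]

end Pool.Agent.P.MP_7ffab6_lc.Gr
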