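import Pool.Agent.P.MP_7ffab6_lc.Count

/-! The key lemma: a stable weight vector of bounded norm does not carry a large clique. -/

namespace Pool.Agent.P.MP_7ffab6_lc

open Finset

/-- clamp to the unit interval -/
def clamp (t : ℝ) : ℝ := max 0 (min 1 t)

lemma clamp_nonneg (t : ℝ) : 0 ≤ clamp t := le_max_left _ _
lemma clamp_le_one (t : ℝ) : clamp t ≤ 1 := max_le zero_le_one (min_le_left _ _)
lemma clamp_eq_one {t : ℝ} (h : 1 ≤ t) : clamp t = 1 := by
  simp [clamp, min_eq_left h]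
lemma pos_of_clamp_pos {t : ℝ} (h : 0 < clamp t) : 0 < t := by
  by_contra h2
  push Not at h2
  have : clamp t = 0 := max_eq_left (le_trans (min_le_right _ _) h2)
  linarith
lemma clamp_lip (s t : ℝ) : |clamp s - clamp t| ≤ |s - t| := by
  unfold clamp
  refine le_trans (abs_max_sub_max_le_max _ _ _ _) ?_
  simp only [sub_self, abs_zero]
  refine max_le (abs_nonneg _) (le_trans (abs_min_sub_min_le_max _ _ _ _) ?_)
  simp

lemma abs_le_add_sq (t l : ℝ) (hl : 0 < l) : |t| ≤ l + t ^ 2 / l := by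
  rw [← sq_abs]
  have h1 : l + |t| ^ 2 / l - |t| = (l ^ 2 - l * |t| + |t| ^ 2) / l := by field_simp; ring
  have h2 : 0 ≤ (l ^ 2 - l * |t| + |t| ^ 2) / l :=
    div_nonneg (by nlinarith [sq_nonneg (l - |t|), abs_nonneg t]) hl.le
  linarith

lemma sqrt_sub_sq_le {α : Type*} (s : Finset α) (f g : α → ℝ) :
    (Real.sqrt (∑ a ∈ s, f a ^ 2) - Real.sqrt (∑ a ∈ s, g a ^ 2)) ^ 2 ≤ ∑ a ∈ s, (f a - g a) ^ 2 := by
  have hf : 0 ≤ ∑ a ∈ s, f a ^ 2 := Finset.sum_nonneg fun _ _ => sq_nonneg _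
  have hg : 0 ≤ ∑ a ∈ s, g a ^ 2 := Finset.sum_nonneg fun _ _ => sq_nonneg _
  have h1 := Real.sum_mul_le_sqrt_mul_sqrt s f g
  have h2 : ∑ a ∈ s, (f a - g a) ^ 2 =
      ∑ a ∈ s, f a ^ 2 + ∑ a ∈ s, g a ^ 2 - 2 * ∑ a ∈ s, f a * g a := by
    rw [Finset.mul_sum, ← Finset.sum_add_distrib, ← Finset.sum_sub_distrib]
    exact Finset.sum_congr rfl fun _ _ => by ring
  rw [h2, sub_sq, Real.sq_sqrt hf, Real.sq_sqrt hg]
  linarith

lemma sum_pairs_le {V : Type*} [Fintype V] [DecidableEq V] (T : Finset (V × V)) (ψ : Sym2 V → ℝ)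
    (hψ : ∀ e, 0 ≤ ψ e) : ∑ p ∈ T, ψ s(p.1, p.2) ≤ 2 * ∑ e, ψ e := by
  have h1 := Finset.sum_comp (s := T) ψ (fun p : V × V => s(p.1, p.2))
  rw [h1, Finset.mul_sum]
  refine le_trans (Finset.sum_le_sum fun e _ => ?_)
    (Finset.sum_le_sum_of_subset_of_nonneg (Finset.subset_univ _)
      fun e _ _ => mul_nonneg zero_le_two (hψ e))
  rw [nsmul_eq_mul]
  refine mul_le_mul_of_nonneg_right ?_ (hψ e)
  induction e using Sym2.ind with
  | h a b =>
    have : (T.filter fun p : V × V => s(p.1, p.2) = s(a, b)) ⊆ {(a, b), (b, a)} := by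
      intro p hp
      have := (Finset.mem_filter.1 hp).2
      rw [Sym2.eq_iff] at this
      simp only [Finset.mem_insert, Finset.mem_singleton, Prod.ext_iff]
      exact this
    exact_mod_cast le_trans (Finset.card_le_card this) Finset.card_le_two

lemma exists_s (B η : ℝ) (hB : 0 < B) (hη : 0 < η) :
    ∃ s : ℕ, 3 ≤ s ∧ (1 / 2 : ℝ) ^ (s.choose 2) * (B ^ s * s.factorial) ≤ η := by
  have ht := tendsto_pow_const_mul_const_pow_of_abs_lt_one 1
    (r := (1 / 2 : ℝ)) (by rw [abs_of_pos] <;> norm_num)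
  have hev := ht.eventually (gt_mem_nhds (show (0 : ℝ) < min 1 η / (3 * B) by positivity))
  obtain ⟨j0, hj0⟩ := Filter.eventually_atTop.1 hev
  have hj := hj0 (max j0 1) (le_max_left _ _)
  have hj1 : 1 ≤ max j0 1 := le_max_right _ _
  generalize max j0 1 = j at hj hj1
  refine ⟨2 * j + 1, by omega, ?_⟩
  have hc : (2 * j + 1).choose 2 = j * (2 * j + 1) := by
    rw [Nat.choose_two_right]
    have : (2 * j + 1) * (2 * j + 1 - 1) = 2 * (j * (2 * j + 1)) := by
      simp only [Nat.add_sub_cancel]; ring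
    rw [this, Nat.mul_div_cancel_left _ two_pos]
  have hf : (((2 * j + 1).factorial : ℕ) : ℝ) ≤ ((2 * j + 1 : ℕ) : ℝ) ^ (2 * j + 1) := by
    exact_mod_cast Nat.factorial_le_pow _
  have hj1' : (1 : ℝ) ≤ j := by exact_mod_cast hj1
  set b : ℝ := (1 / 2) ^ j * (B * ((2 * j + 1 : ℕ) : ℝ)) with hb
  have hb0 : 0 ≤ b := by positivity
  have hb1 : b ≤ min 1 η := by
    rw [pow_one, lt_div_iff₀ (by positivity)] at hj
    refine le_trans ?_ hj.le
    rw [hb]
    push_cast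
    have : (0 : ℝ) ≤ (1 / 2) ^ j * B := by positivity
    nlinarith
  calc (1 / 2 : ℝ) ^ ((2 * j + 1).choose 2) * (B ^ (2 * j + 1) * (2 * j + 1).factorial)
      ≤ (1 / 2 : ℝ) ^ ((2 * j + 1).choose 2) * (B ^ (2 * j + 1) *
        ((2 * j + 1 : ℕ) : ℝ) ^ (2 * j + 1)) := by gcongr
    _ = b ^ (2 * j + 1) := by rw [hc, pow_mul, hb, mul_pow, mul_pow]
    _ ≤ b := pow_le_of_le_one hb0 (le_trans hb1 (min_le_left _ _)) (by omega)
    _ ≤ η := le_trans hb1 (min_le_right _ _)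

section

variable {V : Type*} [Fintype V] [DecidableEq V]

/-- squared change of the whole vector under one flip -/
noncomputable def dsq (u : V → (Sym2 V → Bool) → ℝ) (e : Sym2 V) (x : Sym2 V → Bool) : ℝ :=
  ∑ w, (u w x - u w (flip e x)) ^ 2

lemma dsq_nonneg (u : V → (Sym2 V → Bool) → ℝ) (e : Sym2 V) (x : Sym2 V → Bool) :
    0 ≤ dsq u e x := Finset.sum_nonneg fun _ _ => sq_nonneg _

lemma av_dsq (u : V → (Sym2 V → Bool) → ℝ) :
    av (fun x => ∑ e, dsq u e x) = ∑ v, energy (u v) := by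
  unfold dsq energy
  rw [av_sum, Finset.sum_comm]
  exact Finset.sum_congr rfl fun e _ => av_sum _ _

theorem key_aux (u : V → (Sym2 V → Bool) → ℝ) (Γ : (Sym2 V → Bool) → ℝ) (k s : ℕ) (hs : 3 ≤ s)
    (R l : ℝ) (hR : 0 < R) (hl : 0 < l) (hΓ0 : ∀ x, 0 ≤ Γ x) (hΓ1 : ∀ x, Γ x ≤ 1)
    (hΓ : ∀ x, 0 < Γ x → ∃ K : Finset V, k ≤ K.card ∧ IsCl x K ∧ ∀ v ∈ K, 1 ≤ u v x) :
    (av Γ - av (fun x => ∑ v, u v x ^ 2) / R) * k.choose s ≤
      ((1 / 2) ^ (s.choose 2) + 9 * l) * (16 * R) ^ s +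
      (16 * R) ^ (s - 2) * (4 / (R * l) * (∑ v, energy (u v)) + 4 / l *
        av (fun x => ∑ p ∈ (Finset.univ : Finset V).offDiag,
          if 1 / 2 < u p.1 x then (u p.2 x - u p.2 (flip s(p.1, p.2) x)) ^ 2 else 0)) +
      (16 * R) ^ (s - 3) * (36 / l * ∑ v, energy (u v)) := by
  set N : (Sym2 V → Bool) → ℝ := fun x => Real.sqrt (∑ v, u v x ^ 2) with hN
  set ρ : ℝ := Real.sqrt R with hρ
  have hρ0 : 0 < ρ := Real.sqrt_pos.2 hR
  have hρ2 : ρ ^ 2 = R := Real.sq_sqrt hR.le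
  have hS0 : ∀ x, 0 ≤ ∑ v, u v x ^ 2 := fun x => Finset.sum_nonneg fun _ _ => sq_nonneg _
  have hN2 : ∀ x, N x ^ 2 = ∑ v, u v x ^ 2 := fun x => Real.sq_sqrt (hS0 x)
  have hN0 : ∀ x, 0 ≤ N x := fun x => Real.sqrt_nonneg _
  set a : V → (Sym2 V → Bool) → ℝ := fun v x => clamp (2 - N x / ρ) * clamp (2 * u v x - 1)
    with ha
  have ha0 : ∀ v x, 0 ≤ a v x := fun v x => mul_nonneg (clamp_nonneg _) (clamp_nonneg _)
  have ha1 : ∀ v x, a v x ≤ 1 := fun v x =>
    mul_le_one₀ (clamp_le_one _) (clamp_nonneg _) (clamp_le_one _)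
  have hsupp : ∀ x, ∀ v ∈ supp a x, N x < 2 * ρ ∧ 1 / 2 < u v x := by
    intro x v hv
    have h1 : 0 < clamp (2 - N x / ρ) * clamp (2 * u v x - 1) := (Finset.mem_filter.1 hv).2
    have h2 := pos_of_clamp_pos (pos_of_mul_pos_left h1 (clamp_nonneg _))
    have h3 := pos_of_clamp_pos (pos_of_mul_pos_right h1 (clamp_nonneg _))
    refine ⟨?_, by linarith⟩
    rw [← div_lt_iff₀ hρ0]; linarith
  have hτ : ∀ x, ((supp a x).card : ℝ) ≤ 16 * R := by
    intro x
    rcases (supp a x).eq_empty_or_nonempty with h | ⟨v0, hv0⟩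
    · rw [h]; simp; positivity
    have h1 := (hsupp x v0 hv0).1
    have h2 : ((supp a x).card : ℝ) * (1 / 4) ≤ ∑ v, u v x ^ 2 := by
      calc ((supp a x).card : ℝ) * (1 / 4) = ∑ v ∈ supp a x, (1 / 4 : ℝ) := by simp
        _ ≤ ∑ v ∈ supp a x, u v x ^ 2 := Finset.sum_le_sum fun v hv => by
            have := (hsupp x v hv).2
            nlinarith
        _ ≤ ∑ v, u v x ^ 2 := Finset.sum_le_sum_of_subset_of_nonneg (Finset.subset_univ _)
            fun _ _ _ => sq_nonneg _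
    have h3 : N x ^ 2 ≤ (2 * ρ) ^ 2 := pow_le_pow_left₀ (hN0 x) h1.le 2
    rw [hN2, mul_pow, hρ2] at h3
    linarith
  set Γ' : (Sym2 V → Bool) → ℝ := fun x => if N x ≤ ρ then Γ x else 0 with hΓ'
  have hcount := count a ha0 ha1 (16 * R) hτ s k hs Γ'
    (fun x => by simp only [hΓ']; split_ifs; exacts [hΓ1 x, zero_le_one])
    (fun x hx => by
      simp only [hΓ'] at hx
      split_ifs at hx with hNx
      · obtain ⟨K, hK, hcl, hKu⟩ := hΓ x hx
        refine ⟨K, hK, hcl, fun v hv => ?_⟩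
        simp only [ha]
        rw [clamp_eq_one, clamp_eq_one, mul_one]
        · linarith [hKu v hv]
        · have : N x / ρ ≤ 1 := (div_le_one hρ0).2 hNx
          linarith
      · exact absurd hx (lt_irrefl _))
  have hΓΓ : av Γ - av (fun x => ∑ v, u v x ^ 2) / R ≤ av Γ' := by
    rw [← av_div, ← av_sub]
    refine av_mono fun x => ?_
    simp only [hΓ']
    split_ifs with hNx
    · have : 0 ≤ (∑ v, u v x ^ 2) / R := div_nonneg (hS0 x) hR.le
      linarith
    · push Not at hNx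
      have h3 : ρ ^ 2 ≤ N x ^ 2 := pow_le_pow_left₀ hρ0.le hNx.le 2
      rw [hN2, hρ2] at h3
      have : 1 ≤ (∑ v, u v x ^ 2) / R := (one_le_div hR).2 h3
      linarith [hΓ1 x]
  refine le_trans (mul_le_mul_of_nonneg_right hΓΓ (by positivity)) (le_trans hcount ?_)
  have hda : ∀ w e x, |a w x - a w (flip e x)| ≤
      3 * l + dsq u e x / (R * l) + 2 / l * (u w x - u w (flip e x)) ^ 2 := by
    intro w e x
    have h1 := abs_prod_sub_le ({true, false} : Finset Bool)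
      (fun b => if b then clamp (2 - N x / ρ) else clamp (2 * u w x - 1))
      (fun b => if b then clamp (2 - N (flip e x) / ρ) else clamp (2 * u w (flip e x) - 1))
      (fun b => by split_ifs <;> exact clamp_nonneg _) (fun b => by split_ifs <;> exact clamp_le_one _)
      (fun b => by split_ifs <;> exact clamp_nonneg _) (fun b => by split_ifs <;> exact clamp_le_one _)
    rw [Finset.prod_pair (by decide), Finset.prod_pair (by decide), Finset.sum_pair (by decide)] at h1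
    simp only [if_true, Bool.false_eq_true, if_false] at h1
    have h2 := clamp_lip (2 - N x / ρ) (2 - N (flip e x) / ρ)
    have h3 := clamp_lip (2 * u w x - 1) (2 * u w (flip e x) - 1)
    have h4 := abs_le_add_sq (2 - N x / ρ - (2 - N (flip e x) / ρ)) l hl
    have h5 := abs_le_add_sq (u w x - u w (flip e x)) l hl
    have h6 : |2 * u w x - 1 - (2 * u w (flip e x) - 1)| = 2 * |u w x - u w (flip e x)| := by
      rw [show 2 * u w x - 1 - (2 * u w (flip e x) - 1) = 2 * (u w x - u w (flip e x)) by ring,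
        abs_mul, abs_two]
    have h7 : (2 - N x / ρ - (2 - N (flip e x) / ρ)) ^ 2 / l ≤ dsq u e x / (R * l) := by
      have h8 : (N x - N (flip e x)) ^ 2 ≤ dsq u e x := sqrt_sub_sq_le _ _ _
      have h9 : (2 - N x / ρ - (2 - N (flip e x) / ρ)) ^ 2 / l =
          (N x - N (flip e x)) ^ 2 / (R * l) := by
        rw [← hρ2]; field_simp; ring
      rw [h9]
      exact div_le_div_of_nonneg_right h8 (by positivity)
    have h10 : 2 / l * (u w x - u w (flip e x)) ^ 2 = 2 * ((u w x - u w (flip e x)) ^ 2 / l) := by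
      ring
    simp only [ha]
    linarith
  have hoff : ∀ x, (((supp a x).offDiag.card : ℕ) : ℝ) ≤ (16 * R) ^ 2 := by
    intro x
    calc (((supp a x).offDiag.card : ℕ) : ℝ) ≤ ((supp a x).card : ℝ) ^ 2 := by
          rw [Finset.offDiag_card, sq]; exact_mod_cast Nat.sub_le _ _
      _ ≤ (16 * R) ^ 2 := pow_le_pow_left₀ (by positivity) (hτ x) 2
  have hpairs : ∀ x, ∑ p ∈ (supp a x).offDiag, dsq u s(p.1, p.2) x ≤ 2 * ∑ e, dsq u e x :=
    fun x => sum_pairs_le _ (fun e => dsq u e x) fun e => dsq_nonneg u e x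
  have hself : av (fun x => ∑ p ∈ (supp a x).offDiag, |a p.2 x - a p.2 (flip s(p.1, p.2) x)|) ≤
      3 * l * (16 * R) ^ 2 + 2 / (R * l) * (∑ v, energy (u v)) + 2 / l *
        av (fun x => ∑ p ∈ (Finset.univ : Finset V).offDiag,
          if 1 / 2 < u p.1 x then (u p.2 x - u p.2 (flip s(p.1, p.2) x)) ^ 2 else 0) := by
    rw [← av_dsq, ← av_const (Ω := Sym2 V → Bool) (3 * l * (16 * R) ^ 2), ← av_mul_left,
      ← av_mul_left, ← av_add, ← av_add]
    refine av_mono fun x => ?_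
    refine le_trans (Finset.sum_le_sum fun p _ => hda p.2 s(p.1, p.2) x) ?_
    rw [Finset.sum_add_distrib, Finset.sum_add_distrib, Finset.sum_const, nsmul_eq_mul,
      ← Finset.sum_div, ← Finset.mul_sum]
    have h1 : ∑ p ∈ (supp a x).offDiag, (u p.2 x - u p.2 (flip s(p.1, p.2) x)) ^ 2 ≤
        ∑ p ∈ (Finset.univ : Finset V).offDiag,
          if 1 / 2 < u p.1 x then (u p.2 x - u p.2 (flip s(p.1, p.2) x)) ^ 2 else 0 := by
      refine le_trans (le_of_eq (Finset.sum_congr rfl fun p hp => ?_))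
        (Finset.sum_le_sum_of_subset_of_nonneg (Finset.offDiag_mono (Finset.subset_univ (supp a x)))
          fun p _ _ => by split_ifs; exacts [sq_nonneg _, le_rfl])
      rw [if_pos (hsupp x p.1 (Finset.mem_offDiag.1 hp).1).2]
    have h2 := mul_le_mul_of_nonneg_right (hoff x) (show 0 ≤ 3 * l by positivity)
    have h3 := div_le_div_of_nonneg_right (hpairs x) (show 0 ≤ R * l by positivity)
    have h4 := mul_le_mul_of_nonneg_left h1 (show 0 ≤ 2 / l by positivity)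
    have h5 : (2 * ∑ e, dsq u e x) / (R * l) = 2 / (R * l) * ∑ e, dsq u e x := by ring
    linarith
  have hthird : av (fun x => ∑ p ∈ (supp a x).offDiag, ∑ w ∈ supp a x,
      |a w x - a w (flip s(p.1, p.2) x)|) ≤
      3 * l * (16 * R) ^ 3 + 36 / l * ∑ v, energy (u v) := by
    rw [← av_dsq, ← av_const (Ω := Sym2 V → Bool) (3 * l * (16 * R) ^ 3), ← av_mul_left, ← av_add]
    refine av_mono fun x => ?_
    have h1 : ∀ p ∈ (supp a x).offDiag, ∑ w ∈ supp a x, |a w x - a w (flip s(p.1, p.2) x)| ≤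
        3 * l * (16 * R) + 18 / l * dsq u s(p.1, p.2) x := by
      intro p _
      refine le_trans (Finset.sum_le_sum fun w _ => hda w s(p.1, p.2) x) ?_
      rw [Finset.sum_add_distrib, Finset.sum_const, nsmul_eq_mul, ← Finset.mul_sum]
      have h2 : ∑ w ∈ supp a x, (u w x - u w (flip s(p.1, p.2) x)) ^ 2 ≤ dsq u s(p.1, p.2) x :=
        Finset.sum_le_sum_of_subset_of_nonneg (Finset.subset_univ _) fun _ _ _ => sq_nonneg _
      have h3 := dsq_nonneg u s(p.1, p.2) x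
      have h4 := mul_le_mul_of_nonneg_right (hτ x)
        (show 0 ≤ 3 * l + dsq u s(p.1, p.2) x / (R * l) by positivity)
      have h5 := mul_le_mul_of_nonneg_left h2 (show 0 ≤ 2 / l by positivity)
      have h6 : 16 * R * (3 * l + dsq u s(p.1, p.2) x / (R * l)) =
          3 * l * (16 * R) + 16 / l * dsq u s(p.1, p.2) x := by field_simp
      have h7 : 18 / l * dsq u s(p.1, p.2) x =
          16 / l * dsq u s(p.1, p.2) x + 2 / l * dsq u s(p.1, p.2) x := by ring
      linarith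
    refine le_trans (Finset.sum_le_sum h1) ?_
    rw [Finset.sum_add_distrib, Finset.sum_const, nsmul_eq_mul, ← Finset.mul_sum]
    have h2 := mul_le_mul_of_nonneg_right (hoff x) (show 0 ≤ 3 * l * (16 * R) by positivity)
    have h3 := mul_le_mul_of_nonneg_left (hpairs x) (show 0 ≤ 18 / l by positivity)
    have h4 : 18 / l * (2 * ∑ e, dsq u e x) = 36 / l * ∑ e, dsq u e x := by ring
    nlinarith
  obtain ⟨t, rfl⟩ : ∃ t, s = t + 3 := ⟨s - 3, by omega⟩
  have e1 : t + 3 - 2 = t + 1 := by omega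
  have e2 : t + 3 - 3 = t := by omega
  rw [e1, e2]
  have h1 := mul_le_mul_of_nonneg_left hself (show 0 ≤ 2 * (16 * R) ^ (t + 1) by positivity)
  have h2 := mul_le_mul_of_nonneg_left hthird (show 0 ≤ (16 * R) ^ t by positivity)
  refine le_trans (add_le_add (add_le_add le_rfl h1) h2) (le_of_eq ?_)
  ring

end

theorem key (γ c : ℝ) (hγ : 0 < γ) (hc : 0 < c) : ∃ ε : ℝ, 0 < ε ∧ ∀ C : ℝ, 0 < C → ∃ k0 : ℕ,
    ∀ k ≥ k0, ∀ (V : Type) [Fintype V] [DecidableEq V] (u : V → (Sym2 V → Bool) → ℝ)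
      (Γ : (Sym2 V → Bool) → ℝ), (∀ x, 0 ≤ Γ x) → (∀ x, Γ x ≤ 1) →
      (∀ x, 0 < Γ x → ∃ K : Finset V, k ≤ K.card ∧ IsCl x K ∧ ∀ v ∈ K, 1 ≤ u v x) →
      av (fun x => ∑ v, u v x ^ 2) ≤ γ * k → ∑ v, energy (u v) ≤ C * k ^ 2 →
      av (fun x => ∑ p ∈ (Finset.univ : Finset V).offDiag,
          if 1 / 2 < u p.1 x then (u p.2 x - u p.2 (flip s(p.1, p.2) x)) ^ 2 else 0) ≤ ε * k ^ 2 →
      av Γ < c := by
  set M : ℝ := 2 * γ / c with hM
  have hM0 : 0 < M := by positivity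
  obtain ⟨s, hs3, hs⟩ := exists_s (32 * M) (c / 16) (by positivity) (by positivity)
  set Θ : ℝ := (32 * M) ^ s * s.factorial with hΘ
  have hΘ0 : 0 < Θ := by have := Nat.factorial_pos s; positivity
  set η : ℝ := c / 16 / Θ with hη
  have hη0 : 0 < η := by positivity
  have hs' : (1 / 2 : ℝ) ^ (s.choose 2) ≤ η := by rw [hη, le_div_iff₀ hΘ0]; exact hs
  set l : ℝ := η / 9 with hl
  have hl0 : 0 < l := by positivity
  refine ⟨η * l * (16 * M) ^ 2 / 4, by positivity, fun C hC => ?_⟩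
  set A : ℝ := 4 * C / (M * l * (16 * M) ^ 2) + 36 * C / (l * (16 * M) ^ 3) with hA
  obtain ⟨k1, hk1⟩ := exists_nat_gt (A / η)
  refine ⟨max k1 (2 * s), fun k hk V _ _ u Γ hΓ0 hΓ1 hΓ h1 h2 h3 => ?_⟩
  have hks : 2 * s ≤ k := le_trans (le_max_right _ _) hk
  have hk0 : (0 : ℝ) < k := by exact_mod_cast (show 0 < k by omega)
  have hkA : A / k ≤ η := by
    have : (k1 : ℝ) ≤ k := by exact_mod_cast le_trans (le_max_left _ _) hk
    rw [div_lt_iff₀ hη0] at hk1
    rw [div_le_iff₀ hk0]; nlinarith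
  have hmain := key_aux u Γ k s hs3 (M * k) l (by positivity) hl0 hΓ0 hΓ1 hΓ
  by_contra hcon
  push Not at hcon
  have h4 : av (fun x => ∑ v, u v x ^ 2) / (M * k) ≤ c / 2 := by
    rw [div_le_iff₀ (by positivity)]
    refine le_trans h1 (le_of_eq ?_)
    rw [hM]; field_simp
  have h5 : (16 * (M * k)) ^ s / Θ ≤ k.choose s := by
    refine le_trans ?_ (Nat.pow_le_choose s k)
    have hf : (0 : ℝ) < s.factorial := by exact_mod_cast Nat.factorial_pos s
    have h6 : (k : ℝ) / 2 ≤ ((k + 1 - s : ℕ) : ℝ) := by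
      rw [div_le_iff₀ (by norm_num)]
      exact_mod_cast (show k ≤ (k + 1 - s) * 2 by omega)
    have h7 : (16 * (M * k)) ^ s / Θ = ((k : ℝ) / 2) ^ s / s.factorial := by
      rw [hΘ, show 16 * (M * k) = (32 * M) * (k / 2) by ring, mul_pow]
      field_simp
    rw [h7]
    gcongr
  obtain ⟨t, rfl⟩ : ∃ t, s = t + 3 := ⟨s - 3, by omega⟩
  have e1 : t + 3 - 2 = t + 1 := by omega
  have e2 : t + 3 - 3 = t := by omega
  rw [e1, e2] at hmain
  set τ : ℝ := 16 * (M * k) with hτ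
  have hτ0 : 0 < τ := by positivity
  have h8 : c / 2 * (τ ^ (t + 3) / Θ) ≤ (av Γ - av (fun x => ∑ v, u v x ^ 2) / (M * k)) *
      k.choose (t + 3) := mul_le_mul (by linarith) h5 (by positivity) (by linarith)
  have h9 : ((1 / 2) ^ ((t + 3).choose 2) + 9 * l) * τ ^ (t + 3) ≤ 2 * η * τ ^ (t + 3) :=
    mul_le_mul_of_nonneg_right (by rw [hl]; linarith) (by positivity)
  have h10 := mul_le_mul_of_nonneg_left (add_le_add
    (mul_le_mul_of_nonneg_left h2 (show 0 ≤ 4 / (M * k * l) by positivity))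
    (mul_le_mul_of_nonneg_left h3 (show 0 ≤ 4 / l by positivity)))
    (show 0 ≤ τ ^ (t + 1) by positivity)
  have h11 := mul_le_mul_of_nonneg_left
    (mul_le_mul_of_nonneg_left h2 (show 0 ≤ 36 / l by positivity)) (show 0 ≤ τ ^ t by positivity)
  have h12 : τ ^ (t + 1) * (4 / (M * k * l) * (C * k ^ 2) + 4 / l * (η * l * (16 * M) ^ 2 / 4 * k ^ 2))
      + τ ^ t * (36 / l * (C * k ^ 2)) = (A / k + η) * τ ^ (t + 3) := by
    rw [pow_succ τ t, pow_add τ t 3, hA, hτ]
    field_simp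
    ring
  have h13 : (A / k + η) * τ ^ (t + 3) ≤ 2 * η * τ ^ (t + 3) :=
    mul_le_mul_of_nonneg_right (by linarith) (by positivity)
  have h14 : c / 2 * (τ ^ (t + 3) / Θ) = 8 * η * τ ^ (t + 3) := by
    rw [hη]; field_simp; ring
  have h15 : 0 < η * τ ^ (t + 3) := by positivity
  linarith

end Pool.Agent.P.MP_7ffab6_lc
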