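import Pool.Agent.P.MP_7ffab6_lc.Key

/-! Stable vector-valued functions of bounded norm do not find large cliques. -/

namespace Pool.Agent.P.MP_7ffab6_lc

open Finset

section Pw

variable {ι : Type*} [Fintype ι] [DecidableEq ι]

lemma av_pw (J : Finset ι) (Φ : (ι → Bool) → ℝ) :
    av (fun x : ι → Bool => av (fun y : ι → Bool => Φ (J.piecewise y x))) = av Φ := by
  let σ : (ι → Bool) × (ι → Bool) → (ι → Bool) × (ι → Bool) :=
    fun p => (J.piecewise p.2 p.1, J.piecewise p.1 p.2)
  have hσ : Function.Involutive σ := by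
    intro p
    ext e <;> by_cases he : e ∈ J <;> simp [σ, Finset.piecewise, he]
  have h1 := av_equiv hσ.toPerm (fun p => Φ p.1)
  rw [av_prod, av_prod] at h1
  simp only [av_const] at h1
  exact h1

omit [Fintype ι] in
lemma pw_flip_mem {J : Finset ι} {e : ι} (he : e ∈ J) (y x : ι → Bool) :
    J.piecewise (flip e y) x = flip e (J.piecewise y x) := by
  funext a
  by_cases hae : a = e
  · subst hae; simp [flip, Finset.piecewise, he]
  · simp [flip, Finset.piecewise, Function.update_of_ne hae]

omit [Fintype ι] in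
lemma pw_flip_notMem {J : Finset ι} {e : ι} (he : e ∉ J) (y x : ι → Bool) :
    J.piecewise (flip e y) x = J.piecewise y x := by
  funext a
  by_cases ha : a ∈ J
  · simp [Finset.piecewise, ha, flip_ne (ne_of_mem_of_not_mem ha he)]
  · simp [Finset.piecewise, ha]

omit [Fintype ι] in
lemma pw_flip_mem' {J : Finset ι} {e : ι} (he : e ∈ J) (y x : ι → Bool) :
    J.piecewise y (flip e x) = J.piecewise y x := by
  funext a
  by_cases ha : a ∈ J
  · simp [Finset.piecewise, ha]
  · simp [Finset.piecewise, ha, flip_ne (ne_of_mem_of_not_mem he ha).symm]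

omit [Fintype ι] in
lemma pw_flip_notMem' {J : Finset ι} {e : ι} (he : e ∉ J) (y x : ι → Bool) :
    J.piecewise y (flip e x) = flip e (J.piecewise y x) := by
  funext a
  by_cases hae : a = e
  · subst hae; simp [flip, Finset.piecewise, he]
  · simp [flip, Finset.piecewise, Function.update_of_ne hae]

omit [Fintype ι] in
lemma pw_pw (J : Finset ι) (y y' x : ι → Bool) :
    J.piecewise y (J.piecewise y' x) = J.piecewise y x := by
  funext a
  by_cases ha : a ∈ J <;> simp [Finset.piecewise, ha]

lemma sqrt_av_sub {Ω : Type*} [Fintype Ω] (F G : Ω → ℝ) :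
    (Real.sqrt (av fun x => F x ^ 2) - Real.sqrt (av fun x => G x ^ 2)) ^ 2 ≤
      av fun x => (F x - G x) ^ 2 := by
  have hf : 0 ≤ av fun x => F x ^ 2 := av_nonneg fun _ => sq_nonneg _
  have hg : 0 ≤ av fun x => G x ^ 2 := av_nonneg fun _ => sq_nonneg _
  have h1 : av (fun x => F x * G x) ≤
      Real.sqrt (av fun x => F x ^ 2) * Real.sqrt (av fun x => G x ^ 2) := by
    rw [← Real.sqrt_mul hf]
    exact Real.le_sqrt_of_sq_le (av_mul_sq_le F G)
  have h2 : (av fun x => (F x - G x) ^ 2) =
      (av fun x => F x ^ 2) + (av fun x => G x ^ 2) - 2 * av (fun x => F x * G x) := by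
    rw [← av_mul_left, ← av_add, ← av_sub]
    exact av_congr fun x => by ring
  rw [h2, sub_sq, Real.sq_sqrt hf, Real.sq_sqrt hg]
  linarith

/-- root mean square over the coordinates in `J` -/
noncomputable def rms (J : Finset ι) (g : (ι → Bool) → ℝ) (x : ι → Bool) : ℝ :=
  Real.sqrt (av fun y : ι → Bool => g (J.piecewise y x) ^ 2)

lemma rms_nonneg (J : Finset ι) (g : (ι → Bool) → ℝ) (x : ι → Bool) : 0 ≤ rms J g x :=
  Real.sqrt_nonneg _

lemma rms_sq (J : Finset ι) (g : (ι → Bool) → ℝ) (x : ι → Bool) :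
    rms J g x ^ 2 = av fun y : ι → Bool => g (J.piecewise y x) ^ 2 :=
  Real.sq_sqrt (av_nonneg fun _ => sq_nonneg _)

lemma av_rms_sq (J : Finset ι) (g : (ι → Bool) → ℝ) :
    av (fun x => rms J g x ^ 2) = av fun x => g x ^ 2 := by
  simp only [rms_sq]
  exact av_pw J (fun x => g x ^ 2)

lemma rms_flip_mem {J : Finset ι} {e : ι} (he : e ∈ J) (g : (ι → Bool) → ℝ) (x : ι → Bool) :
    rms J g (flip e x) = rms J g x := by
  simp only [rms, pw_flip_mem' he]

lemma rms_pw (J : Finset ι) (g : (ι → Bool) → ℝ) (y x : ι → Bool) :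
    rms J g (J.piecewise y x) = rms J g x := by
  simp only [rms, pw_pw]

lemma energy_rms (J : Finset ι) (g : (ι → Bool) → ℝ) : energy (rms J g) ≤ energy g := by
  refine Finset.sum_le_sum fun e _ => ?_
  rw [← av_pw J (fun x => (g x - g (flip e x)) ^ 2)]
  refine av_mono fun x => ?_
  by_cases he : e ∈ J
  · rw [rms_flip_mem he, sub_self]
    simpa using av_nonneg fun _ => sq_nonneg _
  · have := sqrt_av_sub (fun y : ι → Bool => g (J.piecewise y x))
      (fun y : ι → Bool => g (J.piecewise y (flip e x)))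
    simp only [pw_flip_notMem' he] at this ⊢
    simpa only [rms, pw_flip_notMem' he] using this

lemma av_energy_pw (J : Finset ι) (g : (ι → Bool) → ℝ) :
    av (fun x : ι → Bool => energy (fun y : ι → Bool => g (J.piecewise y x))) =
      ∑ e ∈ J, av fun x => (g x - g (flip e x)) ^ 2 := by
  unfold energy
  rw [av_sum, ← Finset.sum_subset (Finset.subset_univ J)]
  · refine Finset.sum_congr rfl fun e he => ?_
    simp only [pw_flip_mem he]
    exact av_pw J (fun x => (g x - g (flip e x)) ^ 2)
  · intro e _ he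
    simp only [pw_flip_notMem he, sub_self]
    simp [av]

lemma energy_le_of_sq_le (g h1 h2 : (ι → Bool) → ℝ) (A B : ℝ)
    (h : ∀ x y, (g x - g y) ^ 2 ≤ A * (h1 x - h1 y) ^ 2 + B * (h2 x - h2 y) ^ 2) :
    energy g ≤ A * energy h1 + B * energy h2 := by
  unfold energy
  rw [Finset.mul_sum, Finset.mul_sum, ← Finset.sum_add_distrib]
  refine Finset.sum_le_sum fun e _ => ?_
  rw [← av_mul_left, ← av_mul_left, ← av_add]
  exact av_mono fun x => h _ _

end Pw

/-- the edges at a vertex -/
def star {V : Type*} [Fintype V] [DecidableEq V] (v : V) : Finset (Sym2 V) :=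
  Finset.univ.filter fun e => v ∈ e

lemma sum_star_le {V : Type*} [Fintype V] [DecidableEq V] (φ : Sym2 V → ℝ) (hφ : ∀ e, 0 ≤ φ e) :
    ∑ v, ∑ e ∈ star v, φ e ≤ 2 * ∑ e, φ e := by
  simp only [star, Finset.sum_filter]
  rw [Finset.sum_comm, Finset.mul_sum]
  refine Finset.sum_le_sum fun e _ => ?_
  rw [← Finset.sum_filter, Finset.sum_const, nsmul_eq_mul]
  refine mul_le_mul_of_nonneg_right ?_ (hφ e)
  induction e using Sym2.ind with
  | h a b =>
    have : (Finset.univ.filter fun v : V => v ∈ s(a, b)) ⊆ {a, b} := by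
      intro v hv
      simpa using hv
    exact_mod_cast le_trans (Finset.card_le_card this) Finset.card_le_two

theorem weak_self (ε : ℝ) (hε : 0 < ε) : ∃ b : ℝ, 0 < b ∧ ∀ (V : Type) [Fintype V] [DecidableEq V]
    (f : V → (Sym2 V → Bool) → ℝ),
    av (fun x => ∑ p ∈ (Finset.univ : Finset V).offDiag,
      if 1 / 4 < f p.1 x ∧ rms (star p.1) (f p.1) x < 2 * b then
        (f p.2 x - f p.2 (flip s(p.1, p.2) x)) ^ 2 else 0) ≤ 2 * ε * ∑ v, energy (f v) := by
  obtain ⟨β, hβ, hss⟩ := small_set ε hε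
  refine ⟨Real.sqrt β / 8, by positivity, fun V _ _ f => ?_⟩
  set b := Real.sqrt β / 8 with hb
  have hb2 : 16 * (2 * b) ^ 2 = β := by
    rw [hb, show 16 * (2 * (Real.sqrt β / 8)) ^ 2 = Real.sqrt β ^ 2 by ring, Real.sq_sqrt hβ.le]
  have h1 : ∀ v z : V, av (fun x => if 1 / 4 < f v x ∧ rms (star v) (f v) x < 2 * b then
        (f z x - f z (flip s(v, z) x)) ^ 2 else 0) ≤
      ε * ∑ e ∈ star v, av fun x => (f z x - f z (flip e x)) ^ 2 := by
    intro v z
    have he : s(v, z) ∈ star v := by simp [star]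
    rw [← av_pw (star v), ← av_energy_pw, ← av_mul_left]
    refine av_mono fun x => ?_
    simp only [rms_pw]
    by_cases hx : rms (star v) (f v) x < 2 * b
    · have := hss (Sym2 V) (fun y => f z ((star v).piecewise y x))
        (fun y => if 1 / 4 < f v ((star v).piecewise y x) then 1 else 0) s(v, z)
        (fun y => by split_ifs <;> norm_num) (fun y => by split_ifs <;> norm_num)
        (by
          have h2 : rms (star v) (f v) x ^ 2 ≤ (2 * b) ^ 2 :=
            pow_le_pow_left₀ (rms_nonneg _ _ _) hx.le 2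
          rw [rms_sq] at h2
          refine le_trans (av_mono (G := fun y => 16 * f v ((star v).piecewise y x) ^ 2)
            fun y => ?_) ?_
          · split_ifs with h3
            · nlinarith
            · positivity
          · rw [av_mul_left]; linarith)
      refine le_trans (le_of_eq (av_congr fun y => ?_)) this
      simp only [hx, and_true, pw_flip_mem he]
      split_ifs <;> simp
    · simp only [hx, and_false, if_false, av_zero]
      exact mul_nonneg hε.le (energy_nonneg _)
  rw [av_sum]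
  calc ∑ p ∈ (Finset.univ : Finset V).offDiag, av (fun x =>
        if 1 / 4 < f p.1 x ∧ rms (star p.1) (f p.1) x < 2 * b then
        (f p.2 x - f p.2 (flip s(p.1, p.2) x)) ^ 2 else 0)
      ≤ ∑ p ∈ (Finset.univ : Finset V).offDiag,
          ε * ∑ e ∈ star p.1, av fun x => (f p.2 x - f p.2 (flip e x)) ^ 2 :=
        Finset.sum_le_sum fun p _ => h1 p.1 p.2
    _ ≤ ∑ p : V × V, ε * ∑ e ∈ star p.1, av fun x => (f p.2 x - f p.2 (flip e x)) ^ 2 :=
        Finset.sum_le_sum_of_subset_of_nonneg (Finset.subset_univ _) fun p _ _ =>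
          mul_nonneg hε.le (Finset.sum_nonneg fun _ _ => av_nonneg fun _ => sq_nonneg _)
    _ = ε * ∑ z, ∑ v, ∑ e ∈ star v, av fun x => (f z x - f z (flip e x)) ^ 2 := by
        rw [← Finset.mul_sum, Fintype.sum_prod_type_right]
    _ ≤ ε * ∑ z, 2 * energy (f z) := by
        refine mul_le_mul_of_nonneg_left (Finset.sum_le_sum fun z _ => ?_) hε.le
        exact sum_star_le _ fun e => av_nonneg fun _ => sq_nonneg _
    _ = 2 * ε * ∑ v, energy (f v) := by rw [← Finset.mul_sum]; ring

lemma cut_sq (s t s' t' : ℝ) :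
    (max 0 (min s t) - max 0 (min s' t')) ^ 2 ≤ (s - s') ^ 2 + (t - t') ^ 2 := by
  have h1 : |max 0 (min s t) - max 0 (min s' t')| ≤ max |s - s'| |t - t'| := by
    refine le_trans (abs_max_sub_max_le_max _ _ _ _) ?_
    simp only [sub_self, abs_zero]
    exact max_le (le_trans (abs_nonneg _) (le_max_left _ _)) (abs_min_sub_min_le_max _ _ _ _)
  rw [← sq_abs, ← sq_abs (s - s'), ← sq_abs (t - t')]
  refine le_trans (pow_le_pow_left₀ (abs_nonneg _) h1 2) ?_
  rcases max_cases |s - s'| |t - t'| with h | h <;> rw [h.1]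
  · linarith [sq_nonneg |t - t'|]
  · linarith [sq_nonneg |s - s'|]

theorem main_stable (γ C c : ℝ) (hγ : 0 < γ) (hC : 0 < C) (hc : 0 < c) : ∃ k0 : ℕ, ∀ k ≥ k0,
    ∀ (V : Type) [Fintype V] [DecidableEq V] (f : V → (Sym2 V → Bool) → ℝ)
      (Γ : (Sym2 V → Bool) → ℝ), (∀ x, 0 ≤ Γ x) → (∀ x, Γ x ≤ 1) →
      (∀ x, 0 < Γ x → ∃ K : Finset V, 2 * k ≤ K.card ∧ IsCl x K ∧ ∀ v ∈ K, 1 / 2 ≤ f v x) →
      av (fun x => ∑ v, f v x ^ 2) ≤ γ * k → ∑ v, energy (f v) ≤ C * k ^ 2 → av Γ < c := by
  classical
  obtain ⟨ε, hε, hw⟩ := key (4 * γ) (c / 2) (by positivity) (by positivity)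
  obtain ⟨b, hb, hself⟩ := weak_self (ε / (8 * C)) (by positivity)
  obtain ⟨k1, hk1⟩ := hw ((4 + 1 / b ^ 2) * C) (by positivity)
  obtain ⟨ε', hε', hs⟩ := key (γ / b ^ 2) (c / 2) (by positivity) (by positivity)
  obtain ⟨k2, hk2⟩ := hs (C / b ^ 2) (by positivity)
  refine ⟨max k1 k2, fun k hk V _ _ f Γ hΓ0 hΓ1 hΓ h1 h2 => ?_⟩
  set ψ : V → (Sym2 V → Bool) → ℝ := fun v => rms (star v) (f v) with hψ
  set Γs : (Sym2 V → Bool) → ℝ := fun x =>
    if ∃ K : Finset V, k ≤ K.card ∧ IsCl x K ∧ ∀ v ∈ K, b ≤ ψ v x then Γ x else 0 with hΓs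
  set Γw : (Sym2 V → Bool) → ℝ := fun x =>
    if ∃ K : Finset V, k ≤ K.card ∧ IsCl x K ∧ ∀ v ∈ K, b ≤ ψ v x then 0 else Γ x with hΓw
  have hsum : av Γ = av Γs + av Γw := by
    rw [← av_add]
    refine av_congr fun x => ?_
    simp only [hΓs, hΓw]
    split_ifs <;> simp
  have hψE : ∑ v, energy (ψ v) ≤ C * k ^ 2 :=
    le_trans (Finset.sum_le_sum fun v _ => energy_rms _ _) h2
  have hstrong : av Γs < c / 2 := by
    refine hk2 k (le_trans (le_max_right _ _) hk) V (fun v x => ψ v x / b) Γs
      (fun x => by simp only [hΓs]; split_ifs; exacts [hΓ0 x, le_rfl])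
      (fun x => by simp only [hΓs]; split_ifs; exacts [hΓ1 x, zero_le_one])
      (fun x hx => ?_) ?_ ?_ ?_
    · simp only [hΓs] at hx
      split_ifs at hx with h
      · obtain ⟨K, hK, hcl, hKb⟩ := h
        exact ⟨K, hK, hcl, fun v hv => (one_le_div hb).2 (hKb v hv)⟩
      · exact absurd hx (lt_irrefl _)
    · have : av (fun x => ∑ v, (ψ v x / b) ^ 2) = av (fun x => ∑ v, f v x ^ 2) / b ^ 2 := by
        simp only [div_pow, ← Finset.sum_div]
        rw [av_div, av_sum, av_sum]
        simp only [hψ, av_rms_sq]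
      rw [this, div_mul_eq_mul_div]
      exact div_le_div_of_nonneg_right h1 (by positivity)
    · have : ∀ v, energy (fun x => ψ v x / b) ≤ (1 / b ^ 2) * energy (ψ v) + 0 * energy (ψ v) :=
        fun v => energy_le_of_sq_le _ _ _ _ _ fun x y => le_of_eq (by field_simp; ring)
      refine le_trans (Finset.sum_le_sum fun v _ => this v) ?_
      simp only [zero_mul, add_zero, ← Finset.mul_sum]
      refine le_trans (mul_le_mul_of_nonneg_left hψE (by positivity)) (le_of_eq ?_)
      ring
    · have : ∀ (x : Sym2 V → Bool) (p : V × V), ψ p.2 (flip s(p.1, p.2) x) = ψ p.2 x :=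
        fun x p => rms_flip_mem (by simp [star]) _ _
      simp only [this, sub_self]
      simp [av]
      positivity
  have hweak : av Γw < c / 2 := by
    refine hk1 k (le_trans (le_max_left _ _) hk) V
      (fun v x => max 0 (min (2 * f v x) (2 - ψ v x / b))) Γw
      (fun x => by simp only [hΓw]; split_ifs; exacts [le_rfl, hΓ0 x])
      (fun x => by simp only [hΓw]; split_ifs; exacts [zero_le_one, hΓ1 x])
      (fun x hx => ?_) ?_ ?_ ?_
    · simp only [hΓw] at hx
      split_ifs at hx with h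
      · exact absurd hx (lt_irrefl _)
      · obtain ⟨K, hK, hcl, hKf⟩ := hΓ x hx
        have hsub : ∀ (q : V → Prop) [DecidablePred q], IsCl x (K.filter q) :=
          fun q _ v hv z hz hvz =>
            hcl v (Finset.mem_filter.1 hv).1 z (Finset.mem_filter.1 hz).1 hvz
        have h3 : (K.filter fun v => b ≤ ψ v x).card < k := by
          by_contra h4
          push Not at h4
          exact h ⟨_, h4, hsub _, fun v hv => (Finset.mem_filter.1 hv).2⟩
        have h4 := Finset.card_filter_add_card_filter_not (s := K) (fun v => b ≤ ψ v x)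
        refine ⟨K.filter fun v => ¬ b ≤ ψ v x, by omega, hsub _, fun v hv => ?_⟩
        obtain ⟨hvK, hvb⟩ := Finset.mem_filter.1 hv
        push Not at hvb
        have h5 : ψ v x / b ≤ 1 := (div_le_one hb).2 hvb.le
        have h6 := hKf v hvK
        exact le_max_of_le_right (le_min (by linarith) (by linarith))
    · refine le_trans (av_mono (G := fun x => 4 * ∑ v, f v x ^ 2) fun x => ?_) ?_
      · rw [Finset.mul_sum]
        refine Finset.sum_le_sum fun v _ => ?_
        rcases max_cases 0 (min (2 * f v x) (2 - ψ v x / b)) with h | h <;> rw [h.1]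
        · nlinarith [sq_nonneg (f v x)]
        · have := min_le_left (2 * f v x) (2 - ψ v x / b)
          nlinarith [h.2]
      · rw [av_mul_left]; linarith
    · have : ∀ v, energy (fun x => max 0 (min (2 * f v x) (2 - ψ v x / b))) ≤
          4 * energy (f v) + (1 / b ^ 2) * energy (ψ v) :=
        fun v => energy_le_of_sq_le _ _ _ _ _ fun x y =>
          le_trans (cut_sq _ _ _ _) (le_of_eq (by field_simp; ring))
      refine le_trans (Finset.sum_le_sum fun v _ => this v) ?_
      rw [Finset.sum_add_distrib, ← Finset.mul_sum, ← Finset.mul_sum]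
      have h3 := mul_le_mul_of_nonneg_left hψE (show 0 ≤ 1 / b ^ 2 by positivity)
      nlinarith
    · have h3 := hself V f
      have h4 : 4 * (2 * (ε / (8 * C)) * ∑ v, energy (f v)) ≤ ε * k ^ 2 := by
        have h5 := mul_le_mul_of_nonneg_left h2 (show 0 ≤ ε / C by positivity)
        have h6 : ε / C * (C * k ^ 2) = ε * k ^ 2 := by field_simp
        have h7 : 4 * (2 * (ε / (8 * C)) * ∑ v, energy (f v)) = ε / C * ∑ v, energy (f v) := by
          field_simp; ring
        linarith
      refine le_trans ?_ (le_trans (mul_le_mul_of_nonneg_left h3 (by norm_num)) h4)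
      rw [← av_mul_left]
      refine av_mono fun x => ?_
      rw [Finset.mul_sum]
      refine Finset.sum_le_sum fun p _ => ?_
      have h5 : ψ p.2 (flip s(p.1, p.2) x) = ψ p.2 x := rms_flip_mem (by simp [star]) _ _
      by_cases h6 : 1 / 2 < max 0 (min (2 * f p.1 x) (2 - ψ p.1 x / b))
      · rw [if_pos h6, if_pos]
        · refine le_trans (cut_sq _ _ _ _) (le_of_eq ?_)
          rw [h5]; ring
        · have h7 : 1 / 2 < min (2 * f p.1 x) (2 - ψ p.1 x / b) := by
            rcases lt_max_iff.1 h6 with h | h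
            · linarith
            · exact h
          obtain ⟨h8, h9⟩ := lt_min_iff.1 h7
          refine ⟨by linarith, ?_⟩
          have : ψ p.1 x / b < 2 := by linarith
          rwa [div_lt_iff₀ hb] at this
      · rw [if_neg h6]
        split_ifs
        · positivity
        · simp
  linarith

end Pool.Agent.P.MP_7ffab6_lc
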