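import Pool.Agent.P.MP_7ffab6_lc.Final

/-! Mixed differences over vertex sets and a counting lemma for families reached move by move. -/

namespace Pool.Agent.P.MP_7ffab6_lc.Opt

open Finset

variable {V : Type*} [DecidableEq V]

/-- mixed difference of a set function over the subsets of `Q` -/
def md (g : Finset V → ℝ) (Q : Finset V) : ℝ :=
  ∑ P ∈ Q.powerset, (-1) ^ (Q.card + P.card) * g P

lemma md_insert (g : Finset V → ℝ) {v : V} {Q : Finset V} (hv : v ∉ Q) :
    md g (insert v Q) = md (fun P => g (insert v P) - g P) Q := by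
  unfold md
  rw [Finset.sum_powerset_insert hv, ← Finset.sum_add_distrib]
  refine Finset.sum_congr rfl fun P hP => ?_
  have hvP : v ∉ P := fun h => hv (Finset.mem_powerset.1 hP h)
  rw [Finset.card_insert_of_notMem hv, Finset.card_insert_of_notMem hvP]
  ring

lemma mobius (T : Finset V) : ∀ g : Finset V → ℝ, g T = ∑ Q ∈ T.powerset, md g Q := by
  induction T using Finset.induction_on with
  | empty => intro g; simp [md]
  | insert v T hv ih =>
    intro g
    rw [Finset.sum_powerset_insert hv, ← ih g]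
    have : ∑ Q ∈ T.powerset, md g (insert v Q) =
        ∑ Q ∈ T.powerset, md (fun P => g (insert v P) - g P) Q :=
      Finset.sum_congr rfl fun Q hQ => md_insert g fun h => hv (Finset.mem_powerset.1 hQ h)
    rw [this, ← ih fun P => g (insert v P) - g P]
    ring

lemma md_eq_zero (g : Finset V → ℝ) {v : V} {Q : Finset V} (hv : v ∈ Q)
    (h : ∀ P, g (insert v P) = g P) : md g Q = 0 := by
  rw [← Finset.insert_erase hv, md_insert g (Finset.notMem_erase v Q)]
  simp [md, h]

omit [DecidableEq V] in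
lemma md_congr {g g' : Finset V → ℝ} {Q : Finset V} (h : ∀ P ⊆ Q, g P = g' P) :
    md g Q = md g' Q :=
  Finset.sum_congr rfl fun P hP => by rw [h P (Finset.mem_powerset.1 hP)]

omit [DecidableEq V] in
lemma abs_md_le (g : Finset V → ℝ) (Q : Finset V) (c : ℝ) (h : ∀ P, |g P| ≤ c) :
    |md g Q| ≤ 2 ^ Q.card * c := by
  refine le_trans (Finset.abs_sum_le_sum_abs _ _) ?_
  refine le_trans (Finset.sum_le_card_nsmul _ _ c fun P _ => ?_) ?_
  · rw [abs_mul, abs_pow, abs_neg, abs_one, one_pow, one_mul]; exact h P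
  · rw [Finset.card_powerset, nsmul_eq_mul]; push_cast; exact le_rfl

omit [DecidableEq V] in
lemma md_sum {α : Type*} (s : Finset α) (a : α → ℝ) (g : α → Finset V → ℝ) (Q : Finset V) :
    md (fun P => ∑ S ∈ s, a S * g S P) Q = ∑ S ∈ s, a S * md (g S) Q := by
  unfold md
  simp only [Finset.mul_sum]
  rw [Finset.sum_comm]
  exact Finset.sum_congr rfl fun S _ => Finset.sum_congr rfl fun P _ => by ring

omit [DecidableEq V] in
lemma md_mul_right (g : Finset V → ℝ) (c : ℝ) (Q : Finset V) :
    md (fun P => g P * c) Q = md g Q * c := by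
  unfold md
  rw [Finset.sum_mul]
  exact Finset.sum_congr rfl fun P _ => by ring

lemma sum_pow_card (T : Finset V) (β : ℝ) : ∑ Q ∈ T.powerset, β ^ Q.card = (1 + β) ^ T.card := by
  have := Finset.prod_one_add (f := fun _ : V => β) T
  simp only [Finset.prod_const] at this
  exact this.symm

lemma sq_le_md (g : Finset V → ℝ) (T : Finset V) (β : ℝ) (hβ : 0 < β) :
    g T ^ 2 ≤ (1 + β) ^ T.card * ∑ Q ∈ T.powerset, md g Q ^ 2 / β ^ Q.card := by
  rw [mobius T g, ← sum_pow_card]
  refine Finset.sum_sq_le_sum_mul_sum_of_sq_eq_mul _ (fun _ _ => by positivity)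
    (fun _ _ => by positivity) fun Q _ => ?_
  field_simp

/-- a family of `k`-sets each of which attracts a `θ`-weighted unit flow from each of its proper
subsets has at most `θ ^ k` members -/
lemma count_moves {ι : Type*} [Fintype ι] (k : ℕ) (θ L : ℝ) (hθ : 0 ≤ θ) (hL : 0 < L)
    (a : Finset V → ι → ℝ) (ha : ∀ S m, 0 ≤ a S m) (nx : Finset V → ι → Finset V)
    (𝒯 : Finset (Finset V)) (hk : ∀ T ∈ 𝒯, T.card = k)
    (hup : ∀ T ∈ 𝒯, ∀ S ⊂ T, ∑ m, a S m ≤ L)
    (hlo : ∀ T ∈ 𝒯, ∀ S ⊂ T, L ≤ ∑ m, if S ⊂ nx S m ∧ nx S m ⊆ T then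
      a S m * θ ^ ((nx S m).card - S.card) else 0) :
    ∀ (j : ℕ) (S : Finset V), k - S.card ≤ j →
      ((𝒯.filter fun T => S ⊆ T).card : ℝ) ≤ θ ^ (k - S.card) := by
  have base : ∀ S : Finset V, k ≤ S.card →
      ((𝒯.filter fun T => S ⊆ T).card : ℝ) ≤ θ ^ (k - S.card) := by
    intro S hS
    rw [Nat.sub_eq_zero_of_le hS, pow_zero]
    have : (𝒯.filter fun T => S ⊆ T) ⊆ {S} := by
      intro T hT
      obtain ⟨h1, h2⟩ := Finset.mem_filter.1 hT
      rw [Finset.mem_singleton]
      exact (Finset.eq_of_subset_of_card_le h2 (by rw [hk T h1]; exact hS)).symm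
    exact_mod_cast le_trans (Finset.card_le_card this) (by simp)
  intro j
  induction j with
  | zero => intro S hS; exact base S (by omega)
  | succ j ih =>
    intro S hS
    by_cases hSk : k ≤ S.card
    · exact base S hSk
    push Not at hSk
    by_cases hne : (𝒯.filter fun T => S ⊆ T) = ∅
    · rw [hne]; simp only [Finset.card_empty, Nat.cast_zero]; positivity
    have hss : ∀ T ∈ 𝒯.filter fun T => S ⊆ T, S ⊂ T := by
      intro T hT
      obtain ⟨h1, h2⟩ := Finset.mem_filter.1 hT
      refine Finset.ssubset_iff_subset_ne.2 ⟨h2, fun h => ?_⟩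
      have := hk T h1
      rw [← h] at this
      omega
    obtain ⟨T0, hT0⟩ := Finset.nonempty_iff_ne_empty.2 hne
    have hup0 := hup T0 (Finset.mem_filter.1 hT0).1 S (hss T0 hT0)
    have h1 : ((𝒯.filter fun T => S ⊆ T).card : ℝ) * L ≤
        ∑ T ∈ 𝒯.filter fun T => S ⊆ T, ∑ m, if S ⊂ nx S m ∧ nx S m ⊆ T then
          a S m * θ ^ ((nx S m).card - S.card) else 0 := by
      rw [← nsmul_eq_mul]
      exact Finset.card_nsmul_le_sum _ _ _ fun T hT =>
        hlo T (Finset.mem_filter.1 hT).1 S (hss T hT)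
    rw [Finset.sum_comm] at h1
    have h2 : ∀ m, (∑ T ∈ 𝒯.filter fun T => S ⊆ T, if S ⊂ nx S m ∧ nx S m ⊆ T then
          a S m * θ ^ ((nx S m).card - S.card) else 0) ≤ a S m * θ ^ (k - S.card) := by
      intro m
      have ham := ha S m
      by_cases hm : S ⊂ nx S m
      · have hc := Finset.card_lt_card hm
        by_cases hmk : (nx S m).card ≤ k
        · have h3 := ih (nx S m) (by omega)
          simp only [hm, true_and]
          rw [← Finset.sum_filter, Finset.sum_const, nsmul_eq_mul]
          have h4 : (((𝒯.filter fun T => S ⊆ T).filter fun T => nx S m ⊆ T).card : ℝ) ≤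
              θ ^ (k - (nx S m).card) := by
            refine le_trans ?_ h3
            exact_mod_cast Finset.card_le_card fun T hT => Finset.mem_filter.2
              ⟨(Finset.mem_filter.1 (Finset.mem_filter.1 hT).1).1, (Finset.mem_filter.1 hT).2⟩
          calc _ ≤ θ ^ (k - (nx S m).card) * (a S m * θ ^ ((nx S m).card - S.card)) :=
                mul_le_mul_of_nonneg_right h4 (by positivity)
            _ = a S m * θ ^ (k - S.card) := by
                rw [show k - S.card = (k - (nx S m).card) + ((nx S m).card - S.card) by omega,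
                  pow_add]
                ring
        · refine le_trans (le_of_eq (Finset.sum_eq_zero fun T hT => if_neg fun h => ?_))
            (by positivity)
          have := Finset.card_le_card h.2
          rw [hk T (Finset.mem_filter.1 hT).1] at this
          exact hmk this
      · simp only [hm, false_and, if_false, Finset.sum_const_zero]
        positivity
    have h5 := le_trans h1 (Finset.sum_le_sum fun m _ => h2 m)
    rw [← Finset.sum_mul] at h5
    have h6 := mul_le_mul_of_nonneg_right hup0 (show 0 ≤ θ ^ (k - S.card) by positivity)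
    exact le_of_mul_le_mul_right (by linarith) hL

/-- the pairs of distinct vertices of `Q` -/
def EE (Q : Finset V) : Finset (Sym2 V) := Q.offDiag.image Sym2.mk.uncurry

lemma mem_EE {Q : Finset V} {e : Sym2 V} : e ∈ EE Q ↔ (∀ v ∈ e, v ∈ Q) ∧ ¬ e.IsDiag := by
  induction e using Sym2.ind with
  | h a b =>
    constructor
    · intro h
      obtain ⟨p, hp, hpe⟩ := Finset.mem_image.1 h
      obtain ⟨h1, h2, h3⟩ := Finset.mem_offDiag.1 hp
      rw [← hpe]
      refine ⟨fun v hv => ?_, ?_⟩
      · rcases Sym2.mem_iff.1 hv with h | h <;> rw [h] <;> assumption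
      · simpa [Function.uncurry] using h3
    · rintro ⟨h1, h2⟩
      exact Finset.mem_image.2 ⟨(a, b), Finset.mem_offDiag.2
        ⟨h1 a (by simp), h1 b (by simp), by simpa using h2⟩, rfl⟩

lemma card_EE (Q : Finset V) : (EE Q).card = Q.card.choose 2 := Sym2.card_image_offDiag Q

lemma EE_mono {P Q : Finset V} (h : P ⊆ Q) : EE P ⊆ EE Q := fun _ he =>
  mem_EE.2 ⟨fun v hv => h ((mem_EE.1 he).1 v hv), (mem_EE.1 he).2⟩

lemma mem_EE_insert {P : Finset V} {v : V} {e : Sym2 V} (hv : v ∉ e) :
    e ∈ EE (insert v P) ↔ e ∈ EE P := by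
  simp only [mem_EE, Finset.mem_insert]
  refine and_congr_left fun _ => forall₂_congr fun w hw => ?_
  exact or_iff_right fun h => hv (h ▸ hw)

lemma mem_EE_inter {P Q : Finset V} {e : Sym2 V} : e ∈ EE (P ∩ Q) ↔ e ∈ EE P ∧ e ∈ EE Q := by
  simp only [mem_EE, Finset.mem_inter]
  exact ⟨fun h => ⟨⟨fun v hv => (h.1 v hv).1, h.2⟩, fun v hv => (h.1 v hv).2, h.2⟩,
    fun h => ⟨fun v hv => ⟨h.1.1 v hv, h.2.1 v hv⟩, h.1.2⟩⟩

end Pool.Agent.P.MP_7ffab6_lc.Opt
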