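import Pool.Agent.P.MP_7ffab6_lc.Opt1

/-! A Schur test on the cube and the weights used with it. -/

namespace Pool.Agent.P.MP_7ffab6_lc.Opt

open Finset

section Schur

variable {ι : Type*} [Fintype ι] [DecidableEq ι]

lemma schur (J : Finset ι) (lam : Finset ι → ℝ) (hlam : ∀ R, 0 < lam R) (b : Finset ι → ℝ) :
    av (fun y : ι → Bool => (∑ S, b S * chi (S \ J) y) ^ 2) ≤
      (∑ R ∈ J.powerset, lam R) * ∑ S, b S ^ 2 / lam (S ∩ J) := by
  have h0 : ∀ y : ι → Bool, (∑ S, b S * chi (S \ J) y) ^ 2 =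
      ∑ S, ∑ T, (b S * b T) * (chi (S \ J) y * chi (T \ J) y) := by
    intro y
    rw [sq, Finset.sum_mul_sum]
    exact Finset.sum_congr rfl fun S _ => Finset.sum_congr rfl fun T _ => by ring
  simp only [h0, av_sum, av_mul_left, chi_orth]
  set c : Finset ι → Finset ι → ℝ := fun S T =>
    if S \ J = T \ J then b S ^ 2 / lam (S ∩ J) * lam (T ∩ J) else 0 with hc
  have h1 : ∀ S T, b S * b T * (if S \ J = T \ J then (1 : ℝ) else 0) ≤ (c S T + c T S) / 2 := by
    intro S T
    simp only [hc]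
    by_cases h : S \ J = T \ J
    · rw [if_pos h, if_pos h, if_pos h.symm, mul_one]
      have hp := hlam (S ∩ J)
      have hq := hlam (T ∩ J)
      set p := lam (S ∩ J)
      set q := lam (T ∩ J)
      have : (b S ^ 2 / p * q + b T ^ 2 / q * p) / 2 - b S * b T =
          (b S * q - b T * p) ^ 2 / (2 * p * q) := by field_simp; ring
      have h2 : 0 ≤ (b S * q - b T * p) ^ 2 / (2 * p * q) := by positivity
      linarith
    · rw [if_neg h, if_neg h, if_neg (Ne.symm h)]; simp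
  have h2 : ∀ S, ∑ T, c S T ≤ (∑ R ∈ J.powerset, lam R) * (b S ^ 2 / lam (S ∩ J)) := by
    intro S
    simp only [hc]
    rw [← Finset.sum_filter, ← Finset.mul_sum, mul_comm]
    refine mul_le_mul_of_nonneg_right ?_ (div_nonneg (sq_nonneg _) (hlam _).le)
    rw [← Finset.sum_image (s := Finset.univ.filter fun T => S \ J = T \ J) (g := fun T => T ∩ J)
      (f := lam)]
    · refine Finset.sum_le_sum_of_subset_of_nonneg (fun R hR => ?_) fun R _ _ => (hlam R).le
      obtain ⟨T, -, rfl⟩ := Finset.mem_image.1 hR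
      exact Finset.mem_powerset.2 Finset.inter_subset_right
    · intro T hT T' hT' h
      have e1 := (Finset.mem_filter.1 (Finset.mem_coe.1 hT)).2
      have e2 := (Finset.mem_filter.1 (Finset.mem_coe.1 hT')).2
      rw [← Finset.sdiff_union_inter T J, ← Finset.sdiff_union_inter T' J, ← e1, ← e2]
      exact congrArg _ h
  calc _ ≤ ∑ S, ∑ T, (c S T + c T S) / 2 :=
        Finset.sum_le_sum fun S _ => Finset.sum_le_sum fun T _ => h1 S T
    _ = ∑ S, ∑ T, c S T := by
        simp only [← Finset.sum_div, Finset.sum_add_distrib]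
        rw [Finset.sum_comm (f := fun S T => c T S)]
        ring
    _ ≤ _ := by rw [Finset.mul_sum]; exact Finset.sum_le_sum fun S _ => h2 S

lemma av_all (W : Finset ι) :
    av (fun y : ι → Bool => if ∀ e ∈ W, y e = true then (1 : ℝ) else 0) ≤ (1 / 2) ^ W.card := by
  have := pattern (fun _ => (1 : ℝ)) W
  simpa [av_const, av_zero] using this

lemma master (J W : Finset ι) (hW : W ⊆ J) (lam : Finset ι → ℝ) (hlam : ∀ R, 0 < lam R)
    (c M : Finset ι → ℝ) (m : Finset ι → (ι → Bool) → ℝ)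
    (hm : ∀ S y x, m S (J.piecewise y x) = m S y) (hM : ∀ S y, m S y ^ 2 ≤ M S) :
    av (fun x : ι → Bool => if ∀ e ∈ W, x e = true then
        (∑ S, c S * m S x * chi (S \ J) x) ^ 2 else 0) ≤
      (1 / 2) ^ W.card * ((∑ R ∈ J.powerset, lam R) * ∑ S, c S ^ 2 * M S / lam (S ∩ J)) := by
  rw [← av_pw J, av_comm]
  set Y := (∑ R ∈ J.powerset, lam R) * ∑ S, c S ^ 2 * M S / lam (S ∩ J) with hY
  have hZ : 0 ≤ ∑ R ∈ J.powerset, lam R := Finset.sum_nonneg fun R _ => (hlam R).le
  have hY0 : 0 ≤ Y := mul_nonneg hZ (Finset.sum_nonneg fun S _ => div_nonneg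
    (mul_nonneg (sq_nonneg _) (le_trans (sq_nonneg _) (hM S fun _ => true))) (hlam _).le)
  refine le_trans (av_mono (G := fun y => (if ∀ e ∈ W, y e = true then (1 : ℝ) else 0) * Y)
    fun y => ?_) ?_
  · have h1 : ∀ x : ι → Bool, (∀ e ∈ W, J.piecewise y x e = true) ↔ ∀ e ∈ W, y e = true :=
      fun x => forall₂_congr fun e he => by rw [Finset.piecewise_eq_of_mem _ _ _ (hW he)]
    have h2 : ∀ (S : Finset ι) (x : ι → Bool), chi (S \ J) (J.piecewise y x) = chi (S \ J) x :=
      fun S x => Finset.prod_congr rfl fun e he => by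
        rw [Finset.piecewise_eq_of_notMem _ _ _ (Finset.mem_sdiff.1 he).2]
    simp only [h1, h2, hm]
    split_ifs with h
    · rw [one_mul]
      refine le_trans (schur J lam hlam fun S => c S * m S y) ?_
      refine mul_le_mul_of_nonneg_left (Finset.sum_le_sum fun S _ => ?_) hZ
      refine div_le_div_of_nonneg_right ?_ (hlam _).le
      rw [mul_pow]
      exact mul_le_mul_of_nonneg_left (hM S y) (sq_nonneg _)
    · simp [av_zero]
  · rw [av_mul_right]
    exact mul_le_mul_of_nonneg_right (av_all W) hY0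

lemma av_swap (J : Finset ι) (G : (ι → Bool) → (ι → Bool) → ℝ) :
    av (fun x : ι → Bool => av fun r : ι → Bool => G (J.piecewise r x) (J.piecewise x r)) =
      av fun x : ι → Bool => av fun r : ι → Bool => G x r := by
  let σ : (ι → Bool) × (ι → Bool) → (ι → Bool) × (ι → Bool) :=
    fun p => (J.piecewise p.2 p.1, J.piecewise p.1 p.2)
  have hσ : Function.Involutive σ := by
    intro p
    ext e <;> by_cases he : e ∈ J <;> simp [σ, Finset.piecewise, he]
  have h1 := av_equiv hσ.toPerm (fun p => G p.1 p.2)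
  rw [av_prod, av_prod] at h1
  exact h1

end Schur

variable {V : Type*} [DecidableEq V]

/-- the number of pairs of `R` containing `v` -/
def dg (R : Finset (Sym2 V)) (v : V) : ℕ := (R.filter fun e => v ∈ e).card

lemma dg_mono {R S : Finset (Sym2 V)} (h : R ⊆ S) (v : V) : dg R v ≤ dg S v :=
  Finset.card_le_card (Finset.filter_subset_filter _ h)

lemma card_mem_le (L : Finset V) (e : Sym2 V) : (L.filter fun v => v ∈ e).card ≤ 2 := by
  induction e using Sym2.ind with
  | h a b =>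
    have : (L.filter fun v : V => v ∈ s(a, b)) ⊆ {a, b} := by
      intro v hv
      simpa using (Finset.mem_filter.1 hv).2
    exact le_trans (Finset.card_le_card this) Finset.card_le_two

lemma sum_dg (L : Finset V) (R : Finset (Sym2 V)) :
    ∑ v ∈ L, dg R v = ∑ e ∈ R, (L.filter fun v => v ∈ e).card := by
  simp only [dg, Finset.card_filter]
  exact Finset.sum_comm

lemma sum_dg_le (L : Finset V) (R : Finset (Sym2 V)) : ∑ v ∈ L, dg R v ≤ 2 * R.card := by
  rw [sum_dg, mul_comm]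
  exact Finset.sum_le_card_nsmul _ _ 2 fun e _ => card_mem_le L e

lemma dg_EE {U : Finset V} {v : V} (hv : v ∈ U) : U.card - 1 ≤ dg (EE U) v := by
  rw [← Finset.card_erase_of_mem hv]
  refine Finset.card_le_card_of_injOn (fun w => s(v, w)) (fun w hw => ?_) fun w _ w' _ h => ?_
  · obtain ⟨h1, h2⟩ := Finset.mem_erase.1 (Finset.mem_coe.1 hw)
    refine Finset.mem_coe.2 (Finset.mem_filter.2 ⟨mem_EE.2 ⟨fun z hz => ?_, ?_⟩, by simp⟩)
    · rcases Sym2.mem_iff.1 hz with h | h <;> rw [h] <;> assumption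
    · simpa using h1.symm
  · exact Sym2.congr_right.1 h

/-- weight favouring graphs with vertices of small degree -/
noncomputable def lam1 (U : Finset V) (R : Finset (Sym2 V)) : ℝ :=
  ∏ v ∈ U, (1 + (5 / 4) ^ (U.card - 1) * (1 / 2) ^ dg R v)

lemma lam1_pos (U : Finset V) (R : Finset (Sym2 V)) : 0 < lam1 U R :=
  Finset.prod_pos fun _ _ => by positivity

lemma sum_lam1 (U : Finset V) :
    ∑ R ∈ (EE U).powerset, lam1 U R ≤ 2 ^ (EE U).card * 2 ^ U.card := by
  unfold lam1
  simp only [Finset.prod_one_add]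
  rw [Finset.sum_comm]
  refine le_trans (Finset.sum_le_card_nsmul _ _ ((2 : ℝ) ^ (EE U).card) fun L hL => ?_) ?_
  swap
  · rw [Finset.card_powerset, nsmul_eq_mul]; push_cast; exact le_of_eq (mul_comm _ _)
  have hLU := Finset.mem_powerset.1 hL
  have h1 : ∀ R : Finset (Sym2 V), ∏ v ∈ L, ((5 / 4 : ℝ) ^ (U.card - 1) * (1 / 2) ^ dg R v) =
      (5 / 4) ^ (L.card * (U.card - 1)) *
        ∏ e ∈ R, (1 / 2 : ℝ) ^ (L.filter fun v => v ∈ e).card := by
    intro R
    rw [Finset.prod_mul_distrib, Finset.prod_const, Finset.prod_pow_eq_pow_sum,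
      Finset.prod_pow_eq_pow_sum, sum_dg, ← pow_mul, mul_comm (U.card - 1)]
  simp only [h1]
  rw [← Finset.mul_sum, ← Finset.prod_one_add]
  have h2 : ∏ e ∈ EE U, (1 + (1 / 2 : ℝ) ^ (L.filter fun v => v ∈ e).card) ≤
      ∏ e ∈ EE U, (2 * (4 / 5 : ℝ) ^ (L.filter fun v => v ∈ e).card) := by
    refine Finset.prod_le_prod (fun _ _ => by positivity) fun e _ => ?_
    have := card_mem_le L e
    generalize (L.filter fun v => v ∈ e).card = j at this
    interval_cases j <;> norm_num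
  rw [Finset.prod_mul_distrib, Finset.prod_const, Finset.prod_pow_eq_pow_sum, ← sum_dg] at h2
  have h3 : L.card * (U.card - 1) ≤ ∑ v ∈ L, dg (EE U) v :=
    Finset.card_nsmul_le_sum _ _ _ fun v hv => dg_EE (hLU hv)
  have h4 : (4 / 5 : ℝ) ^ (∑ v ∈ L, dg (EE U) v) ≤ (4 / 5) ^ (L.card * (U.card - 1)) :=
    pow_le_pow_of_le_one (by norm_num) (by norm_num) h3
  have h5 : (5 / 4 : ℝ) ^ (L.card * (U.card - 1)) * (4 / 5) ^ (L.card * (U.card - 1)) = 1 := by
    rw [← mul_pow]; norm_num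
  calc _ ≤ (5 / 4 : ℝ) ^ (L.card * (U.card - 1)) *
        (2 ^ (EE U).card * (4 / 5) ^ (L.card * (U.card - 1))) :=
        mul_le_mul_of_nonneg_left (le_trans h2 (mul_le_mul_of_nonneg_left h4 (by positivity)))
          (by positivity)
    _ = 2 ^ (EE U).card := by rw [mul_left_comm, h5, mul_one]

lemma factor_ge (u d : ℕ) (hd : 1 ≤ d) :
    (u : ℝ) ≤ 8 * d * (1 + (5 / 4) ^ (u - 1) * (1 / 2) ^ d) := by
  have hd' : (1 : ℝ) ≤ d := by exact_mod_cast hd
  have hp : (0 : ℝ) ≤ (5 / 4) ^ (u - 1) * (1 / 2) ^ d := by positivity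
  by_cases h : u ≤ 8 * d
  · have : (u : ℝ) ≤ 8 * d := by exact_mod_cast h
    nlinarith
  · obtain ⟨j, hj⟩ : ∃ j, u - 1 = 4 * d + j := ⟨u - 1 - 4 * d, by omega⟩
    have h1 : (1 : ℝ) ≤ (5 / 4) ^ (4 * d) * (1 / 2) ^ d := by
      rw [pow_mul, ← mul_pow]
      exact one_le_pow₀ (by norm_num)
    have h2 : (1 : ℝ) + j * (1 / 4) ≤ (1 + 1 / 4) ^ j := one_add_mul_le_pow (by norm_num) j
    have h3 : (u : ℝ) ≤ 2 * j + 2 := by exact_mod_cast (show u ≤ 2 * j + 2 by omega)
    have h4 : (1 : ℝ) + j * (1 / 4) ≤ (5 / 4) ^ (u - 1) * (1 / 2) ^ d := by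
      rw [hj, pow_add, mul_right_comm]
      have h5 : (0 : ℝ) ≤ (5 / 4) ^ j := by positivity
      norm_num at h2 ⊢
      nlinarith
    have hj0 : (0 : ℝ) ≤ j := by positivity
    nlinarith

lemma inv_lam1_le (U : Finset V) (R S : Finset (Sym2 V)) (hRS : R ⊆ S)
    (hsp : ∀ v ∈ U, 1 ≤ dg R v) : 1 / lam1 U R ≤ ∏ v ∈ U, (8 * (dg S v : ℝ) / U.card) := by
  unfold lam1
  rw [one_div, ← Finset.prod_inv_distrib]
  refine Finset.prod_le_prod (fun _ _ => by positivity) fun v hv => ?_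
  have hu : (0 : ℝ) < U.card := by exact_mod_cast Finset.card_pos.2 ⟨v, hv⟩
  have h1 := factor_ge U.card (dg R v) (hsp v hv)
  have h2 : (dg R v : ℝ) ≤ dg S v := by exact_mod_cast dg_mono hRS v
  have hp : (0 : ℝ) < 1 + (5 / 4) ^ (U.card - 1) * (1 / 2) ^ dg R v := by positivity
  rw [inv_eq_one_div, div_le_div_iff₀ hp hu]
  nlinarith

lemma choose_drop (u t m : ℕ) (htu : t ≤ u) (hum : u ≤ m) :
    u.choose 2 ≤ (u - t).choose 2 + m * t := by
  induction t with
  | zero => simp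
  | succ t ih =>
    have h1 := ih (by omega)
    obtain ⟨a, ha⟩ : ∃ a, u - t = a + 1 := ⟨u - t - 1, by omega⟩
    rw [ha, Nat.choose_succ_succ' a 1, Nat.choose_one_right] at h1
    rw [show u - (t + 1) = a by omega, mul_add, mul_one]
    have : a ≤ m := by omega
    simp only [Nat.reduceAdd] at h1
    omega

lemma two_mul_choose (a : ℕ) : 2 * a.choose 2 + a = a * a := by
  induction a with
  | zero => simp
  | succ a ih =>
    rw [Nat.choose_succ_succ' a 1, Nat.choose_one_right]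
    simp only [Nat.reduceAdd]
    nlinarith

lemma choose_big (u t j : ℕ) (htu : t ≤ u) (hum : 16 * j < u) :
    2 * j * u ≤ (u - t).choose 2 + 16 * j * t := by
  by_cases h : u ≤ 2 * t
  · nlinarith [Nat.zero_le ((u - t).choose 2)]
  · obtain ⟨a, ha⟩ : ∃ a, u = a + t := ⟨u - t, by omega⟩
    have h1 := two_mul_choose a
    rw [show u - t = a by omega]
    have h2 : u + 1 ≤ 2 * a := by omega
    have h3 : 16 * j + 1 ≤ u := hum
    obtain ⟨a', rfl⟩ : ∃ a', a = a' + 1 := ⟨a - 1, by omega⟩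
    have h4 : 2 * (a' + 1).choose 2 = (a' + 1) * a' := by nlinarith
    have h5 : 8 * j ≤ a' := by omega
    have h6 : (a' + 1) * (8 * j) ≤ (a' + 1) * a' := Nat.mul_le_mul_left _ h5
    nlinarith [Nat.zero_le (16 * j * t)]

end Pool.Agent.P.MP_7ffab6_lc.Opt
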