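import Pool.Agent.P.MP_7ffab6_lc.Opt2

/-! The potential: weighted mixed differences along cliques have small mean. -/

namespace Pool.Agent.P.MP_7ffab6_lc.Opt

open Finset

variable {V : Type*} [DecidableEq V]

/-- make `Q` a clique -/
def pl (Q : Finset V) (y : Sym2 V → Bool) : Sym2 V → Bool := (EE Q).piecewise (fun _ => true) y

/-- resample the pairs of `P` outside `Q1`, then make `P2` a clique -/
def pt (Q1 P P2 : Finset V) (x r : Sym2 V → Bool) : Sym2 V → Bool :=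
  pl P2 ((EE P \ EE Q1).piecewise r x)

/-- double mixed difference -/
def Psi (F : (Sym2 V → Bool) → ℝ) (Qt Q Q1 : Finset V) (x r : Sym2 V → Bool) : ℝ :=
  md (fun P => md (fun P2 => F (pt Q1 P P2 x r)) Qt) Q

lemma pt_apply (Q1 P P2 : Finset V) (x r : Sym2 V → Bool) (e : Sym2 V) :
    pt Q1 P P2 x r e = if e ∈ EE P2 then true else if e ∈ EE P ∧ e ∉ EE Q1 then r e else x e := by
  simp [pt, pl, Finset.piecewise]

omit [DecidableEq V] in
lemma abs_chi_le {ι : Type*} (S : Finset ι) (x : ι → Bool) : |chi S x| ≤ 1 := by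
  unfold chi
  rw [Finset.abs_prod]
  refine le_of_eq (Finset.prod_eq_one fun e _ => ?_)
  cases x e <;> simp [sg]

/-- bound for the squared multiplier -/
def mb (U : Finset V) (R : Finset (Sym2 V)) (n : ℕ) : ℝ :=
  if ∀ v ∈ U, 1 ≤ dg R v then 4 ^ n else 0

lemma Psi_chi_sq_le (R : Finset (Sym2 V)) (Qt Q Q1 : Finset V) (x r : Sym2 V → Bool) :
    Psi (chi R) Qt Q Q1 x r ^ 2 ≤ mb (Qt ∪ Q) R (Q.card + Qt.card) := by
  unfold mb
  split_ifs with h
  · have h1 := abs_md_le (fun P => md (fun P2 => chi R (pt Q1 P P2 x r)) Qt) Q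
      (2 ^ Qt.card * 1) fun P => abs_md_le _ Qt 1 fun P2 => abs_chi_le _ _
    rw [← sq_abs]
    refine le_trans (pow_le_pow_left₀ (abs_nonneg _) h1 2) (le_of_eq ?_)
    rw [mul_one, ← pow_add, ← pow_mul, mul_comm, pow_mul]; norm_num
  · push Not at h
    obtain ⟨v, hv, hd⟩ := h
    have hno : ∀ e ∈ R, v ∉ e := fun e he hve => by
      have : 0 < dg R v := Finset.card_pos.2 ⟨e, Finset.mem_filter.2 ⟨he, hve⟩⟩
      omega
    have h0 : Psi (chi R) Qt Q Q1 x r = 0 := by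
      rcases Finset.mem_union.1 hv with hv | hv
      · have : ∀ P, md (fun P2 => chi R (pt Q1 P P2 x r)) Qt = 0 := fun P =>
          md_eq_zero _ hv fun P2 => Finset.prod_congr rfl fun e he => by
            simp only [pt_apply, mem_EE_insert (hno e he)]
        simp only [Psi, this]
        simp [md]
      · refine md_eq_zero _ hv fun P => md_congr fun P2 _ => Finset.prod_congr rfl fun e he => ?_
        simp only [pt_apply, mem_EE_insert (hno e he)]
    rw [h0]; simp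

variable [Fintype V]

lemma Psi_expand (F : (Sym2 V → Bool) → ℝ) (Qt Q Q1 : Finset V) (x r : Sym2 V → Bool) :
    Psi F Qt Q Q1 x r = ∑ S, fc F S * Psi (chi (S ∩ EE (Qt ∪ Q))) Qt Q Q1 x r *
      chi (S \ EE (Qt ∪ Q)) x := by
  set J := EE (Qt ∪ Q) with hJ
  have h1 : ∀ P ⊆ Q, ∀ P2 ⊆ Qt, F (pt Q1 P P2 x r) =
      ∑ S, fc F S * (chi (S ∩ J) (pt Q1 P P2 x r) * chi (S \ J) x) := by
    intro P hP P2 hP2
    rw [inversion F (pt Q1 P P2 x r)]
    refine Finset.sum_congr rfl fun S _ => ?_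
    congr 1
    have h2 : chi (S \ J) x = chi (S \ J) (pt Q1 P P2 x r) := by
      refine Finset.prod_congr rfl fun e he => ?_
      have he' := (Finset.mem_sdiff.1 he).2
      rw [pt_apply, if_neg, if_neg]
      · exact fun h => he' (EE_mono (hP.trans Finset.subset_union_right) h.1)
      · exact fun h => he' (EE_mono (hP2.trans Finset.subset_union_left) h)
    rw [h2]
    exact (Finset.prod_inter_mul_prod_sdiff S J _).symm
  have h3 : ∀ P ⊆ Q, md (fun P2 => F (pt Q1 P P2 x r)) Qt =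
      ∑ S, fc F S * (md (fun P2 => chi (S ∩ J) (pt Q1 P P2 x r)) Qt * chi (S \ J) x) := by
    intro P hP
    rw [md_congr (h1 P hP), md_sum]
    simp only [md_mul_right]
  unfold Psi
  rw [md_congr h3, md_sum]
  simp only [md_mul_right, mul_assoc]

lemma av_Psi (F : (Sym2 V → Bool) → ℝ) (Qt O Q Q1 : Finset V) (hO : O ⊆ Qt) (r : Sym2 V → Bool)
    (lam : Finset (Sym2 V) → ℝ) (hlam : ∀ R, 0 < lam R) :
    av (fun x : Sym2 V → Bool => if ∀ e ∈ EE (Q ∪ O), x e = true then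
        Psi F Qt Q Q1 x r ^ 2 else 0) ≤
      (1 / 2) ^ (EE (Q ∪ O)).card * ((∑ R ∈ (EE (Qt ∪ Q)).powerset, lam R) *
        ∑ S, fc F S ^ 2 * mb (Qt ∪ Q) (S ∩ EE (Qt ∪ Q)) (Q.card + Qt.card) /
          lam (S ∩ EE (Qt ∪ Q))) := by
  simp only [Psi_expand F]
  refine master (EE (Qt ∪ Q)) (EE (Q ∪ O)) (EE_mono ?_) lam hlam (fc F) _
    (fun S x => Psi (chi (S ∩ EE (Qt ∪ Q))) Qt Q Q1 x r) (fun S y x => ?_)
    fun S y => Psi_chi_sq_le _ _ _ _ _ _
  · exact Finset.union_subset Finset.subset_union_right (hO.trans Finset.subset_union_left)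
  · refine md_congr fun P _ => md_congr fun P2 _ => Finset.prod_congr rfl fun e he => ?_
    simp only [pt_apply, Finset.piecewise_eq_of_mem _ _ _ (Finset.mem_inter.1 he).2]

omit [Fintype V] in
lemma term_le (k j : ℕ) (hk : 0 < k) (β s D M1 : ℝ) (hβ : 0 < β) (hβ1 : β ≤ 1) (hs : 0 < s)
    (hM1 : 1 ≤ M1) (hM : ∀ u : ℕ, u ≤ 16 * j → (4096 * k / (β ^ 2 * u)) ^ u ≤ M1)
    (H1 : 256 * k / β ^ 2 ≤ 2 ^ j)
    (H2 : ∀ d : ℕ, (d : ℝ) ≤ D → (1 + s) ^ (2 * k ^ 2) ≤ s ^ d * 2 ^ (16 * j ^ 2))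
    (Qt O Q : Finset V) (hO : O ⊆ Qt) (hQt : Qt.card ≤ k) (hQ : Q.card ≤ k) :
    ∃ lam : Finset (Sym2 V) → ℝ, (∀ R, 0 < lam R) ∧ ∀ S : Finset (Sym2 V), (S.card : ℝ) ≤ D →
      1 / (β ^ Qt.card * β ^ Q.card * ((2 : ℝ) ^ (16 * j)) ^ (Qt \ O).card) *
        ((1 / 2) ^ (EE (Q ∪ O)).card * ((∑ R ∈ (EE (Qt ∪ Q)).powerset, lam R) *
          (mb (Qt ∪ Q) (S ∩ EE (Qt ∪ Q)) (Q.card + Qt.card) / lam (S ∩ EE (Qt ∪ Q))))) ≤
      (1 / 16) ^ (Qt ∪ Q).card * (M1 * ∏ v ∈ Qt ∪ Q, ((dg S v : ℝ) / k)) := by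
  set U := Qt ∪ Q with hU
  set u := U.card with hu
  have hk' : (0 : ℝ) < k := by exact_mod_cast hk
  have hWU : Q ∪ O ⊆ U :=
    Finset.union_subset Finset.subset_union_right (hO.trans Finset.subset_union_left)
  have hw : (Q ∪ O).card ≤ u := Finset.card_le_card hWU
  set t := u - (Q ∪ O).card with ht
  have ht0 : t ≤ (Qt \ O).card := by
    rw [ht, hu, ← Finset.card_sdiff_of_subset hWU]
    refine Finset.card_le_card fun v hv => ?_
    simp only [hU, Finset.mem_sdiff, Finset.mem_union] at hv ⊢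
    tauto
  have hwt : (Q ∪ O).card = u - t := by omega
  have hu2 : u ≤ 2 * k := le_trans (Finset.card_union_le _ _) (by omega)
  have hb1 : (1 : ℝ) ≤ 4 / β := by rw [le_div_iff₀ hβ]; linarith
  have hA : ∀ n : ℕ, n ≤ (u - t).choose 2 + 16 * j * t →
      1 / (β ^ Qt.card * β ^ Q.card * ((2 : ℝ) ^ (16 * j)) ^ (Qt \ O).card) *
        (1 / 2) ^ (EE (Q ∪ O)).card * 4 ^ (Q.card + Qt.card) ≤ (16 / β ^ 2) ^ u * (1 / 2) ^ n := by
    intro n hn
    have e1 : 1 / (β ^ Qt.card * β ^ Q.card * ((2 : ℝ) ^ (16 * j)) ^ (Qt \ O).card) *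
        (1 / 2) ^ (EE (Q ∪ O)).card * 4 ^ (Q.card + Qt.card) =
        ((4 / β) ^ Qt.card * (4 / β) ^ Q.card) *
          (1 / 2) ^ ((u - t).choose 2 + 16 * j * (Qt \ O).card) := by
      rw [card_EE, hwt, pow_add, pow_add, ← pow_mul]
      simp only [div_pow, one_pow]
      field_simp
    have e2 : (16 / β ^ 2 : ℝ) ^ u = (4 / β) ^ u * (4 / β) ^ u := by
      rw [← mul_pow]; congr 1; field_simp; norm_num
    rw [e1, e2]
    refine mul_le_mul (mul_le_mul
      (pow_le_pow_right₀ hb1 (Finset.card_le_card Finset.subset_union_left))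
      (pow_le_pow_right₀ hb1 (Finset.card_le_card Finset.subset_union_right))
      (by positivity) (by positivity)) ?_ (by positivity) (by positivity)
    refine pow_le_pow_of_le_one (by norm_num) (by norm_num) (le_trans hn ?_)
    have := Nat.mul_le_mul_left (16 * j) ht0
    omega
  have hP0 : ∀ S : Finset (Sym2 V), 0 ≤ ∏ v ∈ U, ((dg S v : ℝ) / k) :=
    fun S => Finset.prod_nonneg fun _ _ => by positivity
  by_cases hum : u ≤ 16 * j
  · refine ⟨lam1 U, lam1_pos U, fun S _ => ?_⟩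
    have := hP0 S
    unfold mb
    split_ifs with hsp
    swap
    · simp only [zero_div, mul_zero]; positivity
    have h1 := hA (u.choose 2) (choose_drop u t (16 * j) (by omega) hum)
    have h2 := sum_lam1 U
    rw [card_EE] at h2
    have h3 := inv_lam1_le U (S ∩ EE U) S Finset.inter_subset_left hsp
    have h4 : ∏ v ∈ U, (8 * (dg S v : ℝ) / U.card) =
        (8 * k / u) ^ u * ∏ v ∈ U, ((dg S v : ℝ) / k) := by
      rw [hu, ← Finset.prod_const, ← Finset.prod_mul_distrib]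
      refine Finset.prod_congr rfl fun v _ => ?_
      rw [div_mul_div_comm, mul_comm (U.card : ℝ) k, mul_right_comm, mul_comm (8 * (dg S v : ℝ)) k,
        mul_div_mul_left _ _ hk'.ne']
    rw [h4] at h3
    have h5 := mul_le_mul h1 (mul_le_mul h2 h3 (one_div_pos.2 (lam1_pos _ _)).le (by positivity))
      (mul_nonneg (Finset.sum_nonneg fun R _ => (lam1_pos U R).le)
        (one_div_pos.2 (lam1_pos _ _)).le) (by positivity)
    refine le_trans (le_of_eq (by ring)) (le_trans h5 ?_)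
    have h6 : (1 / 2 : ℝ) ^ u.choose 2 * 2 ^ u.choose 2 = 1 := by rw [← mul_pow]; norm_num
    have h7 : (16 / β ^ 2 : ℝ) ^ u * 2 ^ u * (8 * k / u) ^ u =
        (1 / 16) ^ u * (4096 * k / (β ^ 2 * u)) ^ u := by
      rw [← mul_pow, ← mul_pow, ← mul_pow]; congr 1; ring
    calc _ = ((1 / 2 : ℝ) ^ u.choose 2 * 2 ^ u.choose 2) *
          ((16 / β ^ 2 : ℝ) ^ u * 2 ^ u * (8 * k / u) ^ u) * ∏ v ∈ U, ((dg S v : ℝ) / k) := by
          rw [← hu]; ring
      _ = (1 / 16) ^ u * ((4096 * k / (β ^ 2 * u)) ^ u * ∏ v ∈ U, ((dg S v : ℝ) / k)) := by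
          rw [h6, h7]; ring
      _ ≤ _ := mul_le_mul_of_nonneg_left (mul_le_mul_of_nonneg_right (hM u hum) this)
          (by positivity)
  · refine ⟨fun R => s ^ R.card, fun R => by positivity, fun S hS => ?_⟩
    have := hP0 S
    unfold mb
    split_ifs with hsp
    swap
    · simp only [zero_div, mul_zero]; positivity
    push Not at hum
    have h1 := hA (2 * j * u) (choose_big u t j (by omega) hum)
    rw [sum_pow_card]
    have h2 : (1 + s) ^ (EE U).card ≤ (1 + s) ^ (2 * k ^ 2) := by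
      refine pow_le_pow_right₀ (by linarith) ?_
      rw [card_EE, ← hu]
      have h3 := two_mul_choose u
      have h4 : u * u ≤ (2 * k) * (2 * k) := Nat.mul_le_mul hu2 hu2
      nlinarith
    have h3 := H2 (S ∩ EE U).card (le_trans (by
      exact_mod_cast Finset.card_le_card Finset.inter_subset_left) hS)
    have h4 : (1 + s) ^ (EE U).card * (1 / s ^ (S ∩ EE U).card) ≤ 2 ^ (j * u) := by
      rw [mul_one_div, div_le_iff₀ (by positivity), mul_comm]
      refine le_trans h2 (le_trans h3 (mul_le_mul_of_nonneg_left ?_ (by positivity)))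
      refine pow_le_pow_right₀ (by norm_num) ?_
      nlinarith
    have h5 := mul_le_mul h1 h4 (by positivity) (by positivity)
    refine le_trans (le_of_eq (by ring)) (le_trans h5 ?_)
    have h6 : (16 / β ^ 2 : ℝ) ^ u * (1 / 2) ^ (2 * j * u) * 2 ^ (j * u) =
        (16 / β ^ 2 / 2 ^ j) ^ u := by
      rw [show 2 * j * u = j * u + j * u by ring, pow_add, div_pow (16 / β ^ 2), ← pow_mul]
      simp only [div_pow, one_pow]
      field_simp
    have h7 : (16 / β ^ 2 / 2 ^ j : ℝ) ≤ 1 / 16 * (1 / k) := by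
      rw [div_le_iff₀ (by positivity)]
      refine le_trans (le_of_eq ?_) (mul_le_mul_of_nonneg_left H1 (by positivity))
      field_simp; norm_num
    have h8 : (1 / k : ℝ) ^ u ≤ ∏ v ∈ U, ((dg S v : ℝ) / k) := by
      rw [hu, ← Finset.prod_const]
      refine Finset.prod_le_prod (fun _ _ => by positivity) fun v hv => ?_
      refine div_le_div_of_nonneg_right ?_ hk'.le
      exact_mod_cast le_trans (hsp v hv) (dg_mono Finset.inter_subset_left v)
    rw [h6]
    refine le_trans (pow_le_pow_left₀ (by positivity) h7 u) ?_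
    rw [mul_pow]
    exact mul_le_mul_of_nonneg_left (le_trans h8 (le_mul_of_one_le_left this hM1)) (by positivity)

/-- admissible quadruples of vertex sets -/
def confs (V : Type*) [DecidableEq V] [Fintype V] (k : ℕ) :
    Finset (Finset V × Finset V × Finset V × Finset V) :=
  Finset.univ.filter fun c => c.2.1 ⊆ c.1 ∧ c.2.2.2 ⊆ c.2.2.1 ∧ c.1.card ≤ k ∧ c.2.2.1.card ≤ k

/-- the potential -/
noncomputable def Phi (F : V → (Sym2 V → Bool) → ℝ) (k : ℕ) (β ζ : ℝ) (x r : Sym2 V → Bool) : ℝ :=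
  ∑ w, ∑ c ∈ confs V k, 1 / (β ^ c.1.card * β ^ c.2.2.1.card * ζ ^ (c.1 \ c.2.1).card) *
    if ∀ e ∈ EE (c.2.2.1 ∪ c.2.1), x e = true then Psi (F w) c.1 c.2.2.1 c.2.2.2 x r ^ 2 else 0

lemma sum_confs (k : ℕ) (φ : Finset V → ℝ) (hφ : ∀ U, 0 ≤ φ U) :
    ∑ c ∈ confs V k, (1 / 16) ^ (c.1 ∪ c.2.2.1).card * φ (c.1 ∪ c.2.2.1) ≤ ∑ U, φ U := by
  rw [← Finset.sum_fiberwise_of_maps_to (t := Finset.univ) (g := fun c => c.1 ∪ c.2.2.1)
    (fun _ _ => Finset.mem_univ _)]
  refine Finset.sum_le_sum fun U _ => ?_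
  rw [Finset.sum_congr rfl (g := fun _ => (1 / 16) ^ U.card * φ U)
    fun c hc => by rw [(Finset.mem_filter.1 hc).2], Finset.sum_const, nsmul_eq_mul, ← mul_assoc]
  refine mul_le_of_le_one_left (hφ U) ?_
  have h1 : ((confs V k).filter fun c => c.1 ∪ c.2.2.1 = U) ⊆
      U.powerset ×ˢ U.powerset ×ˢ U.powerset ×ˢ U.powerset := by
    intro c hc
    obtain ⟨h1, h2⟩ := Finset.mem_filter.1 hc
    obtain ⟨-, h3, h4, -⟩ := Finset.mem_filter.1 h1
    simp only [Finset.mem_product, Finset.mem_powerset, ← h2]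
    exact ⟨Finset.subset_union_left, h3.trans Finset.subset_union_left, Finset.subset_union_right,
      h4.trans Finset.subset_union_right⟩
  have h2 := Finset.card_le_card h1
  simp only [Finset.card_product, Finset.card_powerset] at h2
  have h3 : (((confs V k).filter fun c => c.1 ∪ c.2.2.1 = U).card : ℝ) ≤ 16 ^ U.card := by
    rw [show (16 : ℝ) = 2 * (2 * (2 * 2)) by norm_num, mul_pow, mul_pow, mul_pow]
    exact_mod_cast h2
  refine le_trans (mul_le_mul_of_nonneg_right h3 (by positivity)) (le_of_eq ?_)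
  rw [← mul_pow]; norm_num

lemma av_Phi (F : V → (Sym2 V → Bool) → ℝ) (k j : ℕ) (hk : 0 < k) (β s D M1 : ℝ) (hβ : 0 < β)
    (hβ1 : β ≤ 1) (hs : 0 < s)
    (hM1 : 1 ≤ M1) (hM : ∀ u : ℕ, u ≤ 16 * j → (4096 * k / (β ^ 2 * u)) ^ u ≤ M1)
    (H1 : 256 * k / β ^ 2 ≤ 2 ^ j)
    (H2 : ∀ d : ℕ, (d : ℝ) ≤ D → (1 + s) ^ (2 * k ^ 2) ≤ s ^ d * 2 ^ (16 * j ^ 2))
    (hF : ∀ w S, D < (Finset.card S : ℝ) → fc (F w) S = 0) (r : Sym2 V → Bool) :
    av (fun x => Phi F k β (2 ^ (16 * j)) x r) ≤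
      M1 * Real.exp (2 * D / k) * av fun x => ∑ w, F w x ^ 2 := by
  have hk' : (0 : ℝ) < k := by exact_mod_cast hk
  unfold Phi
  rw [av_sum, av_sum, Finset.mul_sum]
  refine Finset.sum_le_sum fun w _ => ?_
  rw [av_sum, parseval]
  have h1 : ∀ c ∈ confs V k, av (fun x : Sym2 V → Bool =>
      1 / (β ^ c.1.card * β ^ c.2.2.1.card * ((2 : ℝ) ^ (16 * j)) ^ (c.1 \ c.2.1).card) *
        if ∀ e ∈ EE (c.2.2.1 ∪ c.2.1), x e = true then
          Psi (F w) c.1 c.2.2.1 c.2.2.2 x r ^ 2 else 0) ≤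
      ∑ S, fc (F w) S ^ 2 * ((1 / 16) ^ (c.1 ∪ c.2.2.1).card *
        (M1 * ∏ v ∈ c.1 ∪ c.2.2.1, ((dg S v : ℝ) / k))) := by
    intro c hc
    obtain ⟨-, h3, -, h5, h6⟩ := Finset.mem_filter.1 hc
    obtain ⟨lam, hlam, hle⟩ := term_le k j hk β s D M1 hβ hβ1 hs hM1 hM H1 H2 c.1 c.2.1 c.2.2.1
      h3 h5 h6
    rw [av_mul_left]
    refine le_trans (mul_le_mul_of_nonneg_left
      (av_Psi (F w) c.1 c.2.1 c.2.2.1 c.2.2.2 h3 r lam hlam) (by positivity)) ?_
    rw [Finset.mul_sum (s := Finset.univ), Finset.mul_sum, Finset.mul_sum]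
    refine Finset.sum_le_sum fun S _ => ?_
    by_cases hS : D < (S.card : ℝ)
    · rw [hF w S hS]; simp
    · push Not at hS
      exact le_trans (le_of_eq (by ring)) (mul_le_mul_of_nonneg_left (hle S hS) (sq_nonneg _))
  refine le_trans (Finset.sum_le_sum h1) ?_
  rw [Finset.sum_comm, Finset.mul_sum]
  refine Finset.sum_le_sum fun S _ => ?_
  by_cases hS : D < (S.card : ℝ)
  · rw [hF w S hS]; simp
  push Not at hS
  rw [← Finset.mul_sum, mul_comm]
  refine mul_le_mul_of_nonneg_right ?_ (sq_nonneg _)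
  refine le_trans (sum_confs k (fun U => M1 * ∏ v ∈ U, ((dg S v : ℝ) / k)) fun U =>
    mul_nonneg (by linarith) (Finset.prod_nonneg fun _ _ => by positivity)) ?_
  rw [← Finset.mul_sum, ← Finset.powerset_univ, ← Finset.prod_one_add]
  refine mul_le_mul_of_nonneg_left ?_ (by linarith)
  refine le_trans (Real.prod_one_add_le_exp_sum _ fun _ => by positivity) ?_
  rw [← Finset.sum_div]
  refine Real.exp_le_exp.2 (div_le_div_of_nonneg_right ?_ hk'.le)
  have h2 : ((∑ v, dg S v : ℕ) : ℝ) ≤ ((2 * S.card : ℕ) : ℝ) := by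
    exact_mod_cast sum_dg_le Finset.univ S
  push_cast at h2
  linarith

end Pool.Agent.P.MP_7ffab6_lc.Opt
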