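import Pool.Agent.P.MP_7ffab6_lc.Opt3

/-! Decoding the clique move by move from a state in which its edges are resampled. -/

namespace Pool.Agent.P.MP_7ffab6_lc.Opt

open Finset

variable {V : Type*} [DecidableEq V] [Fintype V]

/-- weight of the move which adds the vertex `m.1` and the set `m.2` to `S` -/
noncomputable def mv (F : V → (Sym2 V → Bool) → ℝ) (k : ℕ) (β ζ : ℝ) (y : Sym2 V → Bool)
    (S : Finset V) (m : V × Finset V) : ℝ :=
  if m.1 ∉ S ∧ m.2.card ≤ k then
    md (fun P => F m.1 (pl P (pl S y))) m.2 ^ 2 / (β ^ m.2.card * ζ ^ (m.2 \ S).card) else 0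

/-- `T` attracts enough flow from each of its proper subsets -/
def Good (F : V → (Sym2 V → Bool) → ℝ) (k : ℕ) (β ζ θ L : ℝ) (y : Sym2 V → Bool)
    (T : Finset V) : Prop :=
  ∀ S ⊂ T, ∑ m, mv F k β ζ y S m ≤ L ∧
    L ≤ ∑ m : V × Finset V, if S ⊂ insert m.1 (S ∪ m.2) ∧ insert m.1 (S ∪ m.2) ⊆ T then
      mv F k β ζ y S m * θ ^ ((insert m.1 (S ∪ m.2)).card - S.card) else 0

omit [Fintype V] in
lemma mv_nonneg (F : V → (Sym2 V → Bool) → ℝ) (k : ℕ) {β ζ : ℝ} (hβ : 0 < β) (hζ : 0 < ζ)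
    (y : Sym2 V → Bool) (S : Finset V) (m : V × Finset V) : 0 ≤ mv F k β ζ y S m := by
  unfold mv
  split_ifs
  · positivity
  · exact le_rfl

open Classical in
lemma card_good (F : V → (Sym2 V → Bool) → ℝ) (k : ℕ) {β ζ θ L : ℝ} (hβ : 0 < β) (hζ : 0 < ζ)
    (hθ : 0 ≤ θ) (hL : 0 < L) (y : Sym2 V → Bool) :
    ∑ T ∈ (Finset.univ : Finset V).powersetCard k,
      (if Good F k β ζ θ L y T then (1 : ℝ) else 0) ≤ θ ^ k := by
  rw [Finset.sum_boole]
  have := count_moves k θ L hθ hL (mv F k β ζ y) (mv_nonneg F k hβ hζ y)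
    (fun S m => insert m.1 (S ∪ m.2))
    (((Finset.univ : Finset V).powersetCard k).filter fun T => Good F k β ζ θ L y T)
    (fun T hT => (Finset.mem_powersetCard.1 (Finset.mem_filter.1 hT).1).2)
    (fun T hT S hS => ((Finset.mem_filter.1 hT).2 S hS).1)
    (fun T hT S hS => ((Finset.mem_filter.1 hT).2 S hS).2) k ∅ (by simp)
  simpa using this

lemma good_of (F : V → (Sym2 V → Bool) → ℝ) (k : ℕ) {β ζ θ0 lam : ℝ} (hβ : 0 < β) (hζ : 1 ≤ ζ)
    (hθ : 1 ≤ θ0) (hθ' : 4 * (1 + β) ^ k * ((1 + β) ^ k * lam) ≤ θ0) (x r : Sym2 V → Bool)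
    (T : Finset V) (hT : T.card = k) (hcl : ∀ e ∈ EE T, x e = true) (hF : ∀ w ∈ T, 1 / 2 ≤ F w x)
    (hΦ : Phi F k β ζ x r ≤ lam) :
    Good F k β ζ (ζ * θ0) ((1 + β) ^ k * lam) ((EE T).piecewise r x) T := by
  intro S hS
  have hST : S ⊆ T := hS.subset
  have hζ0 : 0 < ζ := by linarith
  have hy : pl S ((EE T).piecewise r x) = (EE T \ EE S).piecewise r x := by
    funext e
    by_cases h1 : e ∈ EE S
    · simp [pl, Finset.piecewise, h1, hcl e (EE_mono hST h1)]
    · simp [pl, Finset.piecewise, h1]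
  constructor
  · refine le_trans ?_ (mul_le_mul_of_nonneg_left hΦ (by positivity))
    unfold Phi
    rw [Fintype.sum_prod_type, Finset.mul_sum]
    refine Finset.sum_le_sum fun w _ => ?_
    set τ : Finset V × Finset V × Finset V × Finset V → ℝ := fun c =>
      1 / (β ^ c.1.card * β ^ c.2.2.1.card * ζ ^ (c.1 \ c.2.1).card) *
        if ∀ e ∈ EE (c.2.2.1 ∪ c.2.1), x e = true then
          Psi (F w) c.1 c.2.2.1 c.2.2.2 x r ^ 2 else 0 with hτ
    have hτ0 : ∀ c, 0 ≤ τ c := fun c => by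
      simp only [hτ]
      split_ifs <;> positivity
    set A : Finset (Finset V) := Finset.univ.filter fun Qt => Qt.card ≤ k with hA
    have h1 : ∀ Qt, mv F k β ζ ((EE T).piecewise r x) S (w, Qt) ≤ if Qt.card ≤ k then
        (1 + β) ^ k * ∑ Q ∈ T.powerset, τ (Qt, Qt ∩ S, Q, S ∩ Q) else 0 := by
      intro Qt
      have hn : 0 ≤ (1 + β) ^ k * ∑ Q ∈ T.powerset, τ (Qt, Qt ∩ S, Q, S ∩ Q) :=
        mul_nonneg (by positivity) (Finset.sum_nonneg fun _ _ => hτ0 _)
      unfold mv
      by_cases hq : Qt.card ≤ k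
      swap
      · simp [hq]
      rw [if_pos hq]
      split_ifs
      swap
      · exact hn
      have h2 := sq_le_md (fun P => md (fun P2 => F w (pl P2 ((EE P \ EE S).piecewise r x))) Qt)
        T β hβ
      rw [hT] at h2
      simp only [hy]
      refine le_trans (div_le_div_of_nonneg_right h2 (by positivity)) (le_of_eq ?_)
      rw [mul_div_assoc, Finset.sum_div]
      congr 1
      refine Finset.sum_congr rfl fun Q hQ => ?_
      have hQT := Finset.mem_powerset.1 hQ
      have h3 : md (fun P => md (fun P2 => F w (pl P2 ((EE P \ EE S).piecewise r x))) Qt) Q =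
          Psi (F w) Qt Q (S ∩ Q) x r := by
        refine md_congr fun P hP => ?_
        have : EE P \ EE S = EE P \ EE (S ∩ Q) := by
          ext e
          simp only [Finset.mem_sdiff, mem_EE_inter]
          exact ⟨fun h => ⟨h.1, fun h' => h.2 h'.1⟩,
            fun h => ⟨h.1, fun h' => h.2 ⟨h', EE_mono hP h.1⟩⟩⟩
        simp only [pt]
        rw [← this]
      simp only [hτ]
      rw [h3, if_pos, Finset.sdiff_inter_self_left]
      · field_simp
      · exact fun e he => hcl e (EE_mono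
          (Finset.union_subset hQT (Finset.inter_subset_right.trans hST)) he)
    refine le_trans (Finset.sum_le_sum fun Qt _ => h1 Qt) ?_
    rw [← Finset.sum_filter, ← Finset.mul_sum, ← hA]
    refine mul_le_mul_of_nonneg_left ?_ (by positivity)
    rw [← Finset.sum_product' A T.powerset (fun Qt Q => τ (Qt, Qt ∩ S, Q, S ∩ Q)),
      ← Finset.sum_image (s := A ×ˢ T.powerset)
        (g := fun p : Finset V × Finset V => (p.1, p.1 ∩ S, p.2, S ∩ p.2)) (f := τ)]
    · refine Finset.sum_le_sum_of_subset_of_nonneg (fun c hc => ?_) fun c _ _ => hτ0 c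
      obtain ⟨p, hp, rfl⟩ := Finset.mem_image.1 hc
      obtain ⟨h2, h3⟩ := Finset.mem_product.1 hp
      refine Finset.mem_filter.2 ⟨Finset.mem_univ _, Finset.inter_subset_left,
        Finset.inter_subset_right, (Finset.mem_filter.1 h2).2, ?_⟩
      rw [← hT]
      exact Finset.card_le_card (Finset.mem_powerset.1 h3)
    · intro p _ q _ h
      simp only [Prod.mk.injEq] at h
      exact Prod.ext h.1 h.2.2.1
  · obtain ⟨w, hwT, hwS⟩ := Finset.exists_of_ssubset hS
    rw [Fintype.sum_prod_type]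
    have hnn : ∀ m : V × Finset V, 0 ≤ (if S ⊂ insert m.1 (S ∪ m.2) ∧ insert m.1 (S ∪ m.2) ⊆ T
        then mv F k β ζ ((EE T).piecewise r x) S m *
          (ζ * θ0) ^ ((insert m.1 (S ∪ m.2)).card - S.card) else 0) := fun m => by
      have := mv_nonneg F k hβ hζ0 ((EE T).piecewise r x) S m
      split_ifs
      · positivity
      · exact le_rfl
    refine le_trans ?_ (Finset.single_le_sum (f := fun w' : V => ∑ Qt : Finset V, _)
      (fun w' _ => Finset.sum_nonneg fun Qt _ => hnn (w', Qt)) (Finset.mem_univ w))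
    refine le_trans ?_ (Finset.sum_le_sum_of_subset_of_nonneg (Finset.subset_univ T.powerset)
      fun Qt _ _ => hnn (w, Qt))
    have h2 := sq_le_md (fun P => F w (pl P (pl S ((EE T).piecewise r x)))) T β hβ
    have h3 : pl T (pl S ((EE T).piecewise r x)) = x := by
      funext e
      by_cases h1 : e ∈ EE T
      · simp [pl, Finset.piecewise, h1, hcl e h1]
      · have h4 : e ∉ EE S := fun h => h1 (EE_mono hST h)
        simp [pl, Finset.piecewise, h1, h4]
    simp only [h3, hT] at h2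
    set Y := ∑ Q ∈ T.powerset,
      md (fun P => F w (pl P (pl S ((EE T).piecewise r x)))) Q ^ 2 / β ^ Q.card with hY
    have h4 : (1 + β) ^ k * lam ≤ θ0 * Y := by
      have h5 : (1 / 4 : ℝ) ≤ (1 + β) ^ k * Y := by nlinarith [hF w hwT]
      have h6 : (0 : ℝ) < (1 + β) ^ k := by positivity
      refine le_of_mul_le_mul_left ?_ h6
      nlinarith
    refine le_trans h4 ?_
    rw [hY, Finset.mul_sum]
    refine Finset.sum_le_sum fun Qt hQ => ?_
    have hQT := Finset.mem_powerset.1 hQ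
    have hss : S ⊂ insert w (S ∪ Qt) := Finset.ssubset_iff_subset_ne.2
      ⟨Finset.subset_union_left.trans (Finset.subset_insert _ _),
        fun h => hwS (h ▸ Finset.mem_insert_self _ _)⟩
    rw [if_pos ⟨hss, Finset.insert_subset hwT (Finset.union_subset hST hQT)⟩]
    unfold mv
    rw [if_pos ⟨hwS, hT ▸ Finset.card_le_card hQT⟩]
    have h5 := Finset.card_lt_card hss
    have h6 : (Qt \ S).card ≤ (insert w (S ∪ Qt)).card - S.card := by
      rw [← Finset.card_sdiff_of_subset hss.subset]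
      exact Finset.card_le_card (Finset.sdiff_subset_sdiff
        (Finset.subset_union_right.trans (Finset.subset_insert _ _)) (Finset.Subset.refl _))
    have h7 : ζ ^ (Qt \ S).card * θ0 ≤ (ζ * θ0) ^ ((insert w (S ∪ Qt)).card - S.card) := by
      rw [mul_pow]
      exact mul_le_mul (pow_le_pow_right₀ hζ h6) (le_self_pow₀ hθ (by omega)) (by linarith)
        (by positivity)
    refine le_trans (le_of_eq ?_) (mul_le_mul_of_nonneg_left h7 (by positivity))
    field_simp

theorem core (F : V → (Sym2 V → Bool) → ℝ) (k : ℕ) {β ζ θ0 lam Y : ℝ} (hβ : 0 < β) (hζ : 1 ≤ ζ)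
    (hθ : 1 ≤ θ0) (hlam : 0 < lam) (hθ' : 4 * (1 + β) ^ k * ((1 + β) ^ k * lam) ≤ θ0)
    (hY : ∀ r, av (fun x => Phi F k β ζ x r) ≤ Y) (Γ : (Sym2 V → Bool) → ℝ) (hΓ1 : ∀ x, Γ x ≤ 1)
    (hΓ : ∀ x, 0 < Γ x → ∃ K : Finset V, k ≤ K.card ∧ IsCl x K ∧ ∀ v ∈ K, 1 / 2 ≤ F v x) :
    av Γ ≤ Y / lam + (ζ * θ0) ^ k * (1 / 2) ^ k.choose 2 := by
  classical
  have hζ0 : 0 < ζ := by linarith
  set G : Finset V → (Sym2 V → Bool) → (Sym2 V → Bool) → ℝ := fun T y z =>
    (if Good F k β ζ (ζ * θ0) ((1 + β) ^ k * lam) y T then (1 : ℝ) else 0) *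
      if ∀ e ∈ EE T, z e = true then (1 : ℝ) else 0 with hG
  have hG0 : ∀ T y z, 0 ≤ G T y z := fun T y z => by
    simp only [hG]
    split_ifs <;> norm_num
  have hΦ0 : ∀ x r, 0 ≤ Phi F k β ζ x r := fun x r =>
    Finset.sum_nonneg fun w _ => Finset.sum_nonneg fun c _ => by split_ifs <;> positivity
  have h1 : ∀ x r, Γ x ≤ Phi F k β ζ x r / lam + ∑ T ∈ (Finset.univ : Finset V).powersetCard k,
      G T ((EE T).piecewise r x) ((EE T).piecewise x r) := by
    intro x r
    have h2 : 0 ≤ Phi F k β ζ x r / lam := div_nonneg (hΦ0 x r) hlam.le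
    have h3 : 0 ≤ ∑ T ∈ (Finset.univ : Finset V).powersetCard k,
      G T ((EE T).piecewise r x) ((EE T).piecewise x r) := Finset.sum_nonneg fun _ _ => hG0 _ _ _
    by_cases hx : 0 < Γ x
    swap
    · linarith [not_lt.1 hx]
    by_cases hΦ : Phi F k β ζ x r ≤ lam
    swap
    · have : 1 ≤ Phi F k β ζ x r / lam := (one_le_div hlam).2 (not_le.1 hΦ).le
      linarith [hΓ1 x]
    obtain ⟨K, hK, hcl, hKF⟩ := hΓ x hx
    obtain ⟨T, hTK, hT⟩ := Finset.exists_subset_card_eq hK
    have hcl' : ∀ e ∈ EE T, x e = true := by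
      intro e he
      obtain ⟨p, hp, rfl⟩ := Finset.mem_image.1 he
      obtain ⟨hp1, hp2, hp12⟩ := Finset.mem_offDiag.1 hp
      exact hcl _ (hTK hp1) _ (hTK hp2) hp12
    have h4 := good_of F k hβ hζ hθ hθ' x r T hT hcl' (fun w hw => hKF w (hTK hw)) hΦ
    have h5 : G T ((EE T).piecewise r x) ((EE T).piecewise x r) = 1 := by
      simp only [hG]
      rw [if_pos h4, if_pos, mul_one]
      intro e he
      rw [Finset.piecewise_eq_of_mem _ _ _ he]
      exact hcl' e he
    have h6 := Finset.single_le_sum (f := fun T => G T ((EE T).piecewise r x)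
      ((EE T).piecewise x r)) (fun _ _ => hG0 _ _ _)
      (Finset.mem_powersetCard.2 ⟨Finset.subset_univ T, hT⟩)
    simp only [h5] at h6
    linarith [hΓ1 x]
  have h2 : av Γ ≤ av fun x => av fun r => Phi F k β ζ x r / lam +
      ∑ T ∈ (Finset.univ : Finset V).powersetCard k,
        G T ((EE T).piecewise r x) ((EE T).piecewise x r) := by
    refine av_mono fun x => ?_
    rw [← av_const (Ω := Sym2 V → Bool) (Γ x)]
    exact av_mono fun r => h1 x r
  simp only [av_add, av_sum, av_div, av_swap] at h2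
  refine le_trans h2 (add_le_add (div_le_div_of_nonneg_right ?_ hlam.le) ?_)
  · rw [av_comm, ← av_const (Ω := Sym2 V → Bool) Y]
    exact av_mono hY
  · have h3 : ∀ T ∈ (Finset.univ : Finset V).powersetCard k,
        (av fun y => av fun z => G T y z) ≤ av fun y =>
          (if Good F k β ζ (ζ * θ0) ((1 + β) ^ k * lam) y T then (1 : ℝ) else 0) *
            (1 / 2) ^ k.choose 2 := by
      intro T hT
      refine av_mono fun y => ?_
      simp only [hG]
      rw [av_mul_left]
      refine mul_le_mul_of_nonneg_left (le_trans (av_all (EE T)) ?_) (by split_ifs <;> norm_num)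
      rw [card_EE, (Finset.mem_powersetCard.1 hT).2]
    refine le_trans (Finset.sum_le_sum h3) ?_
    rw [← av_sum, ← av_const (Ω := Sym2 V → Bool) ((ζ * θ0) ^ k * (1 / 2) ^ k.choose 2)]
    refine av_mono fun y => ?_
    rw [← Finset.sum_mul]
    exact mul_le_mul_of_nonneg_right
      (card_good F k hβ hζ0 (by positivity) (by positivity) y) (by positivity)

end Pool.Agent.P.MP_7ffab6_lc.Opt
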