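import Pool.Agent.P.MP_7ffab6_lc.Opt4

/-! Choice of the parameters. -/

namespace Pool.Agent.P.MP_7ffab6_lc.Opt

open Finset

theorem stable (ε : ℝ) (hε : 0 < ε) : ∃ δ : ℝ, 0 < δ ∧ ∃ k0 : ℕ, ∀ k ≥ k0,
    ∀ (V : Type) [DecidableEq V] [Fintype V] (F : V → (Sym2 V → Bool) → ℝ)
      (Γ : (Sym2 V → Bool) → ℝ), (∀ w S, δ * k ^ 2 < (Finset.card S : ℝ) → fc (F w) S = 0) →
      (∀ x, Γ x ≤ 1) →
      (∀ x, 0 < Γ x → ∃ K : Finset V, k ≤ K.card ∧ IsCl x K ∧ ∀ v ∈ K, 1 / 2 ≤ F v x) →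
      av Γ ≤ (1 + av fun x => ∑ w, F w x ^ 2) * (Real.exp ε / Real.sqrt 2) ^ k := by
  set e : ℝ := ε / 5 with he
  have he0 : 0 < e := by positivity
  set β : ℝ := min (e / 2) 1 with hβ
  have hβ0 : 0 < β := lt_min (by positivity) one_pos
  have hβ1 : β ≤ 1 := min_le_right _ _
  have hβe : β ≤ e / 2 := min_le_left _ _
  set A : ℝ := max 1 (4096 / (β ^ 2 * e)) with hA
  have hA1 : 1 ≤ A := le_max_left _ _
  have hA2 : 4096 / (β ^ 2 * e) ≤ A := le_max_right _ _
  have hlA : 0 < Real.log (2 * A) := Real.log_pos (by linarith)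
  set σ : ℝ := e / (16 * Real.log (2 * A)) with hσ
  have hσ0 : 0 < σ := by positivity
  have hl2 : 0 < Real.log 2 := Real.log_pos one_lt_two
  set s : ℝ := σ ^ 2 * Real.log 2 with hs
  have hs0 : 0 < s := by positivity
  set δ : ℝ := min (e / 2) (2 * s / (|Real.log s| + 1)) with hδ
  have hδ0 : 0 < δ := lt_min (by positivity) (by positivity)
  have hδe : δ ≤ e / 2 := min_le_left _ _
  have hδs : δ * |Real.log s| ≤ 2 * s := by
    have h1 : δ ≤ 2 * s / (|Real.log s| + 1) := min_le_right _ _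
    rw [le_div_iff₀ (by positivity)] at h1
    nlinarith
  set c : ℝ := σ * Real.log 2 / 2 with hc
  have hc0 : 0 < c := by positivity
  clear_value c δ s σ A β e
  clear hδ hA hβ
  obtain ⟨k0, hk0⟩ := exists_nat_ge (2 / σ + 12 / e + 512 / (β ^ 2 * c ^ 2))
  refine ⟨δ, hδ0, k0, fun k hk V _ _ F Γ hF hΓ1 hΓ => ?_⟩
  have hkk : (k0 : ℝ) ≤ k := by exact_mod_cast hk
  have p1 : 0 < 2 / σ := by positivity
  have p2 : 0 < 12 / e := by positivity
  have p3 : 0 < 512 / (β ^ 2 * c ^ 2) := by positivity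
  have hk' : (0 : ℝ) < k := by linarith
  have hkpos : 0 < k := by exact_mod_cast hk'
  have k1 : 2 ≤ k * σ := (div_le_iff₀ hσ0).1 (by linarith)
  have k2 : 12 ≤ k * e := (div_le_iff₀ he0).1 (by linarith)
  have k3 : 512 ≤ k * (β ^ 2 * c ^ 2) := (div_le_iff₀ (by positivity)).1 (by linarith)
  set B := av fun x => ∑ w, F w x ^ 2 with hB
  have hB0 : 0 ≤ B := av_nonneg fun x => Finset.sum_nonneg fun _ _ => sq_nonneg _
  have hq0 : 0 < Real.sqrt 2 := by positivity
  have hq2 : Real.sqrt 2 ^ 2 = 2 := Real.sq_sqrt (by norm_num)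
  have hq15 : Real.sqrt 2 ≤ 3 / 2 := by nlinarith
  by_cases hbig : Real.sqrt 2 ≤ Real.exp ε
  · have h1 : av Γ ≤ 1 := by
      rw [← av_const (Ω := Sym2 V → Bool) 1]; exact av_mono hΓ1
    have h2 : 1 ≤ (Real.exp ε / Real.sqrt 2) ^ k := one_le_pow₀ ((one_le_div hq0).2 hbig)
    nlinarith
  push Not at hbig
  set j : ℕ := ⌊σ * k⌋₊ with hj
  have hj1 : (j : ℝ) ≤ σ * k := Nat.floor_le (by positivity)
  have hj2 : σ * k / 2 ≤ j := by
    have := Nat.lt_floor_add_one (σ * k)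
    linarith
  clear_value j
  clear hj
  set E : ℝ := Real.exp (e * k) with hE
  have hE1 : 12 ≤ E := by
    have := Real.add_one_le_exp (e * k)
    linarith
  have hE0 : 0 < E := by linarith
  clear_value E
  have h2A : (2 : ℝ) ^ (16 * j) * A ^ (16 * j) ≤ E := by
    rw [← mul_pow, ← Real.exp_log (show 0 < 2 * A by linarith), ← Real.exp_nat_mul]
    rw [hE]
    refine Real.exp_le_exp.2 ?_
    have h1 : σ * (16 * Real.log (2 * A)) = e := by rw [hσ]; field_simp
    push_cast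
    nlinarith [mul_le_mul_of_nonneg_right hj1 hlA.le]
  have hAj : 1 ≤ A ^ (16 * j) := one_le_pow₀ hA1
  have hζ1 : (1 : ℝ) ≤ 2 ^ (16 * j) := one_le_pow₀ (by norm_num)
  have hM : ∀ u : ℕ, u ≤ 16 * j → (4096 * k / (β ^ 2 * u)) ^ u ≤ E * A ^ (16 * j) := by
    intro u hu
    have h1 : (4096 * k / (β ^ 2 * u) : ℝ) = e * k / u * (4096 / (β ^ 2 * e)) := by
      by_cases h : (u : ℝ) = 0
      · simp [h]
      · field_simp
    rw [h1, mul_pow]
    refine mul_le_mul ?_ (le_trans (pow_le_pow_left₀ (by positivity) hA2 u)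
      (pow_le_pow_right₀ hA1 hu)) (by positivity) hE0.le
    rw [hE]
    refine le_trans ?_ (Real.pow_div_factorial_le_exp _ (by positivity) u)
    rw [div_pow]
    refine div_le_div_of_nonneg_left (by positivity) (by exact_mod_cast Nat.factorial_pos u) ?_
    exact_mod_cast Nat.factorial_le_pow u
  have H1 : 256 * k / β ^ 2 ≤ (2 : ℝ) ^ j := by
    have h1 : Real.exp (c * k) ≤ 2 ^ j := by
      rw [← Real.exp_log (show (0 : ℝ) < 2 by norm_num), ← Real.exp_nat_mul]
      refine Real.exp_le_exp.2 ?_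
      rw [hc]
      nlinarith [mul_le_mul_of_nonneg_right hj2 hl2.le]
    have h2 := Real.pow_div_factorial_le_exp (c * k) (by positivity) 2
    refine le_trans ?_ (le_trans h2 h1)
    rw [div_le_div_iff₀ (by positivity) (by positivity)]
    simp only [Nat.factorial, Nat.succ_eq_add_one, Nat.reduceAdd, Nat.reduceMul, Nat.cast_ofNat]
    nlinarith [mul_le_mul_of_nonneg_right k3 hk'.le]
  have H2 : ∀ d : ℕ, (d : ℝ) ≤ δ * k ^ 2 → (1 + s) ^ (2 * k ^ 2) ≤ s ^ d * 2 ^ (16 * j ^ 2) := by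
    intro d hd
    have h1 : (1 + s) ^ (2 * k ^ 2) ≤ Real.exp s ^ (2 * k ^ 2) :=
      pow_le_pow_left₀ (by positivity) (by linarith [Real.add_one_le_exp s]) _
    refine le_trans h1 ?_
    have h2 : s ^ d * 2 ^ (16 * j ^ 2) =
        Real.exp (d * Real.log s + ((16 * j ^ 2 : ℕ) : ℝ) * Real.log 2) := by
      rw [Real.exp_add, Real.exp_nat_mul, Real.exp_nat_mul, Real.exp_log hs0,
        Real.exp_log (by norm_num)]
    rw [h2, ← Real.exp_nat_mul]
    refine Real.exp_le_exp.2 ?_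
    push_cast
    have h3 : -(d * Real.log s) ≤ 2 * s * k ^ 2 := by
      have h4 : -(d * Real.log s) ≤ d * |Real.log s| := by
        have := mul_le_mul_of_nonneg_left (neg_le_abs (Real.log s)) (Nat.cast_nonneg (α := ℝ) d)
        linarith
      have h5 := mul_le_mul_of_nonneg_right hd (abs_nonneg (Real.log s))
      have h6 := mul_le_mul_of_nonneg_right hδs (sq_nonneg (k : ℝ))
      nlinarith
    have h7 : (σ * k / 2) ^ 2 ≤ (j : ℝ) ^ 2 := pow_le_pow_left₀ (by positivity) hj2 2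
    have h8 := mul_le_mul_of_nonneg_right h7 hl2.le
    have h9 : (σ * k / 2) ^ 2 * Real.log 2 = s * k ^ 2 / 4 := by rw [hs]; ring
    nlinarith
  have hY := av_Phi F k j hkpos β s (δ * k ^ 2) (E * A ^ (16 * j)) hβ0 hβ1 hs0 (by nlinarith)
    hM H1 H2 hF
  have hE5 : Real.exp ε ^ k = E ^ 5 := by
    rw [hE, ← Real.exp_nat_mul, ← Real.exp_nat_mul, he]; congr 1; push_cast; ring
  have hqk : E ^ 5 ≤ Real.sqrt 2 ^ k := by
    rw [← hE5]; exact pow_le_pow_left₀ (by positivity) hbig.le k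
  have hζE : (2 : ℝ) ^ (16 * j) ≤ E := by nlinarith
  set θ0 : ℝ := Real.sqrt 2 ^ k / (2 * Real.sqrt 2 * 2 ^ (16 * j)) with hθ0
  have hθ1 : 1 ≤ θ0 := by
    rw [hθ0, one_le_div (by positivity)]
    refine le_trans ?_ hqk
    calc 2 * Real.sqrt 2 * 2 ^ (16 * j) ≤ E * E :=
          mul_le_mul (by linarith) hζE (by positivity) hE0.le
      _ = E ^ 2 := by ring
      _ ≤ E ^ 5 := pow_le_pow_right₀ (by linarith) (by norm_num)
  have hmain := core F k (β := β) (ζ := 2 ^ (16 * j)) (θ0 := θ0)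
    (lam := θ0 / (4 * (1 + β) ^ k * (1 + β) ^ k)) hβ0 hζ1 hθ1 (by positivity)
    (le_of_eq (by field_simp)) hY Γ hΓ1 hΓ
  refine le_trans hmain ?_
  rw [add_mul, one_mul, add_comm]
  refine add_le_add ?_ ?_
  · have h1 : (2 ^ (16 * j) * θ0) ^ k * (1 / 2) ^ k.choose 2 = (1 / 2 : ℝ) ^ k := by
      have h2 : 2 ^ (16 * j) * θ0 = Real.sqrt 2 ^ k / (2 * Real.sqrt 2) := by
        rw [hθ0]; field_simp
      rw [h2, div_pow, ← pow_mul, ← two_mul_choose k, pow_add, pow_mul, hq2, mul_pow]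
      simp only [div_pow, one_pow]
      field_simp
    rw [h1]
    refine pow_le_pow_left₀ (by norm_num) ?_ k
    rw [div_le_div_iff₀ (by norm_num) hq0]
    linarith [Real.add_one_le_exp ε]
  · rw [div_pow, hE5, ← hB]
    have h1 : Real.exp (2 * (δ * k ^ 2) / k) ≤ E := by
      rw [hE]
      refine Real.exp_le_exp.2 ?_
      rw [div_le_iff₀ hk']
      nlinarith [mul_le_mul_of_nonneg_right hδe (sq_nonneg (k : ℝ))]
    have h2 : (1 + β) ^ k * (1 + β) ^ k ≤ E := by
      have h3 : (1 + β) ^ k ≤ Real.exp (e / 2) ^ k :=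
        pow_le_pow_left₀ (by positivity) (by linarith [Real.add_one_le_exp (e / 2)]) _
      refine le_trans (mul_le_mul h3 h3 (by positivity) (by positivity)) (le_of_eq ?_)
      rw [← Real.exp_nat_mul, ← Real.exp_add, hE]; congr 1; ring
    have h4 : E * A ^ (16 * j) * Real.exp (2 * (δ * k ^ 2) / k) * B /
        (θ0 / (4 * (1 + β) ^ k * (1 + β) ^ k)) =
        B * ((E * (2 ^ (16 * j) * A ^ (16 * j)) * Real.exp (2 * (δ * k ^ 2) / k) *
          ((1 + β) ^ k * (1 + β) ^ k) * (8 * Real.sqrt 2)) / Real.sqrt 2 ^ k) := by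
      rw [hθ0]; field_simp; ring
    rw [h4]
    refine mul_le_mul_of_nonneg_left (div_le_div_of_nonneg_right ?_ (by positivity)) hB0
    calc _ ≤ E * E * E * E * E := by
          have h5 : 8 * Real.sqrt 2 ≤ E := by linarith
          gcongr
      _ = E ^ 5 := by ring

theorem final (η : ℝ) (hη : 0 < η) : ∃ δ : ℝ, 0 < δ ∧ ∃ k0 : ℕ, ∀ k ≥ k0, ∀ (n : ℕ)
    (f : Fin n → MvPolynomial (Edge n) ℝ) (a : Fin n → ℝ), (∀ i, a i < 1 / 2) →
      (∀ i, ((f i).totalDegree : ℝ) ≤ δ * k ^ 2) →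
      (Set.ncard {x : Edge n → Bool | ∃ K : Finset (Fin n), (K : Set (Fin n)) ⊆ output f x ∧
          (graphOf x).IsClique (K : Set (Fin n)) ∧ k ≤ K.card} : ℝ) /
        Fintype.card (Edge n → Bool) ≤
      (1 + (∑ x : Edge n → Bool, ∑ i, ((value (f i) x - a i) / (1 - 2 * a i)) ^ 2) /
        Fintype.card (Edge n → Bool)) * (2 : ℝ) ^ (-(1 / 2 - η) * k) := by
  classical
  obtain ⟨δ, hδ, k0, h⟩ := stable (η * Real.log 2) (mul_pos hη (Real.log_pos one_lt_two))
  refine ⟨δ, hδ, k0, fun k hk n f a ha hdeg => ?_⟩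
  set P : (Edge n → Bool) → Prop := fun x => ∃ K : Finset (Fin n), (K : Set (Fin n)) ⊆ output f x ∧
    (graphOf x).IsClique (K : Set (Fin n)) ∧ k ≤ K.card with hP
  have hmain := h k hk (Fin n) (fun i y => (value (f i) (res y) - a i) / (1 - 2 * a i))
    (fun y => if P (res y) then 1 else 0)
    (fun w S hS => by
      have h1 : fc (fun y => value (f w) (res y)) S = 0 := by
        simp only [value_res]
        refine fc_eval_eq_zero _ S (lt_of_le_of_lt (MvPolynomial.totalDegree_rename_le _ _) ?_)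
        exact_mod_cast lt_of_le_of_lt (hdeg w) hS
      have h2 : S ≠ ∅ := by
        rintro rfl
        simp only [Finset.card_empty, Nat.cast_zero] at hS
        exact absurd hS (not_lt.2 (by positivity))
      have h3 := chi_orth S ∅
      rw [if_neg h2] at h3
      simp only [chi, Finset.prod_empty, mul_one] at h3
      unfold fc at h1 ⊢
      have h4 : ∀ y, (value (f w) (res y) - a w) / (1 - 2 * a w) * chi S y =
          (value (f w) (res y) * chi S y - a w * ∏ e ∈ S, sg (y e)) / (1 - 2 * a w) := fun y => by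
        unfold chi; ring
      simp only [h4]
      rw [av_div, av_sub, av_mul_left, h1, h3]
      simp)
    (fun y => by split_ifs <;> norm_num)
    (fun y hy => by
      split_ifs at hy with h
      · obtain ⟨K, hK1, hK2, hK3⟩ := h
        refine ⟨K, hK3, fun v hv z hz hvz => ?_, fun v hv => ?_⟩
        · have := hK2 (Finset.mem_coe.2 hv) (Finset.mem_coe.2 hz) hvz
          rw [graphOf, SimpleGraph.fromEdgeSet_adj] at this
          obtain ⟨⟨_, h⟩, -⟩ := this
          exact h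
        · have h1 : 1 / 2 ≤ value (f v) (res y) := hK1 (Finset.mem_coe.2 hv)
          rw [le_div_iff₀ (by linarith [ha v])]
          linarith
      · exact absurd hy (lt_irrefl _))
  rw [av_res (fun x => if P x then 1 else 0),
    av_res (fun x => ∑ i, ((value (f i) x - a i) / (1 - 2 * a i)) ^ 2)] at hmain
  have e1 : (Real.exp (η * Real.log 2) / Real.sqrt 2) ^ k = (2 : ℝ) ^ (-(1 / 2 - η) * k) := by
    rw [Real.rpow_mul (by norm_num), Real.rpow_natCast]
    congr 1
    rw [Real.sqrt_eq_rpow, neg_sub, Real.rpow_sub (by norm_num),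
      Real.rpow_def_of_pos (by norm_num) η, mul_comm]
  rw [e1] at hmain
  refine le_of_eq_of_le ?_ hmain
  unfold av
  congr 1
  rw [Finset.sum_boole, ← Set.ncard_coe_finset]
  congr 2
  ext x
  simp [hP]

end Pool.Agent.P.MP_7ffab6_lc.Opt
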