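import Pool.Agent.Results.MP_7ffab6_lc.LogSquared

/-! The earlier statement (degree and mean square norm `O(log n)`) follows from `LogSquared`. -/

namespace Pool.Agent.P.MP_7ffab6_lc.Opt

open Filter

theorem old_statement (C γ α c : ℝ) (hα : 0 < α) (hc : 0 < c) :
    ∀ᶠ n : ℕ in Filter.atTop, ∀ f : Fin n → MvPolynomial (Edge n) ℝ,
      (∀ i, ((f i).totalDegree : ℝ) ≤ C * Real.logb 2 n) →
      (∑ x : Edge n → Bool, ∑ i, value (f i) x ^ 2) / Fintype.card (Edge n → Bool) ≤
        γ * Real.logb 2 n →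
      (Set.ncard {x : Edge n → Bool | ∃ K : Finset (Fin n), (K : Set (Fin n)) ⊆ output f x ∧
          (graphOf x).IsClique (K : Set (Fin n)) ∧ α * Real.logb 2 n ≤ K.card} : ℝ) /
        Fintype.card (Edge n → Bool) < c := by
  obtain ⟨δ, hδ, k0, h⟩ := Pool.Agent.Results.MP_7ffab6_lc.LogSquared.result (1 / 4) (by norm_num)
  have hl2 : 0 < Real.log 2 := Real.log_pos one_lt_two
  set b : ℝ := Real.log 2 / 4 with hb
  have hb0 : 0 < b := by positivity
  have hlog : Tendsto (fun n : ℕ => α * Real.logb 2 n) atTop atTop :=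
    Tendsto.const_mul_atTop hα
      ((Real.tendsto_logb_atTop one_lt_two).comp tendsto_natCast_atTop_atTop)
  filter_upwards [hlog.eventually_ge_atTop
    (k0 + 1 + |C| / (α * δ) + 4 * (1 + |γ| / α) / (c * b ^ 2))] with n hn f hdeg hnorm
  set L := Real.logb 2 n with hL
  set k := ⌈α * L⌉₊ with hk
  have hk1 : α * L ≤ k := Nat.le_ceil _
  have p0 : (0 : ℝ) ≤ k0 := by positivity
  have p1 : 0 ≤ |C| / (α * δ) := by positivity
  have p2 : 0 < 4 * (1 + |γ| / α) / (c * b ^ 2) := by positivity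
  have hk2 : (1 : ℝ) ≤ k := by linarith
  have hL0 : 0 < L := pos_of_mul_pos_right (show 0 < α * L by linarith) hα.le
  have hLk : L ≤ k / α := by rw [le_div_iff₀ hα]; linarith
  have hmain := h k (by exact_mod_cast (show (k0 : ℝ) ≤ k by linarith)) n f (fun _ => 0)
    (fun _ => by norm_num) fun i => by
      refine le_trans (hdeg i) ?_
      have h1 : |C| ≤ k * (α * δ) := (div_le_iff₀ (by positivity)).1 (by linarith)
      calc C * L ≤ |C| * (k / α) :=
            mul_le_mul (le_abs_self C) hLk hL0.le (abs_nonneg C)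
        _ ≤ k * (α * δ) * (k / α) := mul_le_mul_of_nonneg_right h1 (by positivity)
        _ = δ * k ^ 2 := by field_simp
  simp only [sub_zero, mul_zero, div_one] at hmain
  simp only [hk, Nat.ceil_le] at hmain
  rw [← hk] at hmain
  refine lt_of_le_of_lt hmain ?_
  have h1 : (2 : ℝ) ^ (-(1 / 2 - 1 / 4 : ℝ) * k) = (Real.exp (b * k))⁻¹ := by
    rw [Real.rpow_def_of_pos (by norm_num), ← Real.exp_neg, hb]; congr 1; ring
  have h2 := Real.pow_div_factorial_le_exp (b * k) (by positivity) 2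
  simp only [Nat.factorial, Nat.succ_eq_add_one, Nat.reduceAdd, Nat.reduceMul, Nat.cast_ofNat] at h2
  rw [h1, ← div_eq_mul_inv, div_lt_iff₀ (Real.exp_pos _)]
  have h3 : 4 * (1 + |γ| / α) ≤ k * (c * b ^ 2) := (div_le_iff₀ (by positivity)).1 (by linarith)
  have h4 : γ * L ≤ |γ| / α * k := by
    calc γ * L ≤ |γ| * (k / α) := mul_le_mul (le_abs_self γ) hLk hL0.le (abs_nonneg γ)
      _ = |γ| / α * k := by ring
  have h5 : 0 ≤ |γ| / α := by positivity
  have h6 := mul_le_mul_of_nonneg_right h3 (show (0 : ℝ) ≤ k by linarith)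
  have h7 := mul_le_mul_of_nonneg_left h2 hc.le
  nlinarith

end Pool.Agent.P.MP_7ffab6_lc.Opt
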